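import Mathlib

/-!
# Apx: trigonometric majorants of `|cos θ|`

Weierstrass approximation of `√x` on `[0, 1]` at `x = cos² θ`; even powers of the cosine are combinations of the
functions `cos (2kθ)`; the constant term is found by integrating over `[-π/2, π/2]`.
-/

set_option autoImplicit false

namespace Pool.Agent.H48.RZ

/-- The span of the functions `θ ↦ cos (2kθ)`, `k ≥ 0`. -/
noncomputable def evSpan : Submodule ℝ (ℝ → ℝ) :=
  Submodule.span ℝ (Set.range (fun k : ℕ => fun θ : ℝ => Real.cos (2 * k * θ)))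

theorem gen_mem (k : ℕ) : (fun θ : ℝ => Real.cos (2 * k * θ)) ∈ evSpan :=
  Submodule.subset_span ⟨k, rfl⟩

theorem mul_mem {f : ℝ → ℝ} (hf : f ∈ evSpan) :
    (fun θ : ℝ => Real.cos θ ^ 2 * f θ) ∈ evSpan := by
  induction hf using Submodule.span_induction with
  | mem g hg =>
    obtain ⟨k, rfl⟩ := hg
    rcases k with _ | k
    · have h : (fun θ : ℝ => Real.cos θ ^ 2 * (fun θ : ℝ => Real.cos (2 * ((0 : ℕ) : ℝ) * θ)) θ) =
          (1 / 2 : ℝ) • (fun θ : ℝ => Real.cos (2 * ((0 : ℕ) : ℝ) * θ)) +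
          (1 / 2 : ℝ) • (fun θ : ℝ => Real.cos (2 * ((1 : ℕ) : ℝ) * θ)) := by
        funext θ
        simp only [Pi.add_apply, Pi.smul_apply, smul_eq_mul, Nat.cast_zero, Nat.cast_one, mul_zero,
          zero_mul, mul_one, Real.cos_zero]
        rw [Real.cos_sq]
        ring
      rw [h]
      exact evSpan.add_mem (evSpan.smul_mem _ (gen_mem 0)) (evSpan.smul_mem _ (gen_mem 1))
    · have h : (fun θ : ℝ => Real.cos θ ^ 2 * (fun θ : ℝ => Real.cos (2 * ((k + 1 : ℕ) : ℝ) * θ)) θ) =
          (1 / 2 : ℝ) • (fun θ : ℝ => Real.cos (2 * ((k + 1 : ℕ) : ℝ) * θ)) +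
          ((1 / 4 : ℝ) • (fun θ : ℝ => Real.cos (2 * ((k + 2 : ℕ) : ℝ) * θ)) +
          (1 / 4 : ℝ) • (fun θ : ℝ => Real.cos (2 * (k : ℝ) * θ))) := by
        funext θ
        simp only [Pi.add_apply, Pi.smul_apply, smul_eq_mul]
        rw [Real.cos_sq]
        have e1 : 2 * ((k + 2 : ℕ) : ℝ) * θ = 2 * ((k + 1 : ℕ) : ℝ) * θ + 2 * θ := by push_cast; ring
        have e2 : 2 * (k : ℝ) * θ = 2 * ((k + 1 : ℕ) : ℝ) * θ - 2 * θ := by push_cast; ring
        rw [e1, e2, Real.cos_add, Real.cos_sub]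
        ring
      rw [h]
      exact evSpan.add_mem (evSpan.smul_mem _ (gen_mem _))
        (evSpan.add_mem (evSpan.smul_mem _ (gen_mem _)) (evSpan.smul_mem _ (gen_mem _)))
  | zero =>
    have h : (fun θ : ℝ => Real.cos θ ^ 2 * (0 : ℝ → ℝ) θ) = 0 := by
      funext θ; simp
    rw [h]; exact evSpan.zero_mem
  | add g h _ _ hg hh =>
    have e : (fun θ : ℝ => Real.cos θ ^ 2 * (g + h) θ) =
        (fun θ : ℝ => Real.cos θ ^ 2 * g θ) + (fun θ : ℝ => Real.cos θ ^ 2 * h θ) := by
      funext θ; simp only [Pi.add_apply]; ring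
    rw [e]; exact evSpan.add_mem hg hh
  | smul c g _ hg =>
    have e : (fun θ : ℝ => Real.cos θ ^ 2 * (c • g) θ) =
        c • (fun θ : ℝ => Real.cos θ ^ 2 * g θ) := by
      funext θ; simp only [Pi.smul_apply, smul_eq_mul]; ring
    rw [e]; exact evSpan.smul_mem _ hg

theorem pow_mem (n : ℕ) : (fun θ : ℝ => (Real.cos θ ^ 2) ^ n) ∈ evSpan := by
  induction n with
  | zero =>
    have h : (fun θ : ℝ => (Real.cos θ ^ 2) ^ 0) = (fun θ : ℝ => Real.cos (2 * ((0 : ℕ) : ℝ) * θ)) := by
      funext θ; simp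
    rw [h]; exact gen_mem 0
  | succ n ih =>
    have h : (fun θ : ℝ => (Real.cos θ ^ 2) ^ (n + 1)) =
        (fun θ : ℝ => Real.cos θ ^ 2 * (fun θ : ℝ => (Real.cos θ ^ 2) ^ n) θ) := by
      funext θ; rw [pow_succ']
    rw [h]; exact mul_mem ih

theorem poly_mem (p : Polynomial ℝ) : (fun θ : ℝ => p.eval (Real.cos θ ^ 2)) ∈ evSpan := by
  induction p using Polynomial.induction_on' with
  | add p q hp hq =>
    have e : (fun θ : ℝ => (p + q).eval (Real.cos θ ^ 2)) =
        (fun θ : ℝ => p.eval (Real.cos θ ^ 2)) + (fun θ : ℝ => q.eval (Real.cos θ ^ 2)) := by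
      funext θ; simp
    rw [e]; exact evSpan.add_mem hp hq
  | monomial n c =>
    have e : (fun θ : ℝ => (Polynomial.monomial n c).eval (Real.cos θ ^ 2)) =
        c • (fun θ : ℝ => (Real.cos θ ^ 2) ^ n) := by
      funext θ; simp
    rw [e]; exact evSpan.smul_mem _ (pow_mem n)

theorem exists_coeff {f : ℝ → ℝ} (hf : f ∈ evSpan) : ∃ (K : ℕ) (a : ℕ → ℝ) (c : ℝ), ∀ θ : ℝ,
    f θ = c + ∑ k ∈ Finset.Icc 1 K, a k * Real.cos (2 * k * θ) := by
  obtain ⟨l, hl⟩ := (Finsupp.mem_span_range_iff_exists_finsupp).1 hf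
  refine ⟨l.support.sup id, fun k => l k, l 0, fun θ => ?_⟩
  rw [← hl]
  rw [Finsupp.sum_of_support_subset l (s := Finset.range (l.support.sup id + 1)) ?_ _
    (fun i _ => by simp)]
  · rw [Finset.sum_apply]
    rw [Finset.range_eq_Ico, Finset.sum_eq_sum_Ico_succ_bot (by omega)]
    simp only [Pi.smul_apply, smul_eq_mul, Nat.cast_zero, mul_zero, zero_mul, Real.cos_zero, mul_one]
    rfl
  · intro i hi
    have := Finset.le_sup (f := id) hi
    simp only [id] at this
    exact Finset.mem_range.2 (by omega)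

theorem int_cos (k : ℕ) (hk : 1 ≤ k) :
    ∫ θ in (-(Real.pi / 2))..(Real.pi / 2), Real.cos (2 * k * θ) = 0 := by
  have hk0 : (2 * (k : ℝ)) ≠ 0 := by
    have : (0 : ℝ) < k := by exact_mod_cast hk
    positivity
  rw [intervalIntegral.integral_comp_mul_left (fun x => Real.cos x) hk0, integral_cos]
  have e1 : 2 * (k : ℝ) * (Real.pi / 2) = k * Real.pi := by ring
  have e2 : 2 * (k : ℝ) * (-(Real.pi / 2)) = -(k * Real.pi) := by ring
  rw [e1, e2, Real.sin_neg, Real.sin_nat_mul_pi]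
  simp

theorem apx {ε : ℝ} (hε : 0 < ε) : ∃ (K : ℕ) (a : ℕ → ℝ), ∀ θ : ℝ,
    |Real.cos θ| ≤ 2 / Real.pi + ε + ∑ k ∈ Finset.Icc 1 K, a k * Real.cos (2 * k * θ) := by
  have hpi := Real.pi_pos
  obtain ⟨p, hp⟩ := exists_polynomial_near_of_continuousOn 0 1 (fun x : ℝ => Real.sqrt x)
    (Real.continuous_sqrt.continuousOn) (ε / 2) (by linarith)
  obtain ⟨K, a, c, h⟩ := exists_coeff (poly_mem p)
  have near : ∀ θ : ℝ, |p.eval (Real.cos θ ^ 2) - abs (Real.cos θ)| < ε / 2 := by
    intro θ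
    have := hp (Real.cos θ ^ 2) ⟨sq_nonneg _, Real.cos_sq_le_one θ⟩
    rwa [Real.sqrt_sq_eq_abs] at this
  have hc : c ≤ 2 / Real.pi + ε / 2 := by
    have i1 : ∫ θ in (-(Real.pi / 2))..(Real.pi / 2),
        (c + ∑ k ∈ Finset.Icc 1 K, a k * Real.cos (2 * k * θ)) = Real.pi * c := by
      rw [intervalIntegral.integral_add]
      · rw [intervalIntegral.integral_const, intervalIntegral.integral_finsetSum]
        · have : ∑ k ∈ Finset.Icc 1 K,
              ∫ θ in (-(Real.pi / 2))..(Real.pi / 2), a k * Real.cos (2 * k * θ) = 0 := by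
            apply Finset.sum_eq_zero
            intro k hk
            rw [intervalIntegral.integral_const_mul, int_cos k (Finset.mem_Icc.1 hk).1, mul_zero]
          rw [this, smul_eq_mul]; ring
        · intro k _
          exact (by fun_prop : Continuous fun θ : ℝ => a k * Real.cos (2 * k * θ)).intervalIntegrable _ _
      · exact continuous_const.intervalIntegrable _ _
      · exact (by fun_prop : Continuous fun θ : ℝ =>
          ∑ k ∈ Finset.Icc 1 K, a k * Real.cos (2 * k * θ)).intervalIntegrable _ _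
    have i2 : ∫ θ in (-(Real.pi / 2))..(Real.pi / 2), (Real.cos θ + ε / 2) = 2 + Real.pi * (ε / 2) := by
      rw [intervalIntegral.integral_add]
      · rw [intervalIntegral.integral_const, integral_cos, Real.sin_neg, Real.sin_pi_div_two,
          smul_eq_mul]
        ring
      · exact Real.continuous_cos.intervalIntegrable _ _
      · exact continuous_const.intervalIntegrable _ _
    have i3 : ∫ θ in (-(Real.pi / 2))..(Real.pi / 2),
        (c + ∑ k ∈ Finset.Icc 1 K, a k * Real.cos (2 * k * θ)) ≤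
        ∫ θ in (-(Real.pi / 2))..(Real.pi / 2), (Real.cos θ + ε / 2) := by
      apply intervalIntegral.integral_mono_on (by linarith)
      · exact (by fun_prop : Continuous fun θ : ℝ =>
          (c + ∑ k ∈ Finset.Icc 1 K, a k * Real.cos (2 * k * θ))).intervalIntegrable _ _
      · exact (by fun_prop : Continuous fun θ : ℝ => Real.cos θ + ε / 2).intervalIntegrable _ _
      · intro θ hθ
        have h1 := near θ
        rw [abs_of_nonneg (Real.cos_nonneg_of_mem_Icc hθ)] at h1
        have h2 := (abs_lt.1 h1).2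
        have h3 := h θ
        rw [← h3]
        linarith
    rw [i1, i2] at i3
    have h4 : c ≤ (2 + Real.pi * (ε / 2)) / Real.pi := by
      rw [le_div_iff₀ hpi]; linarith
    have h5 : (2 + Real.pi * (ε / 2)) / Real.pi = 2 / Real.pi + ε / 2 := by
      field_simp
    linarith
  refine ⟨K, a, fun θ => ?_⟩
  have h1 := (abs_lt.1 (near θ)).1
  have h3 := h θ
  rw [h3] at h1
  linarith

end Pool.Agent.H48.RZ
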