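import Mathlib

/-!
# Reciprocals of zeta near `Re s = 1`: definitions

`Pr a b`: the primes in `(e^a, e^b]`; `PS u a b = ∑ cos (u log p)/p` over them; `MD u Y = ∑ (1 - cos (u log p))/p` and
`DD t Y = ∑ (1 + cos (t log p))/p` over the primes up to `e^Y`; `fz u Y z = ζ(s) exp (-∑ p^(-s))`, `s = 1 + z/Y + iu`,
over the primes up to `e^Y`.
-/

set_option autoImplicit false

open Complex

namespace Pool.Agent.H48.RZ

/-- the primes in `(e^a, e^b]` -/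
noncomputable def Pr (a b : ℝ) : Finset ℕ :=
  (Finset.Ioc ⌊Real.exp a⌋₊ ⌊Real.exp b⌋₊).filter Nat.Prime

/-- `∑ cos (u log p) / p` over the primes in `(e^a, e^b]` -/
noncomputable def PS (u a b : ℝ) : ℝ := ∑ p ∈ Pr a b, Real.cos (u * Real.log p) / p

/-- `∑ (1 - cos (u log p)) / p` over the primes `≤ e^Y` -/
noncomputable def MD (u Y : ℝ) : ℝ := PS 0 0 Y - PS u 0 Y

/-- `∑ (1 + cos (t log p)) / p` over the primes `≤ e^Y` -/
noncomputable def DD (t Y : ℝ) : ℝ := PS 0 0 Y + PS t 0 Y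

/-- `∑ p^(-s)` over the primes `≤ e^Y` -/
noncomputable def EP (Y : ℝ) (s : ℂ) : ℂ := ∑ p ∈ Pr 0 Y, (p : ℂ) ^ (-s)

/-- `ζ(s) exp (-∑ p^(-s))`, `s = 1 + z/Y + iu` -/
noncomputable def fz (u Y : ℝ) (z : ℂ) : ℂ :=
  riemannZeta (1 + z / Y + u * I) * cexp (-(EP Y (1 + z / Y + u * I)))

theorem mem_Pr {a b : ℝ} {p : ℕ} : p ∈ Pr a b ↔ p.Prime ∧ Real.exp a < p ∧ (p : ℝ) ≤ Real.exp b := by
  unfold Pr
  rw [Finset.mem_filter, Finset.mem_Ioc, Nat.floor_lt (Real.exp_pos a).le, Nat.le_floor_iff (Real.exp_pos b).le]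
  tauto

theorem PS_zero (a b : ℝ) : PS 0 a b = ∑ p ∈ Pr a b, 1 / (p : ℝ) := by
  unfold PS
  simp

theorem PS_zero_nonneg (a b : ℝ) : 0 ≤ PS 0 a b := by
  rw [PS_zero]
  exact Finset.sum_nonneg fun p _ => by positivity

theorem PS_add (u : ℝ) {a b c : ℝ} (h : a ≤ b) (h' : b ≤ c) : PS u a b + PS u b c = PS u a c := by
  unfold PS Pr
  have h1 : ⌊Real.exp a⌋₊ ≤ ⌊Real.exp b⌋₊ := Nat.floor_le_floor (Real.exp_le_exp.2 h)
  have h2 : ⌊Real.exp b⌋₊ ≤ ⌊Real.exp c⌋₊ := Nat.floor_le_floor (Real.exp_le_exp.2 h')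
  rw [← Finset.sum_union, ← Finset.filter_union, Finset.Ioc_union_Ioc_eq_Ioc h1 h2]
  exact Finset.disjoint_filter_filter (Finset.Ioc_disjoint_Ioc_of_le le_rfl)

theorem abs_PS_le (u a b : ℝ) : |PS u a b| ≤ PS 0 a b := by
  rw [PS_zero]
  unfold PS
  refine (Finset.abs_sum_le_sum_abs _ _).trans (Finset.sum_le_sum fun p _ => ?_)
  rw [abs_div, Nat.abs_cast]
  exact div_le_div_of_nonneg_right (Real.abs_cos_le_one _) (Nat.cast_nonneg p)

theorem MD_eq (u Y : ℝ) : MD u Y = ∑ p ∈ Pr 0 Y, (1 - Real.cos (u * Real.log p)) / p := by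
  unfold MD
  rw [PS_zero]
  unfold PS
  rw [← Finset.sum_sub_distrib]
  exact Finset.sum_congr rfl fun p _ => (sub_div _ _ _).symm

theorem DD_eq (t Y : ℝ) : DD t Y = ∑ p ∈ Pr 0 Y, (1 + Real.cos (t * Real.log p)) / p := by
  unfold DD
  rw [PS_zero]
  unfold PS
  rw [← Finset.sum_add_distrib]
  exact Finset.sum_congr rfl fun p _ => (add_div _ _ _).symm

theorem MD_nonneg (u Y : ℝ) : 0 ≤ MD u Y := by
  rw [MD_eq]
  exact Finset.sum_nonneg fun p _ => div_nonneg (by linarith [Real.cos_le_one (u * Real.log p)])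
    (Nat.cast_nonneg p)

theorem DD_nonneg (t Y : ℝ) : 0 ≤ DD t Y := by
  rw [DD_eq]
  exact Finset.sum_nonneg fun p _ => div_nonneg (by linarith [Real.neg_one_le_cos (t * Real.log p)])
    (Nat.cast_nonneg p)

end Pool.Agent.H48.RZ
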