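import Mathlib
import Pool.Agent.H48.RZ.Defs
import Pool.Agent.H34.NA.Primes

set_option autoImplicit false

open Complex

namespace Pool.Agent.H48.RZ

open MeasureTheory

/-- the coefficients `(log p)/p` -/
private noncomputable def mc (n : ℕ) : ℝ := if n.Prime then Real.log n / n else 0

private lemma sum_mc (N : ℕ) : ∑ k ∈ Finset.Icc 0 N, mc k =
    ∑ p ∈ (Finset.Ioc 0 N).filter Nat.Prime, Real.log p / p := by
  unfold mc
  rw [Finset.sum_filter]
  rw [← Finset.Ioc_insert_left (Nat.zero_le N), Finset.sum_insert (by simp)]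
  simp

private lemma mert : ∃ C : ℝ, 0 < C ∧ ∀ x : ℝ, 1 ≤ x →
    |∑ k ∈ Finset.Icc 0 ⌊x⌋₊, mc k - Real.log x| ≤ C := by
  obtain ⟨C, hC, h⟩ := Pool.Agent.H34.NA.mertens_primes
  refine ⟨C + 1, by linarith, fun x hx => ?_⟩
  have hN : 1 ≤ ⌊x⌋₊ := by rwa [Nat.one_le_floor_iff]
  have h1 := h ⌊x⌋₊ hN
  rw [← sum_mc] at h1
  have hN0 : (1 : ℝ) ≤ ⌊x⌋₊ := by exact_mod_cast hN
  have h2 : Real.log ⌊x⌋₊ ≤ Real.log x := Real.log_le_log (by linarith) (Nat.floor_le (by linarith))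
  have h3 : Real.log x ≤ Real.log ⌊x⌋₊ + 1 := by
    have h4 : x ≤ 2 * ⌊x⌋₊ := by
      have := (Nat.lt_floor_add_one x).le
      linarith
    have h5 := Real.log_le_log (by linarith) h4
    rw [Real.log_mul (by norm_num) (by linarith)] at h5
    linarith [Real.log_two_lt_d9]
  rw [abs_le] at h1 ⊢
  constructor <;> linarith [h1.1, h1.2]

/-- the derivative of `1/log` -/
private lemma dlog {t : ℝ} (ht : 1 < t) :
    HasDerivAt (fun t : ℝ => (Real.log t)⁻¹) (-(t⁻¹ / Real.log t ^ 2)) t := by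
  have h1 : Real.log t ≠ 0 := (Real.log_pos ht).ne'
  have h2 : HasDerivAt (fun t : ℝ => (Real.log t)⁻¹) (-t⁻¹ / Real.log t ^ 2) t :=
    (Real.hasDerivAt_log (by linarith : t ≠ 0)).inv h1
  have e : -(t⁻¹ / Real.log t ^ 2) = -t⁻¹ / Real.log t ^ 2 := by ring
  rw [e]
  exact h2

private lemma dlog_cont {A B : ℝ} (hA : 1 < A) :
    ContinuousOn (fun t : ℝ => -(t⁻¹ / Real.log t ^ 2)) (Set.Icc A B) := by
  intro t ht
  have h1 : 1 < t := lt_of_lt_of_le hA ht.1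
  have h2 : Real.log t ≠ 0 := (Real.log_pos h1).ne'
  have h3 : t ≠ 0 := by linarith
  apply ContinuousAt.continuousWithinAt
  exact ((continuousAt_inv₀ h3).div ((Real.continuousAt_log h3).pow 2) (pow_ne_zero 2 h2)).neg

private lemma main {C : ℝ} (hC : 0 < C) (h : ∀ x : ℝ, 1 ≤ x →
    |∑ k ∈ Finset.Icc 0 ⌊x⌋₊, mc k - Real.log x| ≤ C) {A B : ℝ} (hA : Real.exp 1 ≤ A) (hAB : A ≤ B) :
    |∑ k ∈ Finset.Ioc ⌊A⌋₊ ⌊B⌋₊, (Real.log k)⁻¹ * mc k - (Real.log (Real.log B) - Real.log (Real.log A))| ≤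
      4 * C := by
  have he : 1 < Real.exp 1 := by
    have := Real.add_one_lt_exp (by norm_num : (1 : ℝ) ≠ 0)
    linarith
  have hA1 : 1 < A := lt_of_lt_of_le he hA
  have hB1 : 1 < B := lt_of_lt_of_le hA1 hAB
  have hlA : 1 ≤ Real.log A := (Real.le_log_iff_exp_le (by linarith)).2 hA
  have hlAB : Real.log A ≤ Real.log B := Real.log_le_log (by linarith) hAB
  have hlB : 1 ≤ Real.log B := hlA.trans hlAB
  have hder : ∀ t ∈ Set.Icc A B, HasDerivAt (fun t : ℝ => (Real.log t)⁻¹) (-(t⁻¹ / Real.log t ^ 2)) t :=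
    fun t ht => dlog (lt_of_lt_of_le hA1 ht.1)
  have hdeq : Set.EqOn (deriv fun t : ℝ => (Real.log t)⁻¹) (fun t : ℝ => -(t⁻¹ / Real.log t ^ 2))
      (Set.Icc A B) := fun t ht => (hder t ht).deriv
  have hint : IntegrableOn (deriv fun t : ℝ => (Real.log t)⁻¹) (Set.Icc A B) := by
    rw [integrableOn_congr_fun hdeq measurableSet_Icc]
    exact (dlog_cont hA1).integrableOn_Icc
  have habel := sum_mul_eq_sub_sub_integral_mul (f := fun t : ℝ => (Real.log t)⁻¹) mc (by linarith) hAB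
    (fun t ht => (hder t ht).differentiableAt) hint
  rw [habel]
  -- the integral
  have hI1 : IntegrableOn (fun t : ℝ => deriv (fun t : ℝ => (Real.log t)⁻¹) t *
      ∑ k ∈ Finset.Icc 0 ⌊t⌋₊, mc k) (Set.Ioc A B) :=
    (integrableOn_mul_sum_Icc mc (by linarith) hint).mono_set Set.Ioc_subset_Icc_self
  have hI2 : IntegrableOn (fun t : ℝ => -(t⁻¹ / Real.log t ^ 2) * Real.log t) (Set.Ioc A B) := by
    refine (ContinuousOn.integrableOn_Icc ?_).mono_set Set.Ioc_subset_Icc_self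
    refine (dlog_cont hA1).mul fun t ht => ?_
    exact (Real.continuousAt_log (by linarith [ht.1] : t ≠ 0)).continuousWithinAt
  have hI3 : IntegrableOn (fun t : ℝ => C * (t⁻¹ / Real.log t ^ 2)) (Set.Ioc A B) := by
    refine (ContinuousOn.integrableOn_Icc ?_).mono_set Set.Ioc_subset_Icc_self
    have h1 := (continuousOn_const (c := -C)).mul (dlog_cont (B := B) hA1)
    refine h1.congr fun t _ => ?_
    show C * (t⁻¹ / Real.log t ^ 2) = -C * -(t⁻¹ / Real.log t ^ 2)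
    ring
  have hE : |(∫ t in Set.Ioc A B, deriv (fun t : ℝ => (Real.log t)⁻¹) t *
      ∑ k ∈ Finset.Icc 0 ⌊t⌋₊, mc k) - ∫ t in Set.Ioc A B, -(t⁻¹ / Real.log t ^ 2) * Real.log t| ≤
      ∫ t in Set.Ioc A B, C * (t⁻¹ / Real.log t ^ 2) := by
    rw [← integral_sub hI1 hI2]
    rw [← Real.norm_eq_abs]
    refine norm_integral_le_of_norm_le hI3 ?_
    refine (ae_restrict_iff' measurableSet_Ioc).2 (Filter.Eventually.of_forall fun t ht => ?_)
    have ht' : t ∈ Set.Icc A B := Set.Ioc_subset_Icc_self ht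
    have h1 : 1 < t := lt_of_lt_of_le hA1 ht'.1
    have h2 := h t h1.le
    have h3 : 0 ≤ t⁻¹ / Real.log t ^ 2 := by positivity
    rw [hdeq ht', ← mul_sub, Real.norm_eq_abs, abs_mul, abs_neg, abs_of_nonneg h3, mul_comm C]
    exact mul_le_mul_of_nonneg_left h2 h3
  have hF1 : ∫ t in Set.Ioc A B, -(t⁻¹ / Real.log t ^ 2) * Real.log t =
      -(Real.log (Real.log B) - Real.log (Real.log A)) := by
    rw [← intervalIntegral.integral_of_le hAB]
    have h1 : ∀ t ∈ Set.uIcc A B, HasDerivAt (fun t : ℝ => -Real.log (Real.log t))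
        (-(t⁻¹ / Real.log t ^ 2) * Real.log t) t := by
      intro t ht
      rw [Set.uIcc_of_le hAB] at ht
      have h1 : 1 < t := lt_of_lt_of_le hA1 ht.1
      have h2 : Real.log t ≠ 0 := (Real.log_pos h1).ne'
      have h3 : HasDerivAt (fun t : ℝ => -Real.log (Real.log t)) (-(t⁻¹ / Real.log t)) t :=
        ((Real.hasDerivAt_log (by linarith : t ≠ 0)).log h2).neg
      have e : -(t⁻¹ / Real.log t ^ 2) * Real.log t = -(t⁻¹ / Real.log t) := by
        rw [pow_two, neg_mul, div_mul_eq_mul_div, mul_div_mul_right _ _ h2]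
      rw [e]
      exact h3
    rw [intervalIntegral.integral_eq_sub_of_hasDerivAt h1]
    · ring
    · rw [intervalIntegrable_iff_integrableOn_Ioc_of_le hAB]
      exact hI2
  have hF2 : ∫ t in Set.Ioc A B, C * (t⁻¹ / Real.log t ^ 2) = C * ((Real.log A)⁻¹ - (Real.log B)⁻¹) := by
    rw [← intervalIntegral.integral_of_le hAB]
    have h1 : ∀ t ∈ Set.uIcc A B, HasDerivAt (fun t : ℝ => -C * (Real.log t)⁻¹)
        (C * (t⁻¹ / Real.log t ^ 2)) t := by
      intro t ht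
      rw [Set.uIcc_of_le hAB] at ht
      have h3 : HasDerivAt (fun t : ℝ => -C * (Real.log t)⁻¹) (-C * -(t⁻¹ / Real.log t ^ 2)) t :=
        (hder t ht).const_mul (-C)
      have e : C * (t⁻¹ / Real.log t ^ 2) = -C * -(t⁻¹ / Real.log t ^ 2) := by ring
      rw [e]
      exact h3
    rw [intervalIntegral.integral_eq_sub_of_hasDerivAt h1]
    · ring
    · rw [intervalIntegrable_iff_integrableOn_Ioc_of_le hAB]
      exact hI3
  rw [hF1, hF2] at hE
  have hCA := h A hA1.le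
  have hCB := h B hB1.le
  have iA : 0 ≤ (Real.log A)⁻¹ ∧ (Real.log A)⁻¹ ≤ 1 := ⟨by positivity, inv_le_one_of_one_le₀ hlA⟩
  have iB : 0 ≤ (Real.log B)⁻¹ ∧ (Real.log B)⁻¹ ≤ 1 := ⟨by positivity, inv_le_one_of_one_le₀ hlB⟩
  have eA : |(Real.log A)⁻¹ * ∑ k ∈ Finset.Icc 0 ⌊A⌋₊, mc k - 1| ≤ C := by
    have e : (Real.log A)⁻¹ * ∑ k ∈ Finset.Icc 0 ⌊A⌋₊, mc k - 1 =
        (Real.log A)⁻¹ * (∑ k ∈ Finset.Icc 0 ⌊A⌋₊, mc k - Real.log A) := by
      rw [mul_sub, inv_mul_cancel₀ (by linarith)]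
    rw [e, abs_mul, abs_of_nonneg iA.1]
    calc (Real.log A)⁻¹ * |∑ k ∈ Finset.Icc 0 ⌊A⌋₊, mc k - Real.log A| ≤ 1 * C :=
          mul_le_mul iA.2 hCA (abs_nonneg _) (by norm_num)
      _ = C := one_mul C
  have eB : |(Real.log B)⁻¹ * ∑ k ∈ Finset.Icc 0 ⌊B⌋₊, mc k - 1| ≤ C := by
    have e : (Real.log B)⁻¹ * ∑ k ∈ Finset.Icc 0 ⌊B⌋₊, mc k - 1 =
        (Real.log B)⁻¹ * (∑ k ∈ Finset.Icc 0 ⌊B⌋₊, mc k - Real.log B) := by
      rw [mul_sub, inv_mul_cancel₀ (by linarith)]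
    rw [e, abs_mul, abs_of_nonneg iB.1]
    calc (Real.log B)⁻¹ * |∑ k ∈ Finset.Icc 0 ⌊B⌋₊, mc k - Real.log B| ≤ 1 * C :=
          mul_le_mul iB.2 hCB (abs_nonneg _) (by norm_num)
      _ = C := one_mul C
  have hEC : C * ((Real.log A)⁻¹ - (Real.log B)⁻¹) ≤ C := by nlinarith [iA.2, iB.1]
  rw [abs_le] at hE eA eB ⊢
  constructor <;> linarith [hE.1, hE.2, eA.1, eA.2, eB.1, eB.2]

private lemma PS_eq (a b : ℝ) : PS 0 a b =
    ∑ k ∈ Finset.Ioc ⌊Real.exp a⌋₊ ⌊Real.exp b⌋₊, (Real.log k)⁻¹ * mc k := by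
  rw [PS_zero]
  unfold Pr mc
  rw [Finset.sum_filter]
  refine Finset.sum_congr rfl fun k _ => ?_
  split_ifs with hk
  · have h2 : (2 : ℝ) ≤ k := by exact_mod_cast hk.two_le
    have h3 : 0 < Real.log k := Real.log_pos (by linarith)
    field_simp
  · simp

theorem mer : ∃ C : ℝ, 0 < C ∧
    (∀ a b : ℝ, 1 ≤ a → a ≤ b → |PS 0 a b - Real.log (b / a)| ≤ C) ∧
    (∀ Y : ℝ, 1 ≤ Y → |PS 0 0 Y - Real.log Y| ≤ C) ∧
    (∀ Y : ℝ, 1 ≤ Y → ∑ p ∈ Pr 0 Y, Real.log p / p ≤ C * Y) := by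
  obtain ⟨C, hC, h⟩ := mert
  have h1 : ∀ a b : ℝ, 1 ≤ a → a ≤ b → |PS 0 a b - Real.log (b / a)| ≤ 4 * C := by
    intro a b ha hab
    have h2 := main hC h (A := Real.exp a) (B := Real.exp b) (Real.exp_le_exp.2 ha) (Real.exp_le_exp.2 hab)
    rw [← PS_eq, Real.log_exp, Real.log_exp] at h2
    rwa [Real.log_div (by linarith) (by linarith)]
  obtain ⟨D, hD⟩ : ∃ D : ℝ, D = PS 0 0 1 := ⟨_, rfl⟩
  have hD0 : 0 ≤ D := by rw [hD]; exact PS_zero_nonneg 0 1
  refine ⟨4 * C + D + 1, by linarith, fun a b ha hab => (h1 a b ha hab).trans (by linarith),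
    fun Y hY => ?_, fun Y hY => ?_⟩
  · have h2 := h1 1 Y le_rfl hY
    rw [div_one] at h2
    have h3 := PS_add 0 zero_le_one hY
    rw [← hD] at h3
    rw [abs_le] at h2 ⊢
    constructor <;> linarith [h2.1, h2.2]
  · have h2 := (abs_le.1 (h (Real.exp Y) (Real.one_le_exp (by linarith)))).2
    rw [Real.log_exp, sum_mc] at h2
    have h3 : ∑ p ∈ Pr 0 Y, Real.log p / p ≤
        ∑ p ∈ (Finset.Ioc 0 ⌊Real.exp Y⌋₊).filter Nat.Prime, Real.log p / p := by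
      refine Finset.sum_le_sum_of_subset_of_nonneg ?_ fun p hp _ => ?_
      · intro p hp
        unfold Pr at hp
        rw [Finset.mem_filter, Finset.mem_Ioc] at hp ⊢
        exact ⟨⟨by omega, hp.1.2⟩, hp.2⟩
      · have hp2 := (Finset.mem_filter.1 hp).2
        have : (1 : ℝ) ≤ p := by exact_mod_cast hp2.one_le
        exact div_nonneg (Real.log_nonneg this) (by linarith)
    nlinarith

end Pool.Agent.H48.RZ
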