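import Mathlib
import Pool.Agent.H48.RZ.Mer

/-!
# EPb: the prime sum at `1 + z/Y + iu`

PROOF.  `p^(-(1 + z/Y + iu)) = p^(-1-iu) exp (-z (log p)/Y)`, `‖p^(-1-iu)‖ = 1/p`, `Re p^(-1-iu) = cos (u log p)/p`,
`w = z (log p)/Y` has `‖w‖ ≤ 1` for `‖z‖ ≤ 1`, `log p ≤ Y` (`mem_Pr`), so `‖exp (-w) - 1‖ ≤ 2 ‖w‖`.  The sum of
`2 (log p)/(p Y)` is `≤ 2C` by `mer` (3).  Second part: an entire function of `z`, a finite sum.
-/

set_option autoImplicit false

open Complex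

namespace Pool.Agent.H48.RZ

/-- the term of `p` at `1 + iu` has real part `cos (u log p)/p` and norm `1/p` -/
theorem epb_term (u : ℝ) {p : ℕ} (hp : 0 < (p : ℝ)) :
    (p : ℂ) ^ (-(1 + u * I)) = ((1 / (p : ℝ) : ℝ) : ℂ) * cexp (((-(u * Real.log p) : ℝ) : ℂ) * I) := by
  have h0 : (p : ℂ) ≠ 0 := by
    have : (p : ℝ) ≠ 0 := hp.ne'
    exact_mod_cast this
  have hl : Complex.log (p : ℂ) = ((Real.log p : ℝ) : ℂ) := by
    rw [Complex.ofReal_log hp.le, Complex.ofReal_natCast]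
  rw [Complex.cpow_def_of_ne_zero h0, hl]
  have h1 : ((Real.log p : ℝ) : ℂ) * (-(1 + u * I)) =
      ((-(Real.log p) : ℝ) : ℂ) + ((-(u * Real.log p) : ℝ) : ℂ) * I := by
    push_cast
    ring
  rw [h1, Complex.exp_add]
  congr 1
  rw [← Complex.ofReal_exp, Real.exp_neg, Real.exp_log hp, one_div]

theorem epb_one {Y u : ℝ} {z : ℂ} (hY : 1 ≤ Y) (hz : ‖z‖ ≤ 1) {p : ℕ} (hp : p ∈ Pr 0 Y) :
    |((p : ℂ) ^ (-(1 + z / Y + u * I))).re - Real.cos (u * Real.log p) / p| ≤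
      2 / Y * (Real.log p / p) := by
  obtain ⟨-, h1, h2⟩ := mem_Pr.1 hp
  rw [Real.exp_zero] at h1
  have hp0 : 0 < (p : ℝ) := by linarith
  have hY0 : 0 < Y := by linarith
  have h0 : (p : ℂ) ≠ 0 := by
    have : (p : ℝ) ≠ 0 := hp0.ne'
    exact_mod_cast this
  have hlog : 0 < Real.log p := Real.log_pos h1
  have hlogY : Real.log p ≤ Y := by
    have := Real.log_le_log hp0 h2
    rwa [Real.log_exp] at this
  have hl : Complex.log (p : ℂ) = ((Real.log p : ℝ) : ℂ) := by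
    rw [Complex.ofReal_log hp0.le, Complex.ofReal_natCast]
  set w : ℂ := -(((Real.log p / Y : ℝ) : ℂ) * z) with hw
  have hYc : (Y : ℂ) ≠ 0 := by exact_mod_cast hY0.ne'
  have hsplit : (p : ℂ) ^ (-(1 + z / Y + u * I)) = (p : ℂ) ^ (-(1 + u * I)) * cexp w := by
    rw [Complex.cpow_def_of_ne_zero h0, Complex.cpow_def_of_ne_zero h0, ← Complex.exp_add, hl, hw]
    congr 1
    push_cast
    field_simp
    ring
  have hwn : ‖w‖ ≤ Real.log p / Y := by
    rw [hw, norm_neg, norm_mul, Complex.norm_real, Real.norm_of_nonneg (by positivity)]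
    exact mul_le_of_le_one_right (by positivity) hz
  have hw1 : ‖w‖ ≤ 1 := hwn.trans ((div_le_one hY0).2 hlogY)
  have hterm := epb_term u hp0
  have hre : ((p : ℂ) ^ (-(1 + u * I))).re = Real.cos (u * Real.log p) / p := by
    rw [hterm, Complex.re_ofReal_mul, Complex.exp_ofReal_mul_I_re, Real.cos_neg]
    ring
  have hnorm : ‖(p : ℂ) ^ (-(1 + u * I))‖ = 1 / p := by
    rw [hterm, norm_mul, Complex.norm_exp_ofReal_mul_I, mul_one, Complex.norm_real,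
      Real.norm_of_nonneg (by positivity)]
  rw [← hre, hsplit, ← Complex.sub_re]
  refine (Complex.abs_re_le_norm _).trans ?_
  have hfac : (p : ℂ) ^ (-(1 + u * I)) * cexp w - (p : ℂ) ^ (-(1 + u * I)) =
      (p : ℂ) ^ (-(1 + u * I)) * (cexp w - 1) := by ring
  rw [hfac, norm_mul, hnorm]
  calc 1 / (p : ℝ) * ‖cexp w - 1‖ ≤ 1 / p * (2 * ‖w‖) :=
        mul_le_mul_of_nonneg_left (Complex.norm_exp_sub_one_le hw1) (by positivity)
    _ ≤ 1 / p * (2 * (Real.log p / Y)) := by gcongr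
    _ = 2 / Y * (Real.log p / p) := by ring

theorem epb : ∃ C : ℝ, 0 < C ∧ ∀ (Y u : ℝ) (z : ℂ), 1 ≤ Y → ‖z‖ ≤ 1 →
    |(EP Y (1 + z / Y + u * I)).re - PS u 0 Y| ≤ C := by
  obtain ⟨C, hC, -, -, h3⟩ := mer
  refine ⟨2 * C, by positivity, fun Y u z hY hz => ?_⟩
  have hY0 : 0 < Y := by linarith
  unfold EP PS
  rw [Complex.re_sum, ← Finset.sum_sub_distrib]
  calc |∑ p ∈ Pr 0 Y, (((p : ℂ) ^ (-(1 + z / Y + u * I))).re - Real.cos (u * Real.log p) / p)|
      ≤ ∑ p ∈ Pr 0 Y, |((p : ℂ) ^ (-(1 + z / Y + u * I))).re - Real.cos (u * Real.log p) / p| :=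
        Finset.abs_sum_le_sum_abs _ _
    _ ≤ ∑ p ∈ Pr 0 Y, 2 / Y * (Real.log p / p) := Finset.sum_le_sum fun p hp => epb_one hY hz hp
    _ = 2 / Y * ∑ p ∈ Pr 0 Y, Real.log p / p := by rw [Finset.mul_sum]
    _ ≤ 2 / Y * (C * Y) := mul_le_mul_of_nonneg_left (h3 Y hY) (by positivity)
    _ = 2 * C := by field_simp

theorem ep_diff (Y u : ℝ) : Differentiable ℂ (fun z : ℂ => EP Y (1 + z / Y + u * I)) := by
  unfold EP
  refine Differentiable.fun_sum fun p hp => ?_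
  obtain ⟨hpr, -, -⟩ := mem_Pr.1 hp
  have h0 : (p : ℂ) ≠ 0 := by exact_mod_cast hpr.ne_zero
  refine Differentiable.const_cpow ?_ (Or.inl h0)
  exact (((differentiable_const _).add (differentiable_id.div_const _)).add
    (differentiable_const _)).neg

end Pool.Agent.H48.RZ
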