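import Mathlib
import Pool.Agent.H76.NS.Rich23
import Pool.Agent.H48.VR.Rich

/-!
# RB: Richert's bound with the factor `(log t)^(2/3)`

`δ = max (1 - s.re) 0`, `Y = (log t)^(2/3)`, `κ = Y δ`. If `2 / c ≤ Y` and `δ ≤ c / 18`: `rich_large`
(`H76/NS/Rich23`). Otherwise `richert_of`: for `δ > c / 18` the factor `log t` is `≤ t^(δ^(3/2)) / ε`, and for
`Y < 2 / c` it is `≤ Y (2 / c)^(1/2)`.
-/

set_option autoImplicit false

open Complex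

namespace Pool.Agent.H48.RZ

private theorem rpow_three_half {x : ℝ} (hx : 0 ≤ x) : (x + 1) ^ (3 / 2 : ℝ) ≤ 3 * (x ^ (3 / 2 : ℝ) + 1) := by
  have h1 : (2 : ℝ) ^ (3 / 2 : ℝ) ≤ 3 := by
    have h2 : ((2 : ℝ) ^ (3 / 2 : ℝ)) ^ 2 = 8 := by
      rw [← Real.rpow_natCast, ← Real.rpow_mul (by norm_num)]
      norm_num
    have h3 : (0 : ℝ) ≤ (2 : ℝ) ^ (3 / 2 : ℝ) := by positivity
    nlinarith
  rcases le_total x 1 with h | h
  · have h2 : (x + 1) ^ (3 / 2 : ℝ) ≤ (2 : ℝ) ^ (3 / 2 : ℝ) :=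
      Real.rpow_le_rpow (by linarith) (by linarith) (by norm_num)
    have h3 : 0 ≤ x ^ (3 / 2 : ℝ) := by positivity
    linarith
  · have h2 : (x + 1) ^ (3 / 2 : ℝ) ≤ (2 * x) ^ (3 / 2 : ℝ) :=
      Real.rpow_le_rpow (by linarith) (by linarith) (by norm_num)
    rw [Real.mul_rpow (by norm_num) hx] at h2
    have h3 : 0 ≤ x ^ (3 / 2 : ℝ) := by positivity
    nlinarith

theorem rs_of {c C : ℝ} (hc : 0 < c) (hc2 : c ≤ 1 / 2) (hC : 0 < C)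
    (hz : ∀ (u : ℝ) (A B : ℕ), 1 ≤ A → A ≤ B → B ≤ 2 * A → 2 ≤ |u| →
      ‖∑ n ∈ Finset.Icc A B, (n : ℂ) ^ (-(u * I))‖ ≤
        C * ((A : ℝ) ^ (1 - c * (min 1 (Real.log A / Real.log |u|)) ^ 2) + A / |u|)) :
    ∃ B C' : ℝ, 1 ≤ B ∧ 1 ≤ C' ∧ ∀ s : ℂ, 1 / 2 ≤ s.re → 2 ≤ |s.im| →
      ‖riemannZeta s‖ ≤ C' * |s.im| ^ (B * max (1 - s.re) 0 ^ (3 / 2 : ℝ)) * Real.log |s.im| ^ (2 / 3 : ℝ) := by
  obtain ⟨B₁, C₁, hB₁, hC₁, hr⟩ := Pool.Agent.H48.VR.richert_of hc hc2 hC hz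
  have hsc : 0 < √c := Real.sqrt_pos.2 hc
  obtain ⟨ε, hε⟩ : ∃ ε : ℝ, ε = (c / 18) ^ (3 / 2 : ℝ) := ⟨_, rfl⟩
  have hε0 : 0 < ε := by rw [hε]; positivity
  obtain ⟨K, hK⟩ : ∃ K : ℝ, K = 3 / √c := ⟨_, rfl⟩
  have hK0 : 0 < K := by rw [hK]; positivity
  obtain ⟨D₁, hD₁⟩ : ∃ D₁ : ℝ, D₁ = 3 * C * Real.exp K + 9 * C + 5 := ⟨_, rfl⟩
  obtain ⟨D₂, hD₂⟩ : ∃ D₂ : ℝ, D₂ = 2 * C₁ / ε := ⟨_, rfl⟩
  obtain ⟨D₃, hD₃⟩ : ∃ D₃ : ℝ, D₃ = C₁ * (2 / c) ^ (1 / 2 : ℝ) := ⟨_, rfl⟩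
  have hD₁0 : 1 ≤ D₁ := by
    rw [hD₁]
    have : 0 ≤ 3 * C * Real.exp K := by positivity
    linarith
  have hD₂0 : 0 ≤ D₂ := by rw [hD₂]; positivity
  have hD₃0 : 0 ≤ D₃ := by rw [hD₃]; positivity
  refine ⟨B₁ + 1 + K, D₁ + D₂ + D₃, by linarith, by linarith, ?_⟩
  intro s hs ht
  obtain ⟨t, htd⟩ : ∃ t : ℝ, t = |s.im| := ⟨_, rfl⟩
  have hrs := hr s hs ht
  have hlarge : ∀ κ : ℝ, 0 ≤ κ → (9 * κ + 1) / c ≤ Real.log |s.im| ^ (2 / 3 : ℝ) →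
      1 - κ / Real.log |s.im| ^ (2 / 3 : ℝ) ≤ s.re → ‖riemannZeta s‖ ≤
        (3 * C * Real.exp ((κ + 1) * √((κ + 1) / c)) + 9 * C + 5) * Real.log |s.im| ^ (2 / 3 : ℝ) :=
    fun κ h1 h2 h3 => Pool.Agent.H76.NS.rich_large hc hc2 hC h1 hz hs ht h2 h3
  rw [← htd] at ht hrs hlarge ⊢
  obtain ⟨δ, hδ⟩ : ∃ δ : ℝ, δ = max (1 - s.re) 0 := ⟨_, rfl⟩
  rw [← hδ] at hrs ⊢
  have hδ0 : 0 ≤ δ := by rw [hδ]; exact le_max_right _ _
  have hδσ : 1 - s.re ≤ δ := by rw [hδ]; exact le_max_left _ _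
  obtain ⟨Y, hY⟩ : ∃ Y : ℝ, Y = Real.log t ^ (2 / 3 : ℝ) := ⟨_, rfl⟩
  rw [← hY] at hlarge ⊢
  have ht0 : 0 < t := by linarith
  have ht1 : 1 ≤ t := by linarith
  have hlog2 : (69 / 100 : ℝ) ≤ Real.log 2 := by
    have := Real.log_two_gt_d9
    linarith
  have hlt : Real.log 2 ≤ Real.log t := Real.log_le_log (by norm_num) ht
  have hL0 : 0 < Real.log t := by linarith
  have hY0 : 0 < Y := by rw [hY]; positivity
  have hY2 : 1 ≤ 2 * Y := by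
    have h1 : (1 / 2 : ℝ) ≤ Y := by
      rcases le_total 1 (Real.log t) with h | h
      · have := Real.one_le_rpow h (by norm_num : (0 : ℝ) ≤ 2 / 3)
        rw [← hY] at this
        linarith
      · have := Real.rpow_le_rpow_of_exponent_ge hL0 h (by norm_num : (2 / 3 : ℝ) ≤ 1)
        rw [Real.rpow_one, ← hY] at this
        linarith
    linarith
  have hLY : Real.log t = Y ^ (3 / 2 : ℝ) := by
    rw [hY, ← Real.rpow_mul hL0.le]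
    norm_num
  have hδ32 : 0 ≤ δ ^ (3 / 2 : ℝ) := by positivity
  have hpow : ∀ b : ℝ, b ≤ B₁ + 1 + K → t ^ (b * δ ^ (3 / 2 : ℝ)) ≤ t ^ ((B₁ + 1 + K) * δ ^ (3 / 2 : ℝ)) := by
    intro b hb
    exact Real.rpow_le_rpow_of_exponent_le ht1 (mul_le_mul_of_nonneg_right hb hδ32)
  obtain ⟨Z, hZ⟩ : ∃ Z : ℝ, Z = t ^ ((B₁ + 1 + K) * δ ^ (3 / 2 : ℝ)) := ⟨_, rfl⟩
  have hZ1 : 1 ≤ Z := by
    rw [hZ]
    exact Real.one_le_rpow ht1 (by positivity)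
  rw [← hZ] at hpow ⊢
  have hZY : 0 ≤ Z * Y := by positivity
  rcases lt_or_ge Y (2 / c) with hYc | hYc
  · -- bounded heights
    have h1 : Real.log t ≤ Y * (2 / c) ^ (1 / 2 : ℝ) := by
      rw [hLY, show (3 / 2 : ℝ) = 1 + 1 / 2 by norm_num, Real.rpow_add hY0, Real.rpow_one]
      exact mul_le_mul_of_nonneg_left (Real.rpow_le_rpow hY0.le hYc.le (by norm_num)) hY0.le
    calc ‖riemannZeta s‖ ≤ C₁ * t ^ (B₁ * δ ^ (3 / 2 : ℝ)) * Real.log t := hrs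
      _ ≤ C₁ * Z * (Y * (2 / c) ^ (1 / 2 : ℝ)) := by
          have := hpow B₁ (by linarith)
          gcongr
      _ = D₃ * (Z * Y) := by rw [hD₃]; ring
      _ ≤ (D₁ + D₂ + D₃) * (Z * Y) := mul_le_mul_of_nonneg_right (by linarith) hZY
      _ = (D₁ + D₂ + D₃) * Z * Y := by ring
  rcases lt_or_ge (c / 18) δ with hδc | hδc
  · -- large depth
    have h1 : Real.log t ≤ t ^ (δ ^ (3 / 2 : ℝ)) / ε := by
      have h2 : Real.log t ≤ t ^ ε / ε := Real.log_le_rpow_div ht0.le hε0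
      have h3 : t ^ ε ≤ t ^ (δ ^ (3 / 2 : ℝ)) := by
        refine Real.rpow_le_rpow_of_exponent_le ht1 ?_
        rw [hε]
        exact Real.rpow_le_rpow (by positivity) hδc.le (by norm_num)
      exact h2.trans (div_le_div_of_nonneg_right h3 hε0.le)
    have h4 : t ^ (B₁ * δ ^ (3 / 2 : ℝ)) * t ^ (δ ^ (3 / 2 : ℝ)) ≤ Z := by
      rw [← Real.rpow_add ht0]
      have := hpow (B₁ + 1) (by linarith)
      rwa [add_mul, one_mul] at this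
    calc ‖riemannZeta s‖ ≤ C₁ * t ^ (B₁ * δ ^ (3 / 2 : ℝ)) * Real.log t := hrs
      _ ≤ C₁ * t ^ (B₁ * δ ^ (3 / 2 : ℝ)) * (t ^ (δ ^ (3 / 2 : ℝ)) / ε) := by gcongr
      _ = C₁ / ε * (t ^ (B₁ * δ ^ (3 / 2 : ℝ)) * t ^ (δ ^ (3 / 2 : ℝ))) := by ring
      _ ≤ C₁ / ε * Z := by gcongr
      _ ≤ C₁ / ε * Z * (2 * Y) := le_mul_of_one_le_right (by positivity) hY2
      _ = D₂ * (Z * Y) := by rw [hD₂]; ring
      _ ≤ (D₁ + D₂ + D₃) * (Z * Y) := mul_le_mul_of_nonneg_right (by linarith) hZY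
      _ = (D₁ + D₂ + D₃) * Z * Y := by ring
  · -- the main case
    obtain ⟨κ, hκ⟩ : ∃ κ : ℝ, κ = Y * δ := ⟨_, rfl⟩
    have hκ0 : 0 ≤ κ := by rw [hκ]; positivity
    have h1 : (9 * κ + 1) / c ≤ Y := by
      rw [div_le_iff₀ hc, hκ]
      have h2 : 2 ≤ Y * c := by rwa [div_le_iff₀ hc] at hYc
      have h3 : Y * δ ≤ Y * (c / 18) := mul_le_mul_of_nonneg_left hδc hY0.le
      nlinarith
    have h2 : 1 - κ / Y ≤ s.re := by
      have : κ / Y = δ := by rw [hκ]; field_simp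
      linarith
    have h3 := hlarge κ hκ0 h1 h2
    have h4 : (κ + 1) * √((κ + 1) / c) ≤ K * κ ^ (3 / 2 : ℝ) + K := by
      have h5 : (κ + 1) * √((κ + 1) / c) = (κ + 1) ^ (3 / 2 : ℝ) / √c := by
        rw [Real.sqrt_div (by positivity), show (3 / 2 : ℝ) = 1 + 1 / 2 by norm_num,
          Real.rpow_add (by positivity), Real.rpow_one, ← Real.sqrt_eq_rpow]
        ring
      rw [h5, hK]
      have h6 := rpow_three_half hκ0
      calc (κ + 1) ^ (3 / 2 : ℝ) / √c ≤ 3 * (κ ^ (3 / 2 : ℝ) + 1) / √c :=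
            div_le_div_of_nonneg_right h6 hsc.le
        _ = 3 / √c * κ ^ (3 / 2 : ℝ) + 3 / √c := by ring
    have h7 : κ ^ (3 / 2 : ℝ) = Real.log t * δ ^ (3 / 2 : ℝ) := by
      rw [hκ, Real.mul_rpow hY0.le hδ0, ← hLY]
    have h8 : Real.exp ((κ + 1) * √((κ + 1) / c)) ≤ Z * Real.exp K := by
      calc Real.exp ((κ + 1) * √((κ + 1) / c)) ≤ Real.exp (K * κ ^ (3 / 2 : ℝ) + K) :=
            Real.exp_le_exp.2 h4
        _ = t ^ (K * δ ^ (3 / 2 : ℝ)) * Real.exp K := by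
            rw [Real.exp_add, Real.rpow_def_of_pos ht0, h7]
            congr 2
            ring
        _ ≤ Z * Real.exp K := by
            have := hpow K (by linarith)
            gcongr
    have h9 : 3 * C * Real.exp ((κ + 1) * √((κ + 1) / c)) + 9 * C + 5 ≤ D₁ * Z := by
      have h10 : 3 * C * Real.exp ((κ + 1) * √((κ + 1) / c)) ≤ 3 * C * (Z * Real.exp K) := by gcongr
      have h11 : 9 * C + 5 ≤ (9 * C + 5) * Z := le_mul_of_one_le_right (by linarith) hZ1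
      rw [hD₁]
      nlinarith
    calc ‖riemannZeta s‖ ≤ (3 * C * Real.exp ((κ + 1) * √((κ + 1) / c)) + 9 * C + 5) * Y := h3
      _ ≤ D₁ * Z * Y := mul_le_mul_of_nonneg_right h9 hY0.le
      _ = D₁ * (Z * Y) := by ring
      _ ≤ (D₁ + D₂ + D₃) * (Z * Y) := mul_le_mul_of_nonneg_right (by linarith) hZY
      _ = (D₁ + D₂ + D₃) * Z * Y := by ring

end Pool.Agent.H48.RZ
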