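import Mathlib
import Pool.Agent.H48.RZ.RB
import Pool.Agent.H76.VK.Richert

/-!
# RBz: Richert's bound with the factor `(log t)^(2/3)`

PROOF of `rb`: `|s.im|^(B δ^(3/2)) = exp (B δ^(3/2) log |s.im|) ≤ exp (B L⁻¹ 2 L) = e^(2B)` as `δ ≤ L^(-2/3)`, and
`(log |s.im|)^(2/3) ≤ (2L)^(2/3) ≤ 2 L^(2/3)`.
-/

set_option autoImplicit false

open Complex

namespace Pool.Agent.H48.RZ

/-- Richert's bound `ζ(σ+it) ≪ t^(B (1-σ)^(3/2)) (log t)^(2/3)` -/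
theorem rs : ∃ B C : ℝ, 1 ≤ B ∧ 1 ≤ C ∧ ∀ s : ℂ, 1 / 2 ≤ s.re → 2 ≤ |s.im| →
    ‖riemannZeta s‖ ≤ C * |s.im| ^ (B * max (1 - s.re) 0 ^ (3 / 2 : ℝ)) * Real.log |s.im| ^ (2 / 3 : ℝ) := by
  obtain ⟨A, hA, hm⟩ := Pool.Agent.H76.VK.vmvt
  have hMVB : Pool.Agent.H48.VB.MVB A := fun k P hk hP => hm k P hk hP
  obtain ⟨c, C, hc, hc2, hC, hz⟩ := Pool.Agent.H48.VB.vksum (by linarith : (0 : ℝ) ≤ A) hMVB
  exact rs_of hc hc2 hC hz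

theorem rb : ∃ C' : ℝ, 1 ≤ C' ∧ ∀ (L : ℝ) (s : ℂ), 1 ≤ L → 1 / 2 ≤ s.re → 1 - L ^ (-(2 / 3) : ℝ) ≤ s.re →
      2 ≤ |s.im| → Real.log |s.im| ≤ 2 * L → ‖riemannZeta s‖ ≤ C' * L ^ (2 / 3 : ℝ) := by
  obtain ⟨B, C, hB, hC, h⟩ := rs
  refine ⟨2 * (C * Real.exp (2 * B)), ?_, ?_⟩
  · have : 1 ≤ Real.exp (2 * B) := Real.one_le_exp (by linarith)
    nlinarith
  intro L s hL hs1 hs2 him hlog
  have hL0 : 0 < L := by linarith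
  have him0 : 0 < |s.im| := by linarith
  have hl0 : 0 ≤ Real.log |s.im| := Real.log_nonneg (by linarith)
  refine (h s hs1 him).trans ?_
  have h1 : |s.im| ^ (B * max (1 - s.re) 0 ^ (3 / 2 : ℝ)) ≤ Real.exp (2 * B) := by
    rw [Real.rpow_def_of_pos him0, Real.exp_le_exp]
    have h2 : max (1 - s.re) 0 ≤ L ^ (-(2 / 3) : ℝ) := max_le (by linarith) (by positivity)
    have h3 : max (1 - s.re) 0 ^ (3 / 2 : ℝ) ≤ L⁻¹ := by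
      calc max (1 - s.re) 0 ^ (3 / 2 : ℝ) ≤ (L ^ (-(2 / 3) : ℝ)) ^ (3 / 2 : ℝ) :=
            Real.rpow_le_rpow (le_max_right _ _) h2 (by norm_num)
        _ = L⁻¹ := by
            rw [← Real.rpow_mul hL0.le, ← Real.rpow_neg_one]
            norm_num
    have h4 : 0 ≤ max (1 - s.re) 0 ^ (3 / 2 : ℝ) := Real.rpow_nonneg (le_max_right _ _) _
    calc Real.log |s.im| * (B * max (1 - s.re) 0 ^ (3 / 2 : ℝ)) ≤ (2 * L) * (B * L⁻¹) := by gcongr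
      _ = 2 * B := by field_simp
  have h5 : Real.log |s.im| ^ (2 / 3 : ℝ) ≤ 2 * L ^ (2 / 3 : ℝ) := by
    calc Real.log |s.im| ^ (2 / 3 : ℝ) ≤ (2 * L) ^ (2 / 3 : ℝ) :=
          Real.rpow_le_rpow hl0 hlog (by norm_num)
      _ = 2 ^ (2 / 3 : ℝ) * L ^ (2 / 3 : ℝ) := Real.mul_rpow (by norm_num) hL0.le
      _ ≤ 2 * L ^ (2 / 3 : ℝ) := by
          have : (2 : ℝ) ^ (2 / 3 : ℝ) ≤ 2 ^ (1 : ℝ) :=
            Real.rpow_le_rpow_of_exponent_le (by norm_num) (by norm_num)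
          rw [Real.rpow_one] at this
          gcongr
  have h6 : 0 ≤ Real.log |s.im| ^ (2 / 3 : ℝ) := Real.rpow_nonneg hl0 _
  calc C * |s.im| ^ (B * max (1 - s.re) 0 ^ (3 / 2 : ℝ)) * Real.log |s.im| ^ (2 / 3 : ℝ)
      ≤ C * Real.exp (2 * B) * (2 * L ^ (2 / 3 : ℝ)) := by gcongr
    _ = 2 * (C * Real.exp (2 * B)) * L ^ (2 / 3 : ℝ) := by ring

end Pool.Agent.H48.RZ
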