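import Mathlib
import Pool.Agent.H48.RZ.EPb
import Pool.Agent.H48.RZ.RBz

/-!
# FBu: the bound for `fz` on the unit disc

PROOF.  `s = 1 + z/Y + iu`: `Re s ≥ 1 - 1/Y = 1 - L^(-2/3)`, `Y ≥ 3^(2/3) ≥ 2`, so `Re s ≥ 1/2`; `|Im s - u| ≤ 1/Y ≤ 1`, so
`2 ≤ |Im s| ≤ |u| + 1 ≤ |u|^2`, `log |Im s| ≤ 2 log |u| ≤ 2L`: `rb` gives `‖ζ(s)‖ ≤ C Y`.  `‖fz‖ = ‖ζ(s)‖ exp (-Re EP)`
(`Complex.norm_exp`), `-Re EP ≤ -PS u 0 Y + C` (`epb`), `Y = exp (log Y) ≤ exp (PS 0 0 Y + C)` (`mer` (2)); `MD` is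
`PS 0 0 Y - PS u 0 Y`.  Differentiability: `s ≠ 1` as `Im s ≠ 0`, `differentiableAt_riemannZeta`, `ep_diff`.  About 80 lines.
-/

set_option autoImplicit false

open Complex

namespace Pool.Agent.H48.RZ

theorem fbu : ∃ C : ℝ, 1 ≤ C ∧ ∀ L Y u : ℝ, 3 ≤ L → Y = L ^ (2 / 3 : ℝ) → 3 ≤ |u| → Real.log |u| ≤ L →
    ∀ z : ℂ, ‖z‖ ≤ 1 → DifferentiableAt ℂ (fz u Y) z ∧ ‖fz u Y z‖ ≤ C * Real.exp (MD u Y) := by
  obtain ⟨C1, hC1, hrb⟩ := rb
  obtain ⟨C2, hC2, hep⟩ := epb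
  obtain ⟨C3, hC3, -, hmer, -⟩ := mer
  refine ⟨C1 * Real.exp (C2 + C3), ?_, ?_⟩
  · have h1 : 1 ≤ Real.exp (C2 + C3) := Real.one_le_exp (by linarith)
    nlinarith
  intro L Y u hL hY hu hlog z hz
  have hL0 : 0 < L := by linarith
  have h3 : (2 : ℝ) ≤ (3 : ℝ) ^ (2 / 3 : ℝ) := by
    have e1 : (2 : ℝ) = (8 : ℝ) ^ (1 / 3 : ℝ) := by
      rw [show (8 : ℝ) = 2 ^ (3 : ℝ) by norm_num, ← Real.rpow_mul (by norm_num)]
      norm_num
    have e2 : (3 : ℝ) ^ (2 / 3 : ℝ) = (9 : ℝ) ^ (1 / 3 : ℝ) := by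
      rw [show (9 : ℝ) = 3 ^ (2 : ℝ) by norm_num, ← Real.rpow_mul (by norm_num)]
      norm_num
    rw [e2, e1]
    exact Real.rpow_le_rpow (by norm_num) (by norm_num) (by norm_num)
  have hY2 : 2 ≤ Y := by
    rw [hY]
    exact h3.trans (Real.rpow_le_rpow (by norm_num) hL (by norm_num))
  have hY0 : 0 < Y := by linarith
  have hYi : L ^ (-(2 / 3) : ℝ) = 1 / Y := by
    rw [hY, Real.rpow_neg hL0.le, one_div]
  have hzY : ‖z / (Y : ℂ)‖ ≤ 1 / Y := by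
    rw [norm_div, Complex.norm_real, Real.norm_eq_abs, abs_of_pos hY0]
    exact div_le_div_of_nonneg_right hz hY0.le
  have hY12 : 1 / Y ≤ 1 / 2 := one_div_le_one_div_of_le (by norm_num) hY2
  set s : ℂ := 1 + z / Y + u * I with hs
  have hre : s.re = 1 + (z / (Y : ℂ)).re := by
    simp [hs]
  have him : s.im = (z / (Y : ℂ)).im + u := by
    simp [hs]
  have hre1 : |(z / (Y : ℂ)).re| ≤ 1 / Y := (Complex.abs_re_le_norm _).trans hzY
  have him1 : |(z / (Y : ℂ)).im| ≤ 1 / Y := (Complex.abs_im_le_norm _).trans hzY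
  have hre2 := abs_le.1 hre1
  have hs1 : 1 / 2 ≤ s.re := by rw [hre]; linarith [hre2.1]
  have hs2 : 1 - L ^ (-(2 / 3) : ℝ) ≤ s.re := by rw [hYi, hre]; linarith [hre2.1]
  have hs3 : 2 ≤ |s.im| := by
    rw [him]
    have h4 : |u| ≤ |(z / (Y : ℂ)).im + u| + |(z / (Y : ℂ)).im| := by
      have h5 := abs_sub ((z / (Y : ℂ)).im + u) ((z / (Y : ℂ)).im)
      rwa [show (z / (Y : ℂ)).im + u - (z / (Y : ℂ)).im = u by ring] at h5
    linarith
  have hs4 : |s.im| ≤ |u| + 1 := by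
    rw [him]
    have h4 := abs_add_le ((z / (Y : ℂ)).im) u
    linarith
  have hs5 : Real.log |s.im| ≤ 2 * L := by
    have h4 : |s.im| ≤ |u| ^ 2 := by nlinarith
    have h5 : Real.log |s.im| ≤ Real.log (|u| ^ 2) := Real.log_le_log (by linarith) h4
    rw [Real.log_pow] at h5
    push_cast at h5
    linarith
  have hz1 := hrb L s (by linarith) hs1 hs2 hs3 hs5
  rw [← hY] at hz1
  have hne : s ≠ 1 := by
    intro h
    rw [h] at hs3
    simp at hs3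
    linarith
  constructor
  · have hd1 : DifferentiableAt ℂ (fun z : ℂ => 1 + z / (Y : ℂ) + u * I) z := by fun_prop
    have hd2 : DifferentiableAt ℂ (fun z : ℂ => riemannZeta (1 + z / (Y : ℂ) + u * I)) z := by
      have h4 : DifferentiableAt ℂ riemannZeta (1 + z / (Y : ℂ) + u * I) :=
        differentiableAt_riemannZeta hne
      exact DifferentiableAt.comp z h4 hd1
    have hd3 : DifferentiableAt ℂ (fun z : ℂ => cexp (-(EP Y (1 + z / Y + u * I)))) z :=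
      ((ep_diff Y u) z).neg.cexp
    exact hd2.mul hd3
  · have h4 : ‖fz u Y z‖ = ‖riemannZeta s‖ * Real.exp (-(EP Y s).re) := by
      unfold fz
      rw [norm_mul, Complex.norm_exp, Complex.neg_re]
    rw [h4]
    have h5 := abs_le.1 (hep Y u z (by linarith) hz)
    rw [← hs] at h5
    have h6 := abs_le.1 (hmer Y (by linarith))
    have h7 : Y ≤ Real.exp (PS 0 0 Y + C3) := by
      calc Y = Real.exp (Real.log Y) := (Real.exp_log hY0).symm
        _ ≤ _ := Real.exp_le_exp.2 (by linarith [h6.1])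
    have h8 : Real.exp (-(EP Y s).re) ≤ Real.exp (-PS u 0 Y + C2) :=
      Real.exp_le_exp.2 (by linarith [h5.1])
    calc ‖riemannZeta s‖ * Real.exp (-(EP Y s).re)
        ≤ (C1 * Real.exp (PS 0 0 Y + C3)) * Real.exp (-PS u 0 Y + C2) := by
          refine mul_le_mul (hz1.trans ?_) h8 (Real.exp_pos _).le (by positivity)
          exact mul_le_mul_of_nonneg_left h7 (by linarith)
      _ = C1 * Real.exp (C2 + C3) * Real.exp (MD u Y) := by
          unfold MD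
          rw [mul_assoc, mul_assoc, ← Real.exp_add, ← Real.exp_add]
          congr 2
          ring

end Pool.Agent.H48.RZ
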