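import Mathlib

/-!
# LZa: the logarithm of zeta and the prime sum

PROOF.  For `Re s > 1`: `riemannZeta_eulerProduct_exp_log` (Mathlib): `cexp (∑' p : Nat.Primes, -log (1 - p^(-s))) = ζ(s)`;
so `log ‖ζ(s)‖ = Re ∑' p, -log (1 - p^(-s))` (`Complex.norm_exp`, `Real.log_exp`).  With `w = p^(-s)`, `‖w‖ = p^(-Re s) ≤
1/p ≤ 1/2`: `‖-log (1 - w) - w‖ ≤ ‖w‖^2` (Mathlib: `Complex.norm_log_one_add_sub_self_le`, or
`norm_log_one_sub...`: `≤ ‖w‖^2 (1 - ‖w‖)⁻¹/2 ≤ ‖w‖²`), `∑' p, 1/p² ≤ C` (`Nat.Primes.summable_rpow` or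
`Real.summable_one_div_nat_pow`).  Summability of `‖p^(-s)‖` over the primes: `Nat.Primes.summable_rpow`.  About 80 lines.
-/

set_option autoImplicit false

open Complex

namespace Pool.Agent.H48.RZ

theorem lza : ∃ C : ℝ, 0 < C ∧ ∀ s : ℂ, 1 < s.re →
    |Real.log ‖riemannZeta s‖ - (∑' p : Nat.Primes, ((p : ℕ) : ℂ) ^ (-s)).re| ≤ C := by
  have hS2 : Summable (fun p : Nat.Primes ↦ (p : ℝ) ^ (-2 : ℝ)) :=
    Nat.Primes.summable_rpow.mpr (by norm_num)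
  have hS2n : 0 ≤ ∑' p : Nat.Primes, (p : ℝ) ^ (-2 : ℝ) := tsum_nonneg fun p => by positivity
  refine ⟨(∑' p : Nat.Primes, (p : ℝ) ^ (-2 : ℝ)) + 1, by linarith, fun s hs => ?_⟩
  have hp1 : ∀ p : Nat.Primes, (2 : ℝ) ≤ (p : ℝ) := fun p => by exact_mod_cast p.2.two_le
  have hn : ∀ p : Nat.Primes, ‖((p : ℕ) : ℂ) ^ (-s)‖ = (p : ℝ) ^ (-s.re) := fun p => by
    rw [Complex.norm_natCast_cpow_of_pos p.2.pos, neg_re]
  have hle1 : ∀ p : Nat.Primes, ‖((p : ℕ) : ℂ) ^ (-s)‖ ≤ (p : ℝ) ^ (-1 : ℝ) := fun p => by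
    rw [hn]
    exact Real.rpow_le_rpow_of_exponent_le (by linarith [hp1 p]) (by linarith)
  have hhalf : ∀ p : Nat.Primes, ‖((p : ℕ) : ℂ) ^ (-s)‖ ≤ 1 / 2 := fun p => by
    refine (hle1 p).trans ?_
    rw [Real.rpow_neg_one, ← one_div]
    exact one_div_le_one_div_of_le (by norm_num) (hp1 p)
  have hsq : ∀ p : Nat.Primes, ‖((p : ℕ) : ℂ) ^ (-s)‖ ^ 2 ≤ (p : ℝ) ^ (-2 : ℝ) := fun p => by
    have h := pow_le_pow_left₀ (norm_nonneg _) (hle1 p) 2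
    refine h.trans (le_of_eq ?_)
    rw [← Real.rpow_natCast, ← Real.rpow_mul (Nat.cast_nonneg _)]
    norm_num
  have hw : Summable fun p : Nat.Primes => ((p : ℕ) : ℂ) ^ (-s) := by
    refine Summable.of_norm ?_
    simp_rw [hn]
    exact Nat.Primes.summable_rpow.mpr (by linarith)
  have hd : ∀ p : Nat.Primes,
      ‖-Complex.log (1 - ((p : ℕ) : ℂ) ^ (-s)) - ((p : ℕ) : ℂ) ^ (-s)‖ ≤ (p : ℝ) ^ (-2 : ℝ) := by
    intro p
    have h1 : ‖-(((p : ℕ) : ℂ) ^ (-s))‖ < 1 := by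
      rw [norm_neg]
      linarith [hhalf p]
    have h2 := Complex.norm_log_one_add_sub_self_le h1
    rw [norm_neg, ← sub_eq_add_neg] at h2
    have e : -Complex.log (1 - ((p : ℕ) : ℂ) ^ (-s)) - ((p : ℕ) : ℂ) ^ (-s) =
        -(Complex.log (1 - ((p : ℕ) : ℂ) ^ (-s)) - -(((p : ℕ) : ℂ) ^ (-s))) := by ring
    rw [e, norm_neg]
    refine h2.trans (le_trans ?_ (hsq p))
    have h3 : (1 - ‖((p : ℕ) : ℂ) ^ (-s)‖)⁻¹ ≤ 2 := by
      rw [inv_le_comm₀ (by linarith [hhalf p]) (by norm_num)]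
      linarith [hhalf p]
    nlinarith [sq_nonneg ‖((p : ℕ) : ℂ) ^ (-s)‖]
  have hds : Summable fun p : Nat.Primes =>
      ‖-Complex.log (1 - ((p : ℕ) : ℂ) ^ (-s)) - ((p : ℕ) : ℂ) ^ (-s)‖ :=
    Summable.of_nonneg_of_le (fun p => norm_nonneg _) hd hS2
  have hl : Summable fun p : Nat.Primes => -Complex.log (1 - ((p : ℕ) : ℂ) ^ (-s)) := by
    have h := (Summable.of_norm hds).add hw
    refine h.congr fun p => ?_
    ring
  have hz : Real.log ‖riemannZeta s‖ =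
      (∑' p : Nat.Primes, -Complex.log (1 - ((p : ℕ) : ℂ) ^ (-s))).re := by
    rw [← riemannZeta_eulerProduct_exp_log hs, Complex.norm_exp, Real.log_exp]
  rw [hz, ← sub_re, ← hl.tsum_sub hw]
  refine (Complex.abs_re_le_norm _).trans ((norm_tsum_le_tsum_norm hds).trans ?_)
  have := hds.tsum_le_tsum hd hS2
  linarith

end Pool.Agent.H48.RZ
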