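import Mathlib
import Pool.Agent.H48.RZ.Mer
import Pool.Agent.H48.RZ.EPb

/-!
# LZb: the prime sum at `1 + 1/X + iu` and its cut-off at `e^X`

PROOF.  Split `∑' p` in the primes of `Pr 0 X` and the rest (`Summable.sum_add_tsum_subtype_compl`, or write both as
`∑'` over `ℕ` of indicators: `tsum_subtype`).  On `Pr 0 X`: `‖p^(-1-1/X-iu) - p^(-1-iu)‖ ≤ (log p)/(X p)`
(`1 - e^(-x) ≤ x`), sum `≤ C` by `mer` (3).  The rest: `∑_{p > e^X} p^(-1-1/X) ≤ ∑_{k ≥ 1} e^(-k) PS 0 (kX) ((k+1)X) ≤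
∑_k e^(-k) (log 2 + C)` by `mer` (1) (`p^(-1/X) ≤ e^(-k)` for `p > e^(kX)`); in finite form: every finite sum over primes
`p > e^X`, `p ≤ e^(KX)`, is at most `∑_{k=1}^{K-1} e^(-k) (1 + C)`; then `tsum_le_of_sum_le` / `Real.tsum_le_of_sum_le`.
About 130 lines.
-/

set_option autoImplicit false

open Complex

namespace Pool.Agent.H48.RZ

/-- the term of a prime beyond `e^(kX)` -/
theorem lzb_term {X k : ℝ} (hX : 0 < X) {p : ℕ} (hp : Real.exp (k * X) < p) :
    (p : ℝ) ^ (-(1 + 1 / X)) ≤ Real.exp (-k) * (1 / (p : ℝ)) := by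
  have hp0 : 0 < (p : ℝ) := (Real.exp_pos _).trans hp
  have hl : k * X < Real.log p := by
    rw [Real.lt_log_iff_exp_lt hp0]
    exact hp
  rw [Real.rpow_def_of_pos hp0]
  have e : Real.exp (-k) * (1 / (p : ℝ)) = Real.exp (-k - Real.log p) := by
    rw [Real.exp_sub, Real.exp_log hp0]
    ring
  rw [e]
  refine Real.exp_le_exp.2 ?_
  have h2 : k ≤ Real.log p / X := by
    rw [le_div_iff₀ hX]
    exact hl.le
  have h3 : Real.log p * -(1 + 1 / X) = -(Real.log p / X) - Real.log p := by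
    ring
  rw [h3]
  linarith

/-- finite form of the tail -/
theorem lzb_tail {C X : ℝ} (hC : 0 < C)
    (h1 : ∀ a b : ℝ, 1 ≤ a → a ≤ b → |PS 0 a b - Real.log (b / a)| ≤ C) (hX : 1 ≤ X) (K : ℕ) :
    ∑ p ∈ Pr X (((K : ℝ) + 1) * X), (p : ℝ) ^ (-(1 + 1 / X)) ≤
      (1 + C) * (2 - 2 * Real.exp (-((K : ℝ) + 1))) := by
  have hX0 : 0 < X := by linarith
  induction K with
  | zero =>
    have h0 : Pr X ((((0 : ℕ) : ℝ) + 1) * X) = ∅ := by
      unfold Pr
      simp
    rw [h0, Finset.sum_empty]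
    have h2 : Real.exp (-(((0 : ℕ) : ℝ) + 1)) ≤ 1 := Real.exp_le_one_iff.2 (by norm_num)
    exact mul_nonneg (by linarith) (by linarith)
  | succ K ih =>
    set k : ℝ := (K : ℝ) + 1 with hk
    have hk1 : 1 ≤ k := by
      have : (0 : ℝ) ≤ K := Nat.cast_nonneg K
      linarith
    have e1 : (((K + 1 : ℕ) : ℝ) + 1) = k + 1 := by
      rw [hk]
      push_cast
      ring
    rw [e1]
    have hkX : X ≤ k * X := le_mul_of_one_le_left hX0.le hk1
    have hkX' : k * X ≤ (k + 1) * X := by nlinarith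
    have hsplit : Pr X ((k + 1) * X) = Pr X (k * X) ∪ Pr (k * X) ((k + 1) * X) := by
      ext p
      rw [Finset.mem_union, mem_Pr, mem_Pr, mem_Pr]
      constructor
      · rintro ⟨hp, ha, hb⟩
        by_cases hc : (p : ℝ) ≤ Real.exp (k * X)
        · exact Or.inl ⟨hp, ha, hc⟩
        · exact Or.inr ⟨hp, not_le.1 hc, hb⟩
      · rintro (⟨hp, ha, hb⟩ | ⟨hp, ha, hb⟩)
        · exact ⟨hp, ha, hb.trans (Real.exp_le_exp.2 hkX')⟩
        · exact ⟨hp, (Real.exp_le_exp.2 hkX).trans_lt ha, hb⟩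
    have hdis : Disjoint (Pr X (k * X)) (Pr (k * X) ((k + 1) * X)) := by
      rw [Finset.disjoint_left]
      intro p hp hq
      exact absurd (mem_Pr.1 hp).2.2 (not_le.2 (mem_Pr.1 hq).2.1)
    rw [hsplit, Finset.sum_union hdis]
    have h2 : ∑ p ∈ Pr (k * X) ((k + 1) * X), (p : ℝ) ^ (-(1 + 1 / X)) ≤ Real.exp (-k) * (1 + C) := by
      have h3 : ∑ p ∈ Pr (k * X) ((k + 1) * X), (p : ℝ) ^ (-(1 + 1 / X)) ≤
          ∑ p ∈ Pr (k * X) ((k + 1) * X), Real.exp (-k) * (1 / (p : ℝ)) :=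
        Finset.sum_le_sum fun p hp => lzb_term hX0 (mem_Pr.1 hp).2.1
      rw [← Finset.mul_sum, ← PS_zero] at h3
      refine h3.trans (mul_le_mul_of_nonneg_left ?_ (Real.exp_pos _).le)
      have h4 := h1 (k * X) ((k + 1) * X) (by nlinarith) hkX'
      have h5 : (k + 1) * X / (k * X) ≤ 2 := by
        rw [div_le_iff₀ (by nlinarith)]
        nlinarith
      have h6 : Real.log ((k + 1) * X / (k * X)) ≤ (k + 1) * X / (k * X) - 1 :=
        Real.log_le_sub_one_of_pos (div_pos (by nlinarith) (by nlinarith))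
      have h7 := (abs_le.1 h4).2
      linarith
    have h8 : Real.exp (-(k + 1)) ≤ Real.exp (-k) / 2 := by
      have h9 : Real.exp (-(k + 1)) = Real.exp (-k) * Real.exp (-1) := by
        rw [← Real.exp_add]
        congr 1
        ring
      rw [h9, div_eq_mul_inv]
      refine mul_le_mul_of_nonneg_left ?_ (Real.exp_pos _).le
      rw [Real.exp_neg]
      refine inv_anti₀ (by norm_num) ?_
      have := Real.add_one_le_exp (1 : ℝ)
      linarith
    have h10 : 0 ≤ (1 + C) * (Real.exp (-k) / 2 - Real.exp (-(k + 1))) :=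
      mul_nonneg (by linarith) (by linarith)
    nlinarith [ih, h2, h10]

theorem lzb : ∃ C : ℝ, 0 < C ∧ ∀ X u : ℝ, 1 ≤ X →
    |(∑' p : Nat.Primes, ((p : ℕ) : ℂ) ^ (-(1 + 1 / X + u * I : ℂ))).re - PS u 0 X| ≤ C := by
  obtain ⟨C, hC, m1, -, m3⟩ := mer
  refine ⟨2 * C + 2 * (1 + C), by linarith, fun X u hX => ?_⟩
  have hX0 : 0 < X := by linarith
  set s : ℂ := 1 + 1 / X + u * I with hs
  have hre : s.re = 1 + 1 / X := by
    have e : s = ((1 + 1 / X : ℝ) : ℂ) + u * I := by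
      rw [hs]
      push_cast
      ring
    rw [e]
    simp
  have hn : ∀ p : Nat.Primes, ‖((p : ℕ) : ℂ) ^ (-s)‖ = ((p : ℕ) : ℝ) ^ (-(1 + 1 / X)) := fun p => by
    rw [Complex.norm_natCast_cpow_of_pos p.2.pos, neg_re, hre]
  have hw : Summable fun p : Nat.Primes => ((p : ℕ) : ℂ) ^ (-s) := by
    refine Summable.of_norm ?_
    simp_rw [hn]
    refine Nat.Primes.summable_rpow.mpr ?_
    have : 0 < 1 / X := by positivity
    linarith
  have hwre : Summable fun p : Nat.Primes => (((p : ℕ) : ℂ) ^ (-s)).re := (Complex.hasSum_re hw.hasSum).summable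
  set H : Nat.Primes → ℝ := fun p =>
    if (p : ℕ) ∈ Pr 0 X then Real.cos (u * Real.log (p : ℕ)) / (p : ℕ) else 0 with hH
  set G : Nat.Primes → ℝ := fun p =>
    if (p : ℕ) ∈ Pr 0 X then 2 / X * (Real.log (p : ℕ) / (p : ℕ)) else ((p : ℕ) : ℝ) ^ (-(1 + 1 / X)) with hG
  have hHs : HasSum H (PS u 0 X) := by
    have h0 : ∑ p ∈ (Pr 0 X).subtype Nat.Prime, H p = PS u 0 X := by
      have h1 : ∀ p ∈ (Pr 0 X).subtype Nat.Prime, H p =
          (fun n : ℕ => Real.cos (u * Real.log n) / n) ((p : {n : ℕ // n.Prime}) : ℕ) := by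
        intro p hp
        have hp' : (p : ℕ) ∈ Pr 0 X := (Finset.mem_subtype.1 hp)
        simp only [hH]
        rw [if_pos hp']
      rw [Finset.sum_congr rfl h1]
      unfold PS
      exact Finset.sum_subtype_of_mem (fun n : ℕ => Real.cos (u * Real.log n) / n)
        (fun x hx => (mem_Pr.1 hx).1)
    rw [← h0]
    refine hasSum_sum_of_ne_finset_zero fun p hp => ?_
    have hp' : (p : ℕ) ∉ Pr 0 X := fun h => hp (Finset.mem_subtype.2 h)
    simp only [hH]
    rw [if_neg hp']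
  have hG0 : ∀ p, 0 ≤ G p := by
    intro p
    simp only [hG]
    split_ifs with h
    · have := (mem_Pr.1 h).1.one_lt.le
      have h1 : (1 : ℝ) ≤ ((p : ℕ) : ℝ) := by exact_mod_cast this
      have h2 := Real.log_nonneg h1
      positivity
    · positivity
  have hGb : ∀ T : Finset Nat.Primes, ∑ p ∈ T, G p ≤ 2 * C + 2 * (1 + C) := by
    intro T
    obtain ⟨K, hK⟩ : ∃ K : ℕ, ∀ p ∈ T, ((p : ℕ) : ℝ) ≤ Real.exp (((K : ℝ) + 1) * X) := by
      obtain ⟨B, hB⟩ : ∃ B : ℕ, ∀ p ∈ T, (p : ℕ) ≤ B :=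
        ⟨T.sup fun p => (p : ℕ), fun p hp => Finset.le_sup (f := fun p : Nat.Primes => (p : ℕ)) hp⟩
      refine ⟨B, fun p hp => ?_⟩
      have h1 : ((p : ℕ) : ℝ) ≤ B := by exact_mod_cast hB p hp
      have h2 : (B : ℝ) + 1 ≤ ((B : ℝ) + 1) * X := le_mul_of_one_le_right (by positivity) hX
      have h3 := Real.add_one_le_exp (((B : ℝ) + 1) * X)
      linarith
    set T' : Finset ℕ := T.map ⟨fun p : Nat.Primes => (p : ℕ), fun a b h => Subtype.ext h⟩ with hT'
    have hle : ∑ p ∈ T, G p ≤ ∑ p ∈ Pr 0 X, 2 / X * (Real.log p / p) +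
        ∑ p ∈ Pr X (((K : ℝ) + 1) * X), (p : ℝ) ^ (-(1 + 1 / X)) := by
      rw [← Finset.sum_filter_add_sum_filter_not T (fun q : Nat.Primes => (q : ℕ) ∈ Pr 0 X)]
      refine add_le_add ?_ ?_
      · have h1 : ∑ p ∈ T.filter (fun q : Nat.Primes => (q : ℕ) ∈ Pr 0 X), G p =
            ∑ p ∈ (T.filter fun q : Nat.Primes => (q : ℕ) ∈ Pr 0 X).map
              ⟨fun p : Nat.Primes => (p : ℕ), fun a b h => Subtype.ext h⟩, 2 / X * (Real.log p / p) := by
          rw [Finset.sum_map]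
          refine Finset.sum_congr rfl fun p hp => ?_
          simp only [hG]
          rw [if_pos (Finset.mem_filter.1 hp).2]
          rfl
        rw [h1]
        refine Finset.sum_le_sum_of_subset_of_nonneg ?_ ?_
        · intro p hp
          obtain ⟨q, hq, rfl⟩ := Finset.mem_map.1 hp
          exact (Finset.mem_filter.1 hq).2
        · intro p hp _
          have := (mem_Pr.1 hp).1.one_lt.le
          have h1 : (1 : ℝ) ≤ (p : ℝ) := by exact_mod_cast this
          have h2 := Real.log_nonneg h1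
          positivity
      · have h1 : ∑ p ∈ T.filter (fun q : Nat.Primes => ¬ (q : ℕ) ∈ Pr 0 X), G p =
            ∑ p ∈ (T.filter fun q : Nat.Primes => ¬ (q : ℕ) ∈ Pr 0 X).map
              ⟨fun p : Nat.Primes => (p : ℕ), fun a b h => Subtype.ext h⟩, (p : ℝ) ^ (-(1 + 1 / X)) := by
          rw [Finset.sum_map]
          refine Finset.sum_congr rfl fun p hp => ?_
          simp only [hG]
          rw [if_neg (Finset.mem_filter.1 hp).2]
          rfl
        rw [h1]
        refine Finset.sum_le_sum_of_subset_of_nonneg ?_ ?_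
        · intro p hp
          obtain ⟨q, hq, rfl⟩ := Finset.mem_map.1 hp
          have hq' := (Finset.mem_filter.1 hq)
          have hqK := hK q hq'.1
          have hq1 : (1 : ℝ) < ((q : ℕ) : ℝ) := by exact_mod_cast q.2.one_lt
          refine mem_Pr.2 ⟨q.2, ?_, hqK⟩
          by_contra hc
          exact hq'.2 (mem_Pr.2 ⟨q.2, by rw [Real.exp_zero]; exact hq1, not_lt.1 hc⟩)
        · intro p _ _
          positivity
    have h2 : ∑ p ∈ Pr 0 X, 2 / X * (Real.log p / p) ≤ 2 * C := by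
      rw [← Finset.mul_sum]
      have h3 := m3 X hX
      have h4 : 2 / X * ∑ p ∈ Pr 0 X, Real.log p / p ≤ 2 / X * (C * X) :=
        mul_le_mul_of_nonneg_left h3 (by positivity)
      have h5 : 2 / X * (C * X) = 2 * C := by field_simp
      linarith
    have h6 := lzb_tail hC m1 hX K
    have h7 : (1 + C) * (2 - 2 * Real.exp (-((K : ℝ) + 1))) ≤ (1 + C) * 2 := by
      refine mul_le_mul_of_nonneg_left ?_ (by linarith)
      have := Real.exp_pos (-((K : ℝ) + 1))
      linarith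
    linarith
  have hGs : Summable G := summable_of_sum_le hG0 hGb
  have hGt : ∑' p, G p ≤ 2 * C + 2 * (1 + C) := hGs.tsum_le_of_sum_le hGb
  have hFG : ∀ p : Nat.Primes, ‖(((p : ℕ) : ℂ) ^ (-s)).re - H p‖ ≤ G p := by
    intro p
    simp only [hH, hG]
    rw [Real.norm_eq_abs]
    by_cases h : (p : ℕ) ∈ Pr 0 X
    · rw [if_pos h, if_pos h]
      exact epb_one (z := 1) hX (by simp) h
    · rw [if_neg h, if_neg h, sub_zero]
      exact (Complex.abs_re_le_norm _).trans (hn p).le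
  have hmain : (∑' p : Nat.Primes, ((p : ℕ) : ℂ) ^ (-s)).re - PS u 0 X =
      ∑' p : Nat.Primes, ((((p : ℕ) : ℂ) ^ (-s)).re - H p) := by
    rw [Complex.re_tsum hw, ← hHs.tsum_eq]
    exact (hwre.tsum_sub hHs.summable).symm
  rw [hmain, ← Real.norm_eq_abs]
  exact (tsum_of_norm_bounded hGs.hasSum hFG).trans hGt

end Pool.Agent.H48.RZ
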