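import Mathlib
import Pool.Agent.H48.RZ.LZa
import Pool.Agent.H48.RZ.LZb

/-!
# LZ: `log |ζ(1 + 1/X + iu)|` and the primes up to `e^X`
-/

set_option autoImplicit false

open Complex

namespace Pool.Agent.H48.RZ

theorem lz : ∃ C : ℝ, 0 < C ∧ ∀ X u : ℝ, 1 ≤ X →
    |Real.log ‖riemannZeta (1 + 1 / X + u * I)‖ - PS u 0 X| ≤ C := by
  obtain ⟨C1, hC1, h1⟩ := lza
  obtain ⟨C2, hC2, h2⟩ := lzb
  refine ⟨C1 + C2, by linarith, fun X u hX => ?_⟩
  have hX0 : 0 < X := by linarith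
  have hre : (1 + 1 / X + u * I : ℂ).re = 1 + 1 / X := by
    have e : (1 + 1 / X + u * I : ℂ) = ((1 + 1 / X : ℝ) : ℂ) + u * I := by push_cast; ring
    rw [e]
    simp
  have h3 := h1 (1 + 1 / X + u * I) (by
    rw [hre]
    have : 0 < 1 / X := by positivity
    linarith)
  have h4 := h2 X u hX
  have h5 := abs_add_le (Real.log ‖riemannZeta (1 + 1 / X + u * I)‖ -
    (∑' p : Nat.Primes, ((p : ℕ) : ℂ) ^ (-(1 + 1 / X + u * I : ℂ))).re)
    ((∑' p : Nat.Primes, ((p : ℕ) : ℂ) ^ (-(1 + 1 / X + u * I : ℂ))).re - PS u 0 X)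
  rw [sub_add_sub_cancel] at h5
  linarith

end Pool.Agent.H48.RZ
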