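import Mathlib
import Pool.Agent.H48.RZ.EPb
import Pool.Agent.H48.RZ.LZ

/-!
# FBx: `fz` on the segment `(0, 1]`

PROOF.  `X = Y/x ≥ 1`, `1 + x/Y + iu = 1 + 1/X + iu` (casts), `ζ ≠ 0` there.  `log ‖fz‖ = log ‖ζ‖ - Re EP` (`Complex.norm_exp`,
`Real.log_mul`, `Real.log_exp`); `lz`: `log ‖ζ‖ = PS u 0 X + O(1)`; `epb` with `z = x`: `Re EP = PS u 0 Y + O(1)`;
`PS_add` (`0 ≤ Y ≤ X`).  Then `‖fz‖ = exp (log ‖fz‖) ≤ exp (PS 0 Y X + C) ≤ exp (log (X/Y) + 2C) = e^(2C)/x`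
(`abs_PS_le`, `mer` (1), `X/Y = 1/x`).  About 70 lines.
-/

set_option autoImplicit false

open Complex

namespace Pool.Agent.H48.RZ

theorem fbx : ∃ C : ℝ, 1 ≤ C ∧ ∀ Y u x : ℝ, 1 ≤ Y → 0 < x → x ≤ 1 →
    0 < ‖fz u Y x‖ ∧ |Real.log ‖fz u Y x‖ - PS u Y (Y / x)| ≤ C ∧ ‖fz u Y x‖ ≤ C / x := by
  obtain ⟨C1, hC1, h1⟩ := lz
  obtain ⟨C2, hC2, h2⟩ := epb
  obtain ⟨C3, hC3, h3, -, -⟩ := mer
  have hexp : C1 + C2 + C3 + 1 ≤ Real.exp (C1 + C2 + C3) := Real.add_one_le_exp _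
  refine ⟨Real.exp (C1 + C2 + C3), by linarith, ?_⟩
  intro Y u x hY hx0 hx1
  have hY0 : 0 < Y := by linarith
  have hXY : Y ≤ Y / x := by
    rw [le_div_iff₀ hx0]
    nlinarith
  have hX1 : 1 ≤ Y / x := hY.trans hXY
  have hX0 : 0 < Y / x := by linarith
  have hs : (1 + 1 / ((Y / x : ℝ) : ℂ) + u * I) = (1 + (x : ℂ) / Y + u * I) := by
    have hYc : (Y : ℂ) ≠ 0 := by exact_mod_cast hY0.ne'
    have hxc : (x : ℂ) ≠ 0 := by exact_mod_cast hx0.ne'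
    push_cast
    field_simp
  have hre : (1 + (x : ℂ) / Y + u * I).re = 1 + x / Y := by
    have e : (1 + (x : ℂ) / Y + u * I) = ((1 + x / Y : ℝ) : ℂ) + u * I := by push_cast; ring
    rw [e]
    simp
  have hxY : 0 < x / Y := by positivity
  have hz : riemannZeta (1 + (x : ℂ) / Y + u * I) ≠ 0 :=
    riemannZeta_ne_zero_of_one_lt_re (by rw [hre]; linarith)
  have hzn : 0 < ‖riemannZeta (1 + (x : ℂ) / Y + u * I)‖ := norm_pos_iff.2 hz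
  have hfz : ‖fz u Y x‖ = ‖riemannZeta (1 + (x : ℂ) / Y + u * I)‖ *
      Real.exp (-(EP Y (1 + (x : ℂ) / Y + u * I)).re) := by
    unfold fz
    rw [norm_mul, Complex.norm_exp, Complex.neg_re]
  have hpos : 0 < ‖fz u Y x‖ := by
    rw [hfz]
    positivity
  have hlog : Real.log ‖fz u Y x‖ = Real.log ‖riemannZeta (1 + (x : ℂ) / Y + u * I)‖ -
      (EP Y (1 + (x : ℂ) / Y + u * I)).re := by
    rw [hfz, Real.log_mul hzn.ne' (Real.exp_pos _).ne', Real.log_exp]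
    ring
  have e1 := h1 (Y / x) u hX1
  rw [hs] at e1
  have e2 := h2 Y u (x : ℂ) hY (by
    rw [Complex.norm_real, Real.norm_eq_abs, abs_of_pos hx0]
    exact hx1)
  have e3 := PS_add u hY0.le hXY
  have e4 : |Real.log ‖fz u Y x‖ - PS u Y (Y / x)| ≤ C1 + C2 := by
    rw [hlog]
    rw [abs_le] at e1 e2 ⊢
    constructor <;> linarith [e1.1, e1.2, e2.1, e2.2]
  refine ⟨hpos, by linarith, ?_⟩
  have e5 := h3 Y (Y / x) hY hXY
  have e6 := abs_PS_le u Y (Y / x)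
  have e7 : Y / x / Y = 1 / x := by
    field_simp
  rw [e7] at e5
  have e8 : Real.log ‖fz u Y x‖ ≤ Real.log (1 / x) + (C1 + C2 + C3) := by
    rw [abs_le] at e4 e5 e6
    linarith [e4.2, e5.2, e6.2]
  calc ‖fz u Y x‖ = Real.exp (Real.log ‖fz u Y x‖) := (Real.exp_log hpos).symm
    _ ≤ Real.exp (Real.log (1 / x) + (C1 + C2 + C3)) := Real.exp_le_exp.2 e8
    _ = Real.exp (C1 + C2 + C3) / x := by
      rw [Real.exp_add, Real.exp_log (by positivity)]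
      ring

end Pool.Agent.H48.RZ
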