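import Mathlib
import Pool.Agent.H48.RZ.Defs

/-!
# Trg: trigonometric inequalities

PROOF.  (1), (2): termwise by `MD_eq`, `DD_eq`.  `1 - cos 2φ = 2 (1 - cos φ)(1 + cos φ) ≤ 4 (1 - cos φ)`.
`1 - cos (2kθ) = 2 sin² (kθ)`, `|sin (kθ)| ≤ k |sin θ|` (induction on `k`, or Mathlib's `abs_sin_mul...`), `sin² θ =
(1 - cos θ)(1 + cos θ) ≤ 2 (1 + cos θ)`: `1 - cos (2kθ) ≤ 4 k² (1 + cos θ)`.  (3): `3 + 4 cos θ + cos 2θ = 2 (1 + cos θ)² ≥ 0`
summed over the primes of `Pr a b`.  About 60 lines.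
-/

set_option autoImplicit false

open Complex

namespace Pool.Agent.H48.RZ

private theorem abs_sin_nat (x : ℝ) (k : ℕ) : |Real.sin (k * x)| ≤ k * |Real.sin x| := by
  induction k with
  | zero => simp
  | succ n ih =>
    have h : ((n + 1 : ℕ) : ℝ) * x = n * x + x := by push_cast; ring
    rw [h, Real.sin_add]
    have h1 : |Real.sin (n * x) * Real.cos x| ≤ |Real.sin (n * x)| := by
      rw [abs_mul]
      exact mul_le_of_le_one_right (abs_nonneg _) (Real.abs_cos_le_one _)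
    have h2 : |Real.cos (n * x) * Real.sin x| ≤ |Real.sin x| := by
      rw [abs_mul]
      exact mul_le_of_le_one_left (abs_nonneg _) (Real.abs_cos_le_one _)
    have h3 := abs_add_le (Real.sin (n * x) * Real.cos x) (Real.cos (n * x) * Real.sin x)
    push_cast
    linarith

private theorem one_sub_cos_two (x : ℝ) : 1 - Real.cos (2 * x) ≤ 4 * (1 - Real.cos x) := by
  have h := Real.cos_two_mul x
  nlinarith [sq_nonneg (1 - Real.cos x)]

private theorem one_sub_cos_mul (x : ℝ) (k : ℕ) :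
    1 - Real.cos (2 * (k * x)) ≤ 4 * (k : ℝ) ^ 2 * (1 + Real.cos x) := by
  have h1 : 1 - Real.cos (2 * (k * x)) = 2 * Real.sin (k * x) ^ 2 := by
    rw [Real.cos_two_mul, Real.sin_sq]; ring
  have h2 : Real.sin (k * x) ^ 2 ≤ (k : ℝ) ^ 2 * Real.sin x ^ 2 := by
    rw [← sq_abs (Real.sin (k * x)), ← sq_abs (Real.sin x), ← mul_pow]
    exact pow_le_pow_left₀ (abs_nonneg _) (abs_sin_nat x k) 2
  have h3 : Real.sin x ^ 2 ≤ 2 * (1 + Real.cos x) := by
    rw [Real.sin_sq]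
    nlinarith [sq_nonneg (1 + Real.cos x)]
  have h4 : (k : ℝ) ^ 2 * Real.sin x ^ 2 ≤ (k : ℝ) ^ 2 * (2 * (1 + Real.cos x)) :=
    mul_le_mul_of_nonneg_left h3 (sq_nonneg _)
  rw [h1]
  linarith

theorem MD_two (u Y : ℝ) : MD (2 * u) Y ≤ 4 * MD u Y := by
  rw [MD_eq, MD_eq, Finset.mul_sum]
  refine Finset.sum_le_sum fun p _ => ?_
  rw [← mul_div_assoc]
  refine div_le_div_of_nonneg_right ?_ (Nat.cast_nonneg p)
  have h := one_sub_cos_two (u * Real.log p)
  rwa [← mul_assoc] at h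

theorem MD_DD (t Y : ℝ) (k : ℕ) : MD (2 * k * t) Y ≤ 4 * (k : ℝ) ^ 2 * DD t Y := by
  rw [MD_eq, DD_eq, Finset.mul_sum]
  refine Finset.sum_le_sum fun p _ => ?_
  rw [← mul_div_assoc]
  refine div_le_div_of_nonneg_right ?_ (Nat.cast_nonneg p)
  have h := one_sub_cos_mul (t * Real.log p) k
  have e : 2 * ((k : ℝ) * (t * Real.log p)) = 2 * k * t * Real.log p := by ring
  rwa [e] at h

theorem PS_341 (u a b : ℝ) : 0 ≤ 3 * PS 0 a b + 4 * PS u a b + PS (2 * u) a b := by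
  rw [PS_zero]
  unfold PS
  rw [Finset.mul_sum, Finset.mul_sum, ← Finset.sum_add_distrib, ← Finset.sum_add_distrib]
  refine Finset.sum_nonneg fun p _ => ?_
  have e : 3 * (1 / (p : ℝ)) + 4 * (Real.cos (u * Real.log p) / p) + Real.cos (2 * u * Real.log p) / p =
      (3 + 4 * Real.cos (u * Real.log p) + Real.cos (2 * u * Real.log p)) / p := by ring
  rw [e]
  refine div_nonneg ?_ (Nat.cast_nonneg p)
  have h := Real.cos_two_mul (u * Real.log p)
  rw [← mul_assoc] at h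
  rw [h]
  nlinarith [sq_nonneg (1 + Real.cos (u * Real.log p))]

end Pool.Agent.H48.RZ
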