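import Mathlib
import Pool.Agent.H76.NS.Slope
import Pool.Agent.H48.RZ.Trg
import Pool.Agent.H48.RZ.FBu
import Pool.Agent.H48.RZ.FBx

/-!
# GB: the primes beyond `e^Y` contribute little

PROOF.  `j = ⌈10/ε⌉₊ ≥ 1`, `M = MD u Y`, `x = Y/X` in `(0, 1]` (so `Y/x = X`); if `X = Y`, `PS u Y Y = 0` (`Pr Y Y = ∅`).  `A` =
the maximum of the constants of `fbu`, `fbx` and of those below.  `slope` = `H76/NS/Slope.lean`.
(i) `slope` (first part) for `f = fz (2u) Y` with `M2 = MD (2u) Y ≤ 4M` (`MD_two`; `log |2u| ≤ log |u| + 1 ≤ L`): `‖f x‖ ≤ C e^(M2/j)`,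
so (`fbx`) `PS (2u) Y X ≤ log ‖f x‖ + C ≤ 4M/j + C`.  (ii) `PS_341` and `mer` (1): `4 PS u Y X ≥ -3 log (X/Y) - 3C - 4M/j - C`, i.e.
`log ‖fz u Y x‖ ≥ -(3/4) log (1/x) - M/j - C`: the hypothesis of the second part of `slope` (with a larger constant `A'`) for
`f = fz u Y`, for every `x` in `(0, 1)`.  (iii) `slope` for `fz u Y`: `-10 M/j - C ≤ log ‖fz u Y x‖ ≤ M/j + C`; `fbx`:
`|PS u Y X| ≤ 10 M/j + C ≤ ε M + C`.  About 120 lines.
-/

set_option autoImplicit false

open Complex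

namespace Pool.Agent.H48.RZ

private theorem GB_self (u Y : ℝ) : PS u Y Y = 0 := by
  unfold PS Pr
  simp

theorem gb {ε : ℝ} (hε : 0 < ε) : ∃ C : ℝ, 1 ≤ C ∧ ∀ L Y u X : ℝ, 3 ≤ L → Y = L ^ (2 / 3 : ℝ) → 3 ≤ |u| →
    Real.log |u| + 1 ≤ L → Y ≤ X → |PS u Y X| ≤ ε * MD u Y + C := by
  obtain ⟨C1, hC1, h1⟩ := fbu
  obtain ⟨C2, hC2, h2⟩ := fbx
  obtain ⟨C3, hC3, h3, -, -⟩ := mer
  obtain ⟨j, hj⟩ : ∃ j : ℕ, j = ⌈10 / ε⌉₊ := ⟨_, rfl⟩
  have hj1 : 1 ≤ j := by
    rw [hj]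
    exact Nat.one_le_iff_ne_zero.2 (Nat.ceil_pos.2 (by positivity)).ne'
  have hj0 : (0 : ℝ) < j := by exact_mod_cast hj1
  have hjε : 10 / (j : ℝ) ≤ ε := by
    have h := Nat.le_ceil (10 / ε)
    rw [← hj, div_le_iff₀ hε] at h
    rw [div_le_iff₀ hj0]
    linarith
  have hA1 : 1 ≤ max C1 C2 := hC1.trans (le_max_left _ _)
  obtain ⟨S1, hS1, s1⟩ := Pool.Agent.H76.NS.slope j hj1 (max C1 C2) hA1
  obtain ⟨B, hB⟩ : ∃ B : ℝ, B = 3 / 4 * C3 + 1 / 4 * Real.log S1 + 5 / 4 * C2 := ⟨_, rfl⟩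
  have hlogS1 : 0 ≤ Real.log S1 := Real.log_nonneg hS1
  have hB0 : 0 ≤ B := by rw [hB]; positivity
  have hA2 : 1 ≤ max (max C1 C2) (Real.exp B) := hA1.trans (le_max_left _ _)
  obtain ⟨S2, hS2, s2⟩ := Pool.Agent.H76.NS.slope j hj1 (max (max C1 C2) (Real.exp B)) hA2
  have hlogS2 : 0 ≤ Real.log S2 := Real.log_nonneg hS2
  refine ⟨Real.log S2 + C2, by linarith, ?_⟩
  intro L Y u X hL hY hu hlu hYX
  have hL1 : (1 : ℝ) ≤ L := by linarith
  have hY1 : 1 ≤ Y := by
    rw [hY]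
    exact Real.one_le_rpow hL1 (by norm_num)
  have hY0 : 0 < Y := by linarith
  have hM : 0 ≤ MD u Y := MD_nonneg u Y
  rcases hYX.eq_or_lt with hXe | hXl
  · rw [← hXe, GB_self, abs_zero]
    positivity
  have hX0 : 0 < X := by linarith
  -- bounds for the two functions
  have hlog2u : Real.log |2 * u| ≤ L := by
    rw [abs_mul, abs_of_pos (by norm_num : (0 : ℝ) < 2), Real.log_mul (by norm_num) (by positivity)]
    have := Real.log_two_lt_d9
    linarith
  have h2u : 3 ≤ |2 * u| := by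
    rw [abs_mul, abs_of_pos (by norm_num : (0 : ℝ) < 2)]
    linarith
  have b1 := h1 L Y u hL hY hu (by linarith)
  have b2 := h1 L Y (2 * u) hL hY h2u hlog2u
  have key : ∀ x : ℝ, 0 < x → x < 1 →
      Real.log ‖fz (2 * u) Y x‖ ≤ Real.log S1 + 4 * MD u Y / j := by
    intro x hx0 hx1
    have t := (s1 (MD (2 * u) Y) (fz (2 * u) Y) (MD_nonneg _ _) (by
      intro z hz
      rw [Metric.mem_ball, dist_zero_right] at hz
      exact (b2 z hz.le).1.differentiableWithinAt) (by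
      intro z hz
      rw [Metric.mem_ball, dist_zero_right] at hz
      exact (b2 z hz.le).2.trans (mul_le_mul_of_nonneg_right (le_max_left _ _) (Real.exp_pos _).le)) (by
      intro y hy0 hy1
      refine (h2 Y (2 * u) y hY1 hy0 hy1.le).2.2.trans ?_
      exact div_le_div_of_nonneg_right (le_max_right _ _) hy0.le)).1 x hx0 hx1
    have hp := (h2 Y (2 * u) x hY1 hx0 hx1.le).1
    have t2 := Real.log_le_log hp t
    rw [Real.log_mul (by linarith) (Real.exp_pos _).ne', Real.log_exp] at t2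
    have t3 : MD (2 * u) Y / j ≤ 4 * MD u Y / j := div_le_div_of_nonneg_right (MD_two u Y) hj0.le
    linarith
  have hlow : ∀ x : ℝ, 0 < x → x < 1 →
      -(3 / 4 * Real.log (1 / x)) - B - MD u Y / j ≤ Real.log ‖fz u Y x‖ := by
    intro x hx0 hx1
    have hYx : Y ≤ Y / x := by
      rw [le_div_iff₀ hx0]
      nlinarith
    have k1 := key x hx0 hx1
    have k2 := (h2 Y (2 * u) x hY1 hx0 hx1.le).2.1
    have k3 := (h2 Y u x hY1 hx0 hx1.le).2.1
    have k4 := PS_341 u Y (Y / x)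
    have k5 := h3 Y (Y / x) hY1 hYx
    have e7 : Y / x / Y = 1 / x := by
      field_simp
    rw [e7] at k5
    rw [abs_le] at k2 k3 k5
    have k6 : 4 * MD u Y / j = 4 * (MD u Y / j) := by ring
    rw [k6] at k1
    rw [hB]
    linarith [k2.1, k3.1, k5.2]
  have x0 : 0 < Y / X := by positivity
  have x1 : Y / X < 1 := by rw [div_lt_one hX0]; exact hXl
  have hx : Y / (Y / X) = X := by field_simp
  have sl := s2 (MD u Y) (fz u Y) hM (by
      intro z hz
      rw [Metric.mem_ball, dist_zero_right] at hz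
      exact (b1 z hz.le).1.differentiableWithinAt) (by
      intro z hz
      rw [Metric.mem_ball, dist_zero_right] at hz
      exact (b1 z hz.le).2.trans (mul_le_mul_of_nonneg_right
        ((le_max_left _ _).trans (le_max_left _ _)) (Real.exp_pos _).le)) (by
      intro y hy0 hy1
      refine (h2 Y u y hY1 hy0 hy1.le).2.2.trans ?_
      exact div_le_div_of_nonneg_right ((le_max_right _ _).trans (le_max_left _ _)) hy0.le)
  have up := sl.1 (Y / X) x0 x1
  have lo := sl.2 (by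
    intro x hx0 hx1
    have hp := (h2 Y u x hY1 hx0 hx1.le).1
    have hl := hlow x hx0 hx1
    have hx34 : x ^ (3 / 4 : ℝ) = Real.exp (-(3 / 4 * Real.log (1 / x))) := by
      rw [Real.rpow_def_of_pos hx0, one_div, Real.log_inv]
      congr 1
      ring
    rw [hx34]
    have h4 : Real.exp (-(3 / 4 * Real.log (1 / x))) ≤
        Real.exp B * Real.exp (MD u Y / j) * ‖fz u Y x‖ := by
      conv_rhs => rw [← Real.exp_log hp]
      rw [← Real.exp_add, ← Real.exp_add]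
      exact Real.exp_le_exp.2 (by linarith)
    refine h4.trans ?_
    exact mul_le_mul_of_nonneg_right (mul_le_mul_of_nonneg_right (le_max_right _ _)
      (Real.exp_pos _).le) hp.le) (Y / X) x0 x1
  obtain ⟨hp, hc, -⟩ := h2 Y u (Y / X) hY1 x0 x1.le
  rw [hx] at hc
  have up2 := Real.log_le_log hp up
  rw [Real.log_mul (by linarith) (Real.exp_pos _).ne', Real.log_exp] at up2
  have lo2 := Real.log_le_log one_pos lo
  rw [Real.log_one, Real.log_mul (by positivity) hp.ne', Real.log_mul (by linarith) (Real.exp_pos _).ne',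
    Real.log_exp] at lo2
  have hq1 : 10 * MD u Y / j ≤ ε * MD u Y := by
    have : 10 * MD u Y / j = 10 / (j : ℝ) * MD u Y := by ring
    rw [this]
    exact mul_le_mul_of_nonneg_right hjε hM
  have hq2 : MD u Y / j ≤ 10 * MD u Y / j :=
    div_le_div_of_nonneg_right (by linarith) hj0.le
  rw [abs_le] at hc ⊢
  constructor <;> linarith [hc.1, hc.2]

end Pool.Agent.H48.RZ
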