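import Mathlib
import Pool.Agent.H48.RZ.GB
import Pool.Agent.H48.RZ.Apx

/-!
# MnB: the lower bound for zeta to the right of `1 + 1/V`, relative to its value at `1 + 1/Y`

As `Mn`, keeping `DD` and the value at `1 + 1/Y`.

-/

set_option autoImplicit false

open Complex

namespace Pool.Agent.H48.RZ

/-- the primes in `(e^Y, e^X]`: `-PS t` in terms of `PS 0` and of `PS (2kt)` -/
private theorem MnB_cos {ε : ℝ} {K : ℕ} {a : ℕ → ℝ} (h : ∀ θ : ℝ,
    |Real.cos θ| ≤ 2 / Real.pi + ε + ∑ k ∈ Finset.Icc 1 K, a k * Real.cos (2 * k * θ)) (t Y X : ℝ) :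
    -PS t Y X ≤ (2 / Real.pi + ε) * PS 0 Y X + ∑ k ∈ Finset.Icc 1 K, a k * PS (2 * k * t) Y X := by
  have e : (2 / Real.pi + ε) * PS 0 Y X + ∑ k ∈ Finset.Icc 1 K, a k * PS (2 * k * t) Y X =
      ∑ p ∈ Pr Y X, (2 / Real.pi + ε + ∑ k ∈ Finset.Icc 1 K, a k * Real.cos (2 * k * (t * Real.log p))) / p := by
    rw [PS_zero, Finset.mul_sum]
    unfold PS
    simp_rw [Finset.mul_sum]
    rw [Finset.sum_comm, ← Finset.sum_add_distrib]
    refine Finset.sum_congr rfl fun p _ => ?_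
    rw [add_div, Finset.sum_div]
    congr 1
    · ring
    · refine Finset.sum_congr rfl fun k _ => ?_
      rw [← mul_assoc (2 * (k : ℝ)) t, mul_div_assoc]
  rw [e]
  unfold PS
  rw [← Finset.sum_neg_distrib]
  refine Finset.sum_le_sum fun p _ => ?_
  rw [← neg_div]
  refine div_le_div_of_nonneg_right ?_ (Nat.cast_nonneg p)
  exact (neg_le_abs _).trans (h (t * Real.log p))

/-- the value at `1 + 1/X` against the one at `1 + 1/Y`, in terms of prime sums, `Y = (2 log t)^(2/3)` -/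
private theorem MnB_aux {ε : ℝ} (hε : 0 < ε) : ∃ C t0 : ℝ, 1 ≤ C ∧ 5 ≤ t0 ∧ ∀ t X Y : ℝ, t0 ≤ t →
    Y = (2 * Real.log t) ^ (2 / 3 : ℝ) → Y ≤ X →
    -PS t Y X ≤ (2 / Real.pi + ε) * Real.log (X / Y) + ε * DD t Y + C := by
  obtain ⟨K, a, ha⟩ := apx hε
  obtain ⟨S, hS⟩ : ∃ S : ℝ, S = ∑ k ∈ Finset.Icc 1 K, 4 * (k : ℝ) ^ 2 * |a k| := ⟨_, rfl⟩
  have hS0 : 0 ≤ S := by
    rw [hS]
    exact Finset.sum_nonneg fun k _ => by positivity
  obtain ⟨δ, hδ⟩ : ∃ δ : ℝ, δ = ε / (1 + S) := ⟨_, rfl⟩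
  have hδ0 : 0 < δ := by
    rw [hδ]
    positivity
  have hδS : δ * S ≤ ε := by
    rw [hδ, div_mul_eq_mul_div, div_le_iff₀ (by linarith)]
    nlinarith
  obtain ⟨C2, hC2, h2⟩ := gb hδ0
  obtain ⟨C3, hC3, h3, -, -⟩ := mer
  obtain ⟨T, hT⟩ : ∃ T : ℝ, T = ∑ k ∈ Finset.Icc 1 K, |a k| := ⟨_, rfl⟩
  have hT0 : 0 ≤ T := by
    rw [hT]
    exact Finset.sum_nonneg fun k _ => abs_nonneg _
  have hpe : 0 < 2 / Real.pi + ε := by
    have := Real.pi_pos
    positivity
  refine ⟨1 + (2 / Real.pi + ε) * C3 + T * C2, 5 + 6 * K, ?_, ?_, ?_⟩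
  · have e1 : 0 ≤ (2 / Real.pi + ε) * C3 := by positivity
    have e2 : 0 ≤ T * C2 := mul_nonneg hT0 (by linarith)
    linarith
  · have : (0 : ℝ) ≤ K := Nat.cast_nonneg K
    linarith
  intro t X Y ht hY hYX
  have hK0 : (0 : ℝ) ≤ K := Nat.cast_nonneg K
  have ht5 : 5 ≤ t := by linarith
  have ht0 : 0 < t := by linarith
  have hlt : 3 / 2 ≤ Real.log t := by
    rw [Real.le_log_iff_exp_le ht0]
    have e1 : Real.exp (3 / 2) ≤ 5 := by
      have e2 : Real.exp (3 / 2) ^ 2 = Real.exp 1 ^ 3 := by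
        rw [← Real.exp_nat_mul, ← Real.exp_nat_mul]
        norm_num
      have e3 : Real.exp 1 ^ 3 ≤ 2.7182818286 ^ 3 :=
        pow_le_pow_left₀ (Real.exp_pos 1).le Real.exp_one_lt_d9.le 3
      have e4 : Real.exp (3 / 2) ^ 2 ≤ 5 ^ 2 := by
        rw [e2]
        refine e3.trans ?_
        norm_num
      exact le_of_sq_le_sq e4 (by norm_num)
    exact e1.trans ht5
  have hL3 : 3 ≤ 2 * Real.log t := by linarith
  have hY1 : 1 ≤ Y := by
    rw [hY]
    exact Real.one_le_rpow (by linarith) (by norm_num)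
  have hY0 : 0 < Y := by linarith
  have hX1 : 1 ≤ X := hY1.trans hYX
  have hD : 0 ≤ DD t Y := DD_nonneg t Y
  -- the sum over `k`
  have hk : ∑ k ∈ Finset.Icc 1 K, a k * PS (2 * k * t) Y X ≤ ε * DD t Y + T * C2 := by
    have hb : ∀ k ∈ Finset.Icc 1 K, a k * PS (2 * k * t) Y X ≤
        δ * DD t Y * (4 * (k : ℝ) ^ 2 * |a k|) + |a k| * C2 := by
      intro k hk
      rw [Finset.mem_Icc] at hk
      have hk1 : (1 : ℝ) ≤ k := by exact_mod_cast hk.1
      have hkK : (k : ℝ) ≤ K := by exact_mod_cast hk.2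
      have hpos : 0 < 2 * (k : ℝ) * t := by positivity
      have g1 : 3 ≤ |2 * (k : ℝ) * t| := by
        rw [abs_of_pos hpos]
        nlinarith
      have g2 : Real.log |2 * (k : ℝ) * t| + 1 ≤ 2 * Real.log t := by
        rw [abs_of_pos hpos, Real.log_mul (by positivity) (by positivity)]
        have e1 : Real.log (2 * k) + 1 ≤ Real.log t := by
          have e2 : Real.log (2 * k) + 1 = Real.log (2 * k * Real.exp 1) := by
            rw [Real.log_mul (by positivity) (Real.exp_pos 1).ne', Real.log_exp]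
          rw [e2]
          refine Real.log_le_log (by positivity) ?_
          have e3 := Real.exp_one_lt_d9
          nlinarith
        linarith
      have g3 := h2 (2 * Real.log t) Y (2 * k * t) X hL3 hY g1 g2 hYX
      have g4 := MD_DD t Y k
      have g5 : |PS (2 * k * t) Y X| ≤ δ * (4 * (k : ℝ) ^ 2 * DD t Y) + C2 :=
        g3.trans (by linarith [mul_le_mul_of_nonneg_left g4 hδ0.le])
      calc a k * PS (2 * k * t) Y X ≤ |a k * PS (2 * k * t) Y X| := le_abs_self _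
        _ = |a k| * |PS (2 * k * t) Y X| := abs_mul _ _
        _ ≤ |a k| * (δ * (4 * (k : ℝ) ^ 2 * DD t Y) + C2) := mul_le_mul_of_nonneg_left g5 (abs_nonneg _)
        _ = δ * DD t Y * (4 * (k : ℝ) ^ 2 * |a k|) + |a k| * C2 := by ring
    refine (Finset.sum_le_sum hb).trans ?_
    rw [Finset.sum_add_distrib, ← Finset.mul_sum, ← Finset.sum_mul, ← hS, ← hT]
    have := mul_le_mul_of_nonneg_right hδS hD
    nlinarith
  have hc := MnB_cos ha t Y X
  have m1 := (abs_le.1 (h3 Y X hY1 hYX)).2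
  have m6 : (2 / Real.pi + ε) * PS 0 Y X ≤ (2 / Real.pi + ε) * (Real.log (X / Y) + C3) :=
    mul_le_mul_of_nonneg_left (by linarith) hpe.le
  have m7 : (2 / Real.pi + ε) * (Real.log (X / Y) + C3) =
      (2 / Real.pi + ε) * Real.log (X / Y) + (2 / Real.pi + ε) * C3 := by ring
  linarith

/-- zeta at `1 + 1/X` against zeta at `1 + 1/Y`, `Y = (log t)^(2/3) ≤ X` -/
theorem mnB {ε : ℝ} (hε : 0 < ε) : ∃ C t0 : ℝ, 1 ≤ C ∧ 5 ≤ t0 ∧ ∀ t X Y : ℝ, t0 ≤ t →
    Y = Real.log t ^ (2 / 3 : ℝ) → Y ≤ X →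
    -Real.log ‖riemannZeta (1 + 1 / X + t * I)‖ ≤ -Real.log ‖riemannZeta (1 + 1 / Y + t * I)‖ +
      (2 / Real.pi + ε) * Real.log (X / Y) + ε * max 0 (Real.log (Y * ‖riemannZeta (1 + 1 / Y + t * I)‖)) + C := by
  obtain ⟨C0, t0, hC0, ht0, h⟩ := MnB_aux hε
  obtain ⟨C1, hC1, h1⟩ := lz
  obtain ⟨C3, hC3, h3, h4, -⟩ := mer
  have hpe : 0 < 2 / Real.pi + ε := by
    have := Real.pi_pos
    positivity
  have hl2 : 0 < Real.log 2 := Real.log_pos (by norm_num)
  refine ⟨C0 + 2 * C1 + (Real.log 2 + C3) + ε * (2 * (Real.log 2 + C3) + C1 + C3), t0, ?_, ht0, ?_⟩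
  · have e1 : 0 ≤ ε * (2 * (Real.log 2 + C3) + C1 + C3) := by positivity
    linarith
  intro t X Y ht hY hYX
  have ht5 : 5 ≤ t := by linarith
  have hlt : 1 ≤ Real.log t := by
    rw [Real.le_log_iff_exp_le (by linarith)]
    have := Real.exp_one_lt_d9
    linarith
  have hY1 : 1 ≤ Y := by
    rw [hY]
    exact Real.one_le_rpow hlt (by norm_num)
  have hY0 : 0 < Y := by linarith
  have hX1 : 1 ≤ X := hY1.trans hYX
  obtain ⟨Z, hZ⟩ : ∃ Z : ℝ, Z = (2 * Real.log t) ^ (2 / 3 : ℝ) := ⟨_, rfl⟩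
  have hYZ : Y ≤ Z := by
    rw [hY, hZ]
    exact Real.rpow_le_rpow (by linarith) (by linarith) (by norm_num)
  have hZY : Z ≤ 2 * Y := by
    rw [hY, hZ, Real.mul_rpow (by norm_num) (by linarith)]
    have : (2 : ℝ) ^ (2 / 3 : ℝ) ≤ 2 ^ (1 : ℝ) :=
      Real.rpow_le_rpow_of_exponent_le (by norm_num) (by norm_num)
    rw [Real.rpow_one] at this
    have h5 : 0 ≤ Real.log t ^ (2 / 3 : ℝ) := by positivity
    nlinarith
  have hZ1 : 1 ≤ Z := hY1.trans hYZ
  have hZ0 : 0 < Z := by linarith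
  have hlogZY : Real.log (Z / Y) ≤ Real.log 2 :=
    Real.log_le_log (by positivity) (by rw [div_le_iff₀ hY0]; linarith)
  -- the window `(Y, Z]`
  have hw : ∀ W : ℝ, Y ≤ W → W ≤ Z → ∀ u : ℝ, |PS u Y W| ≤ Real.log 2 + C3 := by
    intro W hW1 hW2 u
    have e1 := (abs_le.1 (h3 Y W hY1 hW1)).2
    have e2 : Real.log (W / Y) ≤ Real.log (Z / Y) :=
      Real.log_le_log (by have : 0 < W := by linarith
                          positivity) (div_le_div_of_nonneg_right hW2 hY0.le)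
    have e3 := abs_PS_le u Y W
    linarith
  -- `DD`
  have hDY : DD t Y ≤ Real.log (Y * ‖riemannZeta (1 + 1 / Y + t * I)‖) + C1 + C3 := by
    have m2 := (abs_le.1 (h4 Y hY1)).2
    have m3 := (abs_le.1 (h1 Y t hY1)).1
    have hne : 0 < ‖riemannZeta (1 + 1 / Y + t * I)‖ := by
      rw [norm_pos_iff]
      apply riemannZeta_ne_zero_of_one_lt_re
      have e : (1 + 1 / Y + t * I : ℂ) = ((1 + 1 / Y : ℝ) : ℂ) + t * I := by push_cast; ring
      rw [e]
      have : 0 < 1 / Y := by positivity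
      simp
      positivity
    rw [Real.log_mul hY0.ne' hne.ne']
    unfold DD
    linarith
  have hDZ : DD t Z ≤ DD t Y + 2 * (Real.log 2 + C3) := by
    have e1 := PS_add 0 hY0.le hYZ
    have e2 := PS_add t hY0.le hYZ
    have e3 := (abs_le.1 (hw Z hYZ le_rfl 0)).2
    have e4 := (abs_le.1 (hw Z hYZ le_rfl t)).2
    unfold DD
    linarith
  have hmax := le_max_right (0 : ℝ) (Real.log (Y * ‖riemannZeta (1 + 1 / Y + t * I)‖))
  have hmax0 := le_max_left (0 : ℝ) (Real.log (Y * ‖riemannZeta (1 + 1 / Y + t * I)‖))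
  -- the bound for `-PS t Y X`
  have key : -PS t Y X ≤ (2 / Real.pi + ε) * Real.log (X / Y) +
      ε * max 0 (Real.log (Y * ‖riemannZeta (1 + 1 / Y + t * I)‖)) + C0 + (Real.log 2 + C3) +
      ε * (2 * (Real.log 2 + C3) + C1 + C3) := by
    have hlXY : 0 ≤ Real.log (X / Y) := Real.log_nonneg (by rw [le_div_iff₀ hY0]; linarith)
    have hp1 : 0 ≤ (2 / Real.pi + ε) * Real.log (X / Y) := by positivity
    have hp2 : 0 ≤ ε * max 0 (Real.log (Y * ‖riemannZeta (1 + 1 / Y + t * I)‖)) := by positivity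
    have hp3 : 0 ≤ ε * (2 * (Real.log 2 + C3) + C1 + C3) := by positivity
    rcases le_or_gt X Z with hXZ | hXZ
    · have e1 := (abs_le.1 (hw X hYX hXZ t)).1
      linarith
    · have e1 := h t X Z ht hZ hXZ.le
      have e2 := PS_add t hYZ hXZ.le
      have e3 := (abs_le.1 (hw Z hYZ le_rfl t)).1
      have e4 : (2 / Real.pi + ε) * Real.log (X / Z) ≤ (2 / Real.pi + ε) * Real.log (X / Y) := by
        apply mul_le_mul_of_nonneg_left _ hpe.le
        exact Real.log_le_log (by positivity) (div_le_div_of_nonneg_left (by linarith) hY0 hYZ)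
      have e5 : ε * DD t Z ≤ ε * (max 0 (Real.log (Y * ‖riemannZeta (1 + 1 / Y + t * I)‖)) +
          (2 * (Real.log 2 + C3) + C1 + C3)) := by
        apply mul_le_mul_of_nonneg_left _ hε.le
        linarith
      rw [mul_add] at e5
      linarith
  have m3 := (abs_le.1 (h1 X t hX1)).1
  have m4 := PS_add t hY0.le hYX
  have m5 := (abs_le.1 (h1 Y t hY1)).2
  linarith

end Pool.Agent.H48.RZ
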