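import Mathlib

/-!
# Scale: the Vinogradov-Korobov function
-/

set_option autoImplicit false

namespace Pool.Agent.H48.RZ

/-- the Vinogradov-Korobov function `(log T)^(2/3) (loglog T)^(1/3)` -/
noncomputable def VK (T : ℝ) : ℝ := Real.log T ^ (2 / 3 : ℝ) * Real.log (Real.log T) ^ (1 / 3 : ℝ)

theorem log3 : Real.exp (2 / 25) ≤ Real.log 3 := by
  rw [Real.le_log_iff_exp_le (by norm_num)]
  have h1 : Real.exp (2 / 25) ≤ 1 + 87 / 1000 := by
    have h2 := Real.add_one_le_exp (-(2 / 25 : ℝ))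
    have h3 : Real.exp (2 / 25) * Real.exp (-(2 / 25)) = 1 := by
      rw [← Real.exp_add]; norm_num
    have h4 := Real.exp_pos (2 / 25)
    nlinarith
  have h2 : Real.exp (87 / 1000) ≤ 1 + 1 / 10 := by
    have h2 := Real.add_one_le_exp (-(87 / 1000 : ℝ))
    have h3 : Real.exp (87 / 1000) * Real.exp (-(87 / 1000)) = 1 := by
      rw [← Real.exp_add]; norm_num
    have h4 := Real.exp_pos (87 / 1000)
    nlinarith
  calc Real.exp (Real.exp (2 / 25)) ≤ Real.exp (1 + 87 / 1000) := Real.exp_le_exp.2 h1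
    _ = Real.exp 1 * Real.exp (87 / 1000) := Real.exp_add _ _
    _ ≤ 2.7182818286 * (1 + 1 / 10) :=
        mul_le_mul Real.exp_one_lt_d9.le h2 (Real.exp_pos _).le (by norm_num)
    _ ≤ 3 := by norm_num

theorem loglog3 {T : ℝ} (hT : 3 ≤ T) : 1 ≤ Real.log T ∧ 2 / 25 ≤ Real.log (Real.log T) := by
  have h0 : Real.log 3 ≤ Real.log T := Real.log_le_log (by norm_num) hT
  have h1 := log3.trans h0
  have h2 : 1 ≤ Real.exp (2 / 25) := Real.one_le_exp (by norm_num)
  have h3 : 0 < Real.log T := by linarith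
  exact ⟨by linarith, (Real.le_log_iff_exp_le h3).2 h1⟩

theorem VK_pos {T : ℝ} (hT : 3 ≤ T) : 0 < VK T := by
  obtain ⟨h1, h2⟩ := loglog3 hT
  unfold VK
  exact mul_pos (Real.rpow_pos_of_pos (by linarith) _) (Real.rpow_pos_of_pos (by linarith) _)

end Pool.Agent.H48.RZ
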