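import Mathlib
import Pool.Agent.H76.SC.TmU
import Pool.Agent.H48.LD.Cnt

/-!
# ShA: the logarithmic derivative near `1 + it`

PROOF.  `V = vklam t`.  `tmU` (`H76/SC/TmU.lean`) with `r = 8/V ≤ 1/4` (for `t ≥ t0`), `T = t`: `TM r E t`,
`E = C (1 + r^(3/2) log (t + 3) + r V) ≤ C'` since `V^(3/2) ≥ log (t + 3)`; unfold `TM`: `R ≥ r`, `R ≤ 1`, `M` with
`Tame R (M R) t`, `1 + log (1/R) ≤ M R`, `1 + M r ≤ E`, so `M ≤ C' V/8`.  Now follow `cnt` (`H48/LD/Cnt.lean`; copy
`grow_two`, `lser_le`, `dco0_bound`, `low`): `exists_HG` with `η = 1`, `a = R/16`, radius `R/4`, growth `9 M R`: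
`zetaPole'/zetaPole (z) = ∑_{u ∈ S} zord u/(z - u) + H z`, `‖H z‖ ≤ C 9 M R/(R/4) ≤ C'' V` for `‖z - pt a t‖ ≤ R/4`.
At `z1 = 1 + 1/V + it` (`1/V ≤ R/8`, inside): `‖zetaPole'/zetaPole (z1)‖ ≤ C V` (as in `cnt`: `ζ'/ζ ≪ 1/(Re z1 - 1) = V`), so
`∑ zord u Re 1/(z1 - u) ≤ C V`.  For `z = σ + it`, `1 - c/V ≤ σ ≤ 1 + 1/V` and `u` in `S`: `|Im u - t| ≤ R/4 < 1`,
`vklam |Im u| ≤ 2 V` (`vklam_succ`, `vklam_mono`), `vk_all`: `1 - Re u ≥ c1/(2V)`, so with `c = c1/4`:
`Re (z - u) ≥ c1/(4V)`, `Re (z - u) ≤ Re (z1 - u)`, `‖z1 - u‖ ≤ ‖z - u‖ + (1 + c)/V ≤ K ‖z - u‖`: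
`Re 1/(z - u) = Re (z - u)/‖z - u‖² ≤ K² Re 1/(z1 - u)`.  Hence `Re zetaPole'/zetaPole (z) ≤ C V`.  About 200 lines.
-/

set_option autoImplicit false

open Complex

namespace Pool.Agent.H48.RZ

open Pool.Agent.H6 Pool.Agent.H76.CR Pool.Agent.H52.ZR

section

open Pool.Agent.H6.Win

/-- size of `∑ n^(-(1+a))` -/
private lemma tsum_le {a : ℝ} (ha : 0 < a) (ha1 : a ≤ 1) :
    ∑' n : ℕ, 1 / (n : ℝ) ^ (1 + a) ≤ 18 / a := by
  have h5 : riemannZeta ((1 + a : ℝ) : ℂ) = ((∑' n : ℕ, 1 / (n : ℝ) ^ (1 + a) : ℝ) : ℂ) := by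
    rw [zeta_eq_tsum_one_div_nat_cpow (by rw [ofReal_re]; linarith), ofReal_tsum]
    congr 1
    funext n
    rw [ofReal_div, ofReal_one, ofReal_cpow (Nat.cast_nonneg n), ofReal_natCast]
  have h4 : (∑' n : ℕ, 1 / (n : ℝ) ^ (1 + a)) = ‖riemannZeta ((1 + a : ℝ) : ℂ)‖ := by
    rw [h5, norm_real, Real.norm_of_nonneg (tsum_nonneg fun n => by positivity)]
  have h7 := norm_zetaPole_le (s := ((1 + a : ℝ) : ℂ)) (by rw [ofReal_re]; linarith)
  have h8 : zetaPole ((1 + a : ℝ) : ℂ) =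
      (((1 + a : ℝ) : ℂ) - 1) * riemannZeta ((1 + a : ℝ) : ℂ) := by
    rw [zetaPole_of_ne]
    intro h
    have : (1 + a : ℝ) = 1 := by exact_mod_cast h
    linarith
  rw [h8, norm_mul] at h7
  have h9 : ‖((1 + a : ℝ) : ℂ) - 1‖ = a := by
    rw [← ofReal_one, ← ofReal_sub, norm_real, Real.norm_of_nonneg (by linarith)]
    ring
  have h10 : ‖((1 + a : ℝ) : ℂ)‖ = 1 + a := by
    rw [norm_real, Real.norm_of_nonneg (by linarith)]
  rw [h9, h10] at h7
  rw [h4, le_div_iff₀ ha]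
  nlinarith

/-- lower bound for `zetaPole` at `c = 1 + a + it` -/
private lemma low {a : ℝ} (ha : 0 < a) (ha1 : a ≤ 1) (t : ℝ) :
    a ≤ ‖pt a t - 1‖ ∧ 1 ≤ 18 / a * ‖riemannZeta (pt a t)‖ ∧
      ‖zetaPole (pt a t)‖ = ‖pt a t - 1‖ * ‖riemannZeta (pt a t)‖ := by
  set K0 : ℝ := ∑' n : ℕ, 1 / (n : ℝ) ^ (1 + a) with hK0
  have hK1 : K0 ≤ 18 / a := tsum_le ha ha1
  set c : ℂ := pt a t with hc
  have hcre : c.re = 1 + a := by rw [hc, pt]; simp
  have h3 := norm_inv_riemannZeta_le (s := c) (x := 1 + a) (by linarith) (by rw [hcre])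
  have hcne : c ≠ 1 := by
    intro h; rw [h] at hcre; simp at hcre; linarith
  have hζ : riemannZeta c ≠ 0 := riemannZeta_ne_zero_of_one_le_re (by rw [hcre]; linarith)
  have h4 : zetaPole c = (c - 1) * riemannZeta c := zetaPole_of_ne hcne
  have h5 : a ≤ ‖c - 1‖ := by
    have := Complex.abs_re_le_norm (c - 1)
    rw [Complex.sub_re, hcre, Complex.one_re] at this
    have h6 : |1 + a - 1| = a := by rw [add_sub_cancel_left, abs_of_pos ha]
    rw [h6] at this
    exact this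
  refine ⟨h5, ?_, by rw [h4, norm_mul]⟩
  rw [norm_inv] at h3
  have hpos : 0 < ‖riemannZeta c‖ := norm_pos_iff.2 hζ
  have h7 : 1 ≤ K0 * ‖riemannZeta c‖ := by
    rw [inv_le_iff_one_le_mul₀ hpos] at h3
    exact h3
  exact h7.trans (mul_le_mul_of_nonneg_right hK1 hpos.le)

end

private lemma ne_one' {u : ℂ} (hu : riemannZeta u = 0) : u ≠ 1 := by
  rintro rfl
  exact riemannZeta_one_ne_zero hu

/-- `∑ Λ(n) n^(-1-b)` over `n < 2^J` by dyadic blocks (Chebyshev). -/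
private theorem dco0_dyadic {b : ℝ} (hb : 0 < b) (J : ℕ) :
    ∑ n ∈ Finset.range (2 ^ J), dco b 0 n ≤
      ∑ j ∈ Finset.range J, 2 * (Real.log 4 + 4) * ((2 : ℝ) ^ (-b)) ^ j := by
  induction J with
  | zero => simp [dco]
  | succ J ih =>
    rw [Finset.sum_range_succ, Finset.range_eq_Ico, ← Finset.sum_Ico_consecutive (fun n => dco b 0 n)
      (Nat.zero_le (2 ^ J)) (Nat.pow_le_pow_right (by norm_num) (Nat.le_succ J)),
      ← Finset.range_eq_Ico]
    refine add_le_add ih ?_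
    have hpos : (0 : ℝ) < (2 : ℝ) ^ J := by positivity
    have h1 : ∀ n ∈ Finset.Ico (2 ^ J) (2 ^ (J + 1)), dco b 0 n ≤
        ((2 : ℝ) ^ J) ^ (-(1 + b)) * ArithmeticFunction.vonMangoldt n := by
      intro n hn
      rw [Finset.mem_Ico] at hn
      have hn1 : ((2 : ℝ) ^ J) ≤ n := by exact_mod_cast hn.1
      unfold dco
      simp only [pow_zero, Nat.factorial_zero, Nat.cast_one, div_one, mul_one]
      rw [mul_comm]
      refine mul_le_mul_of_nonneg_right ?_ ArithmeticFunction.vonMangoldt_nonneg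
      exact Real.rpow_le_rpow_of_nonpos hpos hn1 (by linarith)
    refine (Finset.sum_le_sum h1).trans ?_
    rw [← Finset.mul_sum]
    have h2 : ∑ n ∈ Finset.Ico (2 ^ J) (2 ^ (J + 1)), ArithmeticFunction.vonMangoldt n ≤
        Chebyshev.psi ((2 : ℝ) ^ (J + 1)) := by
      rw [Chebyshev.psi_eq_sum_Icc]
      refine Finset.sum_le_sum_of_subset_of_nonneg ?_ fun _ _ _ =>
        ArithmeticFunction.vonMangoldt_nonneg
      intro n hn
      rw [Finset.mem_Ico] at hn
      rw [Finset.mem_Icc]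
      refine ⟨Nat.zero_le _, ?_⟩
      rw [Nat.le_floor_iff (by positivity)]
      have : n ≤ 2 ^ (J + 1) := hn.2.le
      exact_mod_cast this
    have h3 : Chebyshev.psi ((2 : ℝ) ^ (J + 1)) ≤ (Real.log 4 + 4) * (2 : ℝ) ^ (J + 1) :=
      Chebyshev.psi_le_const_mul_self (by positivity)
    calc ((2 : ℝ) ^ J) ^ (-(1 + b)) * ∑ n ∈ Finset.Ico (2 ^ J) (2 ^ (J + 1)),
          ArithmeticFunction.vonMangoldt n
        ≤ ((2 : ℝ) ^ J) ^ (-(1 + b)) * ((Real.log 4 + 4) * (2 : ℝ) ^ (J + 1)) := by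
          refine mul_le_mul_of_nonneg_left (h2.trans h3) ?_
          positivity
      _ = 2 * (Real.log 4 + 4) * (((2 : ℝ) ^ J) ^ (-(1 + b)) * (2 : ℝ) ^ J) := by
          rw [pow_succ]; ring
      _ = 2 * (Real.log 4 + 4) * ((2 : ℝ) ^ (-b)) ^ J := by
          congr 1
          have e1 : ((2 : ℝ) ^ J) ^ (-(1 + b)) * (2 : ℝ) ^ J = ((2 : ℝ) ^ J) ^ (-b) := by
            have e2 : -(1 + b) = -b - 1 := by ring
            rw [e2, Real.rpow_sub_one hpos.ne']
            field_simp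
          rw [e1, ← Real.rpow_natCast, ← Real.rpow_natCast, ← Real.rpow_mul (by norm_num),
            ← Real.rpow_mul (by norm_num)]
          congr 1
          ring

private theorem dco0_bound {b : ℝ} (hb : 0 < b) :
    b * ∑' n : ℕ, dco b 0 n ≤ 2 * (Real.log 4 + 4) * (1 / Real.log 2 + b) := by
  have hl2 : 0 < Real.log 2 := Real.log_pos (by norm_num)
  have hl4 : 0 < Real.log 4 := Real.log_pos (by norm_num)
  set r : ℝ := (2 : ℝ) ^ (-b) with hr
  have hr0 : 0 < r := by positivity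
  have h2b : 1 + b * Real.log 2 ≤ (2 : ℝ) ^ b := by
    rw [Real.rpow_def_of_pos (by norm_num)]
    have := Real.add_one_le_exp (Real.log 2 * b)
    linarith
  have hrinv : r * (2 : ℝ) ^ b = 1 := by
    rw [hr, ← Real.rpow_add (by norm_num)]
    simp
  have hbl : 0 < b * Real.log 2 := by positivity
  have hr1 : r < 1 := by
    by_contra hcon
    have h1 : 1 ≤ r := not_lt.mp hcon
    nlinarith
  have hgeo : ∀ J : ℕ, ∑ j ∈ Finset.range J, r ^ j ≤ 1 / (1 - r) := by
    intro J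
    have h1 : 0 < 1 - r := by linarith
    rw [le_div_iff₀ h1, mul_comm]
    have h2 := mul_neg_geom_sum r J
    rw [h2]
    have : 0 ≤ r ^ J := by positivity
    linarith
  have hsum : ∑' n : ℕ, dco b 0 n ≤ 2 * (Real.log 4 + 4) * (1 / (1 - r)) := by
    refine Real.tsum_le_of_sum_range_le (fun n => dco_nonneg b 0 n) fun N => ?_
    have h1 : ∑ n ∈ Finset.range N, dco b 0 n ≤ ∑ n ∈ Finset.range (2 ^ N), dco b 0 n := by
      refine Finset.sum_le_sum_of_subset_of_nonneg ?_ fun _ _ _ => dco_nonneg _ _ _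
      refine Finset.range_subset_range.mpr ?_
      exact Nat.lt_two_pow_self.le
    refine h1.trans ((dco0_dyadic hb N).trans ?_)
    rw [← Finset.mul_sum]
    exact mul_le_mul_of_nonneg_left (hgeo N) (by positivity)
  have hb1 : b * (1 / (1 - r)) ≤ 1 / Real.log 2 + b := by
    have h1 : 0 < 1 - r := by linarith
    rw [mul_one_div, div_le_iff₀ h1]
    have h3 : r ≤ 1 / (1 + b * Real.log 2) := by
      rw [le_div_iff₀ (by positivity)]
      nlinarith
    have h4 : b * Real.log 2 / (1 + b * Real.log 2) ≤ 1 - r := by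
      have e : b * Real.log 2 / (1 + b * Real.log 2) = 1 - 1 / (1 + b * Real.log 2) := by
        field_simp
        ring
      rw [e]; linarith
    calc b = (1 / Real.log 2 + b) * (b * Real.log 2 / (1 + b * Real.log 2)) := by
          field_simp
      _ ≤ (1 / Real.log 2 + b) * (1 - r) := by gcongr
  calc b * ∑' n : ℕ, dco b 0 n ≤ b * (2 * (Real.log 4 + 4) * (1 / (1 - r))) := by gcongr
    _ = 2 * (Real.log 4 + 4) * (b * (1 / (1 - r))) := by ring
    _ ≤ _ := by gcongr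

/-- size of the Dirichlet series of `Λ` at `1 + r + it` -/
private lemma lser_le {r : ℝ} (hr : 0 < r) (t : ℝ) :
    ‖LSeries (fun n => (ArithmeticFunction.vonMangoldt n : ℂ)) (pt r t)‖ ≤
      ∑' n : ℕ, dco r 0 n := by
  have hre : (pt r t).re = 1 + r := by rw [pt]; simp
  refine tsum_of_norm_bounded (summable_dco hr 0).hasSum fun n => ?_
  rw [LSeries.norm_term_eq, hre]
  split_ifs with h
  · exact dco_nonneg r 0 n
  · apply le_of_eq
    unfold dco
    rw [Complex.norm_real, Real.norm_of_nonneg ArithmeticFunction.vonMangoldt_nonneg,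
      Real.rpow_neg (Nat.cast_nonneg n)]
    simp only [pow_zero, Nat.factorial_zero, Nat.cast_one, div_one, mul_one]
    rw [div_eq_mul_inv]

/-- the growth hypothesis of `exists_HG` in the disc of radius `r/2` -/
private lemma grow_two {r E t a : ℝ} (hr : 0 < r) (hr1 : r ≤ 1) (hE : 1 + Real.log (1 / r) ≤ E)
    (ht : 1 ≤ |t|) (hT : Pool.Agent.H76.GL.Tame r E t) (ha : a = r / 16) :
    ∀ z ∈ Metric.closedBall (pt a t) (r / 2),
      ‖zetaPole z‖ ≤ Real.exp (9 * E) * ‖zetaPole (pt a t)‖ := by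
  have hlr : 0 ≤ Real.log (1 / r) := Real.log_nonneg (by rw [le_div_iff₀ hr]; linarith)
  have hE1 : 1 ≤ E := by linarith
  have ha0 : 0 < a := by rw [ha]; positivity
  have ha1 : a ≤ 1 := by rw [ha]; linarith
  obtain ⟨l1, l2, l3⟩ := low ha0 ha1 t
  have hcim : (pt a t - 1).im = t := by rw [pt]; simp
  have hct : 1 ≤ ‖pt a t - 1‖ := by
    have h := Complex.abs_im_le_norm (pt a t - 1)
    rw [hcim] at h
    linarith
  have hcd : ‖pt a t - (1 + t * I)‖ = a := by
    have h : pt a t - (1 + t * I) = (a : ℂ) := by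
      rw [pt]
      push_cast
      ring
    rw [h, Complex.norm_real, Real.norm_of_nonneg ha0.le]
  intro z hz
  rw [Metric.mem_closedBall, dist_eq_norm] at hz
  have hz1 : ‖z - (1 + t * I)‖ ≤ 15 / 16 * r := by
    calc ‖z - (1 + t * I)‖ = ‖(z - pt a t) + (pt a t - (1 + t * I))‖ := by congr 1; ring
      _ ≤ ‖z - pt a t‖ + ‖pt a t - (1 + t * I)‖ := norm_add_le _ _
      _ ≤ r / 2 + a := by rw [hcd]; linarith
      _ ≤ 15 / 16 * r := by rw [ha]; linarith
  have hζ := hT z (by linarith)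
  have hzne : z ≠ 1 := by
    intro h
    rw [h] at hz1
    have h1 := Complex.abs_im_le_norm ((1 : ℂ) - (1 + t * I))
    have h2 : ((1 : ℂ) - (1 + t * I)).im = -t := by simp
    rw [h2, abs_neg] at h1
    linarith
  have hz2 : ‖z - 1‖ ≤ 2 * ‖pt a t - 1‖ := by
    calc ‖z - 1‖ = ‖(z - pt a t) + (pt a t - 1)‖ := by congr 1; ring
      _ ≤ ‖z - pt a t‖ + ‖pt a t - 1‖ := norm_add_le _ _
      _ ≤ r / 2 + ‖pt a t - 1‖ := by linarith
      _ ≤ 2 * ‖pt a t - 1‖ := by linarith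
  have hexpr : Real.exp (Real.log (1 / r)) = 1 / r := Real.exp_log (by positivity)
  have hnum : (576 : ℝ) ≤ Real.exp 7 := by
    have := Real.exp_one_gt_d9
    have h8 : Real.exp 7 = Real.exp 1 ^ 7 := by rw [← Real.exp_nat_mul]; norm_num
    rw [h8]
    calc (576 : ℝ) ≤ 2.7 ^ 7 := by norm_num
      _ ≤ Real.exp 1 ^ 7 := by gcongr; linarith
  have hζ0 : 0 ≤ ‖riemannZeta (pt a t)‖ := norm_nonneg _
  have hc0 : 0 ≤ ‖pt a t - 1‖ := norm_nonneg _
  rw [zetaPole_of_ne hzne, norm_mul, l3]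
  calc ‖z - 1‖ * ‖riemannZeta z‖
      ≤ (2 * ‖pt a t - 1‖) * Real.exp E := by gcongr
    _ = (2 * ‖pt a t - 1‖) * Real.exp E * 1 := by ring
    _ ≤ (2 * ‖pt a t - 1‖) * Real.exp E * (18 / a * ‖riemannZeta (pt a t)‖) := by gcongr
    _ = 576 * Real.exp E * (1 / r) * (‖pt a t - 1‖ * ‖riemannZeta (pt a t)‖) := by
        rw [ha]
        field_simp
        ring
    _ ≤ Real.exp 7 * Real.exp E * Real.exp (Real.log (1 / r)) *
        (‖pt a t - 1‖ * ‖riemannZeta (pt a t)‖) := by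
        rw [hexpr]
        gcongr
    _ = Real.exp (7 + E + Real.log (1 / r)) * (‖pt a t - 1‖ * ‖riemannZeta (pt a t)‖) := by
        rw [← Real.exp_add, ← Real.exp_add]
    _ ≤ Real.exp (9 * E) * (‖pt a t - 1‖ * ‖riemannZeta (pt a t)‖) := by
        apply mul_le_mul_of_nonneg_right _ (by positivity)
        apply Real.exp_le_exp.2
        linarith

/-- a real part -/
private lemma re_inv (w : ℂ) : (1 / w).re = w.re / ‖w‖ ^ 2 := by
  rw [one_div, Complex.inv_re, Complex.normSq_eq_norm_sq]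

theorem shA : ∃ c C t0 : ℝ, 0 < c ∧ 1 ≤ C ∧ 3 ≤ t0 ∧ ∀ t σ : ℝ, t0 ≤ t → 1 - c / vklam t ≤ σ →
    σ ≤ 1 + 1 / vklam t → zetaPole (σ + t * I) ≠ 0 ∧
      (deriv zetaPole (σ + t * I) / zetaPole (σ + t * I)).re ≤ C * vklam t := by
  obtain ⟨c1, hc1, hvk⟩ := vk_all
  obtain ⟨C0, hC0, htm⟩ := Pool.Agent.H76.SC.tmU
  obtain ⟨C2, hC2, hmain⟩ := Pool.Agent.H52.RK.exists_HG (η := 1) (by norm_num)
  obtain ⟨K, hK⟩ : ∃ K : ℝ, K = 2 * (Real.log 4 + 4) * (1 / Real.log 2 + 1) := ⟨_, rfl⟩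
  have hl2 : 0 < Real.log 2 := Real.log_pos (by norm_num)
  have hl4 : 0 < Real.log 4 := Real.log_pos (by norm_num)
  have hK0 : 0 < K := by rw [hK]; positivity
  obtain ⟨c, hc⟩ : ∃ c : ℝ, c = min c1 1 / 4 := ⟨_, rfl⟩
  have hmn : 0 < min c1 1 := lt_min hc1 one_pos
  have hc0 : 0 < c := by rw [hc]; positivity
  have hcc1 : c ≤ c1 / 4 := by rw [hc]; linarith [min_le_left c1 1]
  have hc14 : c ≤ 1 / 4 := by rw [hc]; linarith [min_le_right c1 1]
  obtain ⟨Q, hQ⟩ : ∃ Q : ℝ, Q = 1 + 8 / c1 := ⟨_, rfl⟩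
  have hQ1 : 1 ≤ Q := by rw [hQ]; linarith [div_pos (by norm_num : (0:ℝ) < 8) hc1]
  obtain ⟨B, hB⟩ : ∃ B : ℝ, B = 360 * C2 * C0 := ⟨_, rfl⟩
  have hB0 : 0 ≤ B := by rw [hB]; positivity
  refine ⟨c, 1 + (Q ^ 2 * (K + 1 + B) + B), max 3 (Real.exp 1024), hc0, ?_, le_max_left _ _, ?_⟩
  · have : 0 ≤ Q ^ 2 * (K + 1 + B) + B := by positivity
    linarith
  intro t σ ht hσ1 hσ2
  have ht3 : 3 ≤ t := (le_max_left _ _).trans ht
  have hte : Real.exp 1024 ≤ t := (le_max_right _ _).trans ht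
  obtain ⟨V, hV⟩ : ∃ V : ℝ, V = vklam t := ⟨_, rfl⟩
  rw [← hV] at hσ1 hσ2 ⊢
  obtain ⟨l, hl⟩ : ∃ l : ℝ, l = Real.log (t + 3) := ⟨_, rfl⟩
  have hl1024 : 1024 ≤ l := by
    rw [hl, Real.le_log_iff_exp_le (by linarith)]
    linarith
  have hl0 : 0 < l := by linarith
  have hll : 0 ≤ Real.log l := Real.log_nonneg (by linarith)
  have hVl : l ^ (2 / 3 : ℝ) ≤ V := by
    rw [hV]
    unfold vklam
    rw [← hl]
    have h1 : 1 ≤ (1 + Real.log l) ^ (1 / 3 : ℝ) := Real.one_le_rpow (by linarith) (by norm_num)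
    have h2 : 0 ≤ l ^ (2 / 3 : ℝ) := by positivity
    nlinarith
  have hV32 : 32 ≤ V := by
    refine le_trans ?_ hVl
    calc (32 : ℝ) = (1024 : ℝ) ^ (1 / 2 : ℝ) := by
          rw [show (1024 : ℝ) = 32 ^ (2 : ℝ) by norm_num, ← Real.rpow_mul (by norm_num)]
          norm_num
      _ ≤ l ^ (1 / 2 : ℝ) := by gcongr
      _ ≤ l ^ (2 / 3 : ℝ) := Real.rpow_le_rpow_of_exponent_le (by linarith) (by norm_num)
  have hV0 : 0 < V := by linarith
  have hV32' : l ≤ V ^ (3 / 2 : ℝ) := by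
    calc l = (l ^ (2 / 3 : ℝ)) ^ (3 / 2 : ℝ) := by
          rw [← Real.rpow_mul hl0.le]
          norm_num
      _ ≤ V ^ (3 / 2 : ℝ) := by gcongr
  have habst : |t| = t := abs_of_nonneg (by linarith)
  have ht1 : 1 ≤ |t| := by rw [habst]; linarith
  have h8V : 0 < 8 / V := by positivity
  have h8V4 : 8 / V ≤ 1 / 4 := by
    rw [div_le_iff₀ hV0]
    linarith
  have hTM := htm (8 / V) t t h8V h8V4 ht1 habst.le
  rw [← hV, ← hl] at hTM
  have hr32 : (8 / V) ^ (3 / 2 : ℝ) * l ≤ 64 := by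
    rw [Real.div_rpow (by norm_num) hV0.le]
    have h1 : (8 : ℝ) ^ (3 / 2 : ℝ) ≤ 64 := by
      calc (8 : ℝ) ^ (3 / 2 : ℝ) ≤ 8 ^ (2 : ℝ) :=
            Real.rpow_le_rpow_of_exponent_le (by norm_num) (by norm_num)
        _ = 64 := by norm_num
    have h2 : 0 < V ^ (3 / 2 : ℝ) := by positivity
    calc (8 : ℝ) ^ (3 / 2 : ℝ) / V ^ (3 / 2 : ℝ) * l
        ≤ 64 / V ^ (3 / 2 : ℝ) * V ^ (3 / 2 : ℝ) := by gcongr
      _ = 64 := by field_simp
  have h8 : 8 / V * V = 8 := by field_simp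
  have hTM' : Pool.Agent.H76.SC.TM (8 / V) (C0 * 73) t := by
    refine hTM.mono ?_
    apply mul_le_mul_of_nonneg_left _ (by linarith)
    rw [h8]
    linarith
  obtain ⟨R, M, hR1, hR2, hR3, hR4, hR5⟩ := hTM'
  obtain ⟨hR0, hlR, hM0⟩ := Pool.Agent.H76.SC.TM.aux h8V hR1 hR2 hR3
  have hMV : M ≤ 10 * C0 * V := by
    have h1 : M * (8 / V) ≤ 73 * C0 := by linarith
    rw [← mul_div_assoc, div_le_iff₀ hV0] at h1
    have h2 : 0 ≤ C0 * V := by positivity
    linarith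
  have hVR : 1 / V ≤ R / 8 := by
    have : 1 / V = 8 / V / 8 := by ring
    rw [this]
    gcongr
  have hV1 : 0 < 1 / V := by positivity
  obtain ⟨a, ha⟩ : ∃ a : ℝ, a = R / 16 := ⟨_, rfl⟩
  have ha0 : 0 < a := by rw [ha]; positivity
  have hgrow := grow_two hR0 hR2 hR3 ht1 hR4 ha
  obtain ⟨S, H, hS1, -, -, -, hS5, hS6⟩ := hmain a (R / 4) t (9 * (M * R)) ha0 (by positivity)
    (by positivity) (fun z hz => hgrow z (by
      have e : (1 + 1) * (R / 4) = R / 2 := by ring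
      rwa [e] at hz))
  have hHB : ∀ z ∈ Metric.closedBall (pt a t) (R / 4), ‖H z‖ ≤ B * V := by
    intro z hz
    refine (hS5 z hz).trans ?_
    have e : C2 * (9 * (M * R)) / (R / 4) = 36 * C2 * M := by
      field_simp
      ring
    rw [e, hB]
    have := mul_le_mul_of_nonneg_left hMV (by positivity : 0 ≤ 36 * C2)
    linarith
  obtain ⟨z, hz⟩ : ∃ z : ℂ, z = (σ : ℂ) + t * I := ⟨_, rfl⟩
  rw [← hz]
  have hzre : z.re = σ := by rw [hz]; simp
  have hzim : z.im = t := by rw [hz]; simp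
  have hcV : c / V ≤ 1 / V := by gcongr; linarith
  have hcV' : c / V ≤ 1 / 4 := by
    rw [div_le_iff₀ hV0]
    linarith
  -- no zero at `z`
  have hzne1 : z ≠ 1 := by
    intro h
    rw [h] at hzim
    simp at hzim
    linarith
  have hz0 : zetaPole z ≠ 0 := by
    intro h
    have h1 := (zetaPole_eq_zero_iff hzne1).1 h
    have h2 := hvk z h1 (by rw [hzre]; linarith)
    rw [hzre, hzim, habst, ← hV] at h2
    have h3 : (1 - σ) * V ≤ c / V * V := by gcongr; linarith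
    rw [div_mul_cancel₀ _ hV0.ne'] at h3
    linarith
  refine ⟨hz0, ?_⟩
  -- the point `z1`
  have hd1 : ∀ b : ℝ, ((1 + b : ℝ) : ℂ) + t * I - pt a t = ((b - a : ℝ) : ℂ) := by
    intro b
    rw [pt]
    push_cast
    ring
  have hz1d : ‖pt (1 / V) t - pt a t‖ ≤ R / 4 := by
    have h : pt (1 / V) t - pt a t = ((1 / V - a : ℝ) : ℂ) := by
      rw [pt, pt]
      push_cast
      ring
    rw [h, Complex.norm_real, Real.norm_eq_abs, abs_le]
    constructor <;> linarith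
  have hzd : ‖z - pt a t‖ ≤ R / 4 := by
    have h : z - pt a t = ((σ - 1 - a : ℝ) : ℂ) := by
      rw [hz, pt]
      push_cast
      ring
    rw [h, Complex.norm_real, Real.norm_eq_abs, abs_le]
    constructor <;> linarith
  have hre1 : (pt (1 / V) t).re = 1 + 1 / V := by rw [pt]; simp
  have hz11 : pt (1 / V) t ∈ Metric.closedBall (pt a t) (R / 4) := by
    rwa [Metric.mem_closedBall, dist_eq_norm]
  have hz12 : pt (1 / V) t ∈ Metric.ball (pt a t) ((1 + 1 / 2) * (R / 4)) := by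
    rw [Metric.mem_ball, dist_eq_norm]
    linarith
  have hz21 : z ∈ Metric.closedBall (pt a t) (R / 4) := by
    rwa [Metric.mem_closedBall, dist_eq_norm]
  have hz22 : z ∈ Metric.ball (pt a t) ((1 + 1 / 2) * (R / 4)) := by
    rw [Metric.mem_ball, dist_eq_norm]
    linarith
  have hne : zetaPole (pt (1 / V) t) ≠ 0 :=
    zetaPole_ne_zero_of_one_le (by rw [hre1]; linarith)
  have hform := hS6 _ hz12 hne
  have hH := hHB _ hz11
  have hneg := Pool.Agent.H6.Win.neg_logDeriv_zetaPole (s := pt (1 / V) t) (by rw [hre1]; linarith)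
  have hL := lser_le hV1 t
  have hV11 : 1 / V ≤ 1 := by linarith
  have hsum : ∑' n : ℕ, dco (1 / V) 0 n ≤ K * V := by
    have h1 : 1 / V * ∑' n : ℕ, dco (1 / V) 0 n ≤ K := by
      refine (dco0_bound hV1).trans ?_
      rw [hK]
      gcongr
    rw [one_div, inv_mul_le_iff₀ hV0] at h1
    simp only [one_div] at h1 ⊢
    linarith
  have hone : ‖1 / (pt (1 / V) t - 1)‖ ≤ 1 := by
    have h := Complex.abs_im_le_norm (pt (1 / V) t - 1)
    have hcim : (pt (1 / V) t - 1).im = t := by rw [pt]; simp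
    rw [hcim] at h
    rw [norm_div, norm_one, div_le_one (by linarith)]
    linarith
  have hquot : ‖deriv zetaPole (pt (1 / V) t) / zetaPole (pt (1 / V) t)‖ ≤ K * V + 1 := by
    rw [← norm_neg, hneg]
    refine (norm_sub_le _ _).trans ?_
    exact add_le_add (hL.trans hsum) hone
  have hresum : ∀ w : ℂ, (∑ u ∈ S, (zord u : ℂ) / (w - u)).re =
      ∑ u ∈ S, (zord u : ℝ) * (1 / (w - u)).re := by
    intro w
    rw [Complex.re_sum]
    refine Finset.sum_congr rfl fun u _ => ?_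
    have e : (zord u : ℂ) / (w - u) = ((zord u : ℝ) : ℂ) * (1 / (w - u)) := by
      push_cast
      ring
    rw [e, Complex.re_ofReal_mul]
  have hSsum : ∑ u ∈ S, (zord u : ℝ) * (1 / (pt (1 / V) t - u)).re ≤ K * V + 1 + B * V := by
    have h1 : ∑ u ∈ S, (zord u : ℂ) / (pt (1 / V) t - u) =
        deriv zetaPole (pt (1 / V) t) / zetaPole (pt (1 / V) t) - H (pt (1 / V) t) := by
      rw [hform]
      ring
    rw [← hresum, h1]
    refine (Complex.re_le_norm _).trans ((norm_sub_le _ _).trans ?_)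
    exact add_le_add hquot hH
  -- comparison of the terms
  have hterm : ∀ u ∈ S, (zord u : ℝ) * (1 / (z - u)).re ≤
      Q ^ 2 * ((zord u : ℝ) * (1 / (pt (1 / V) t - u)).re) := by
    intro u hu
    obtain ⟨hu1, hu2⟩ := (hS1 u).1 hu
    rw [Metric.mem_closedBall, dist_eq_norm] at hu1
    have hune : u ≠ 1 := by
      intro h1
      rw [h1] at hu2
      exact zetaPole_ne_zero_of_one_le (by simp) hu2
    have huz : riemannZeta u = 0 := (zetaPole_eq_zero_iff hune).1 hu2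
    have hult := re_lt_one huz
    have hure : 0 < u.re := by
      have h1 := Complex.abs_re_le_norm (u - pt a t)
      have h2 : (u - pt a t).re = u.re - 1 - a := by
        rw [Complex.sub_re, pt]
        simp
        ring
      rw [h2] at h1
      have h3 := (abs_le.1 (h1.trans hu1)).1
      linarith
    have huim : |u.im| ≤ t + 1 := by
      have h1 := Complex.abs_im_le_norm (u - pt a t)
      have h2 : (u - pt a t).im = u.im - t := by
        rw [Complex.sub_im, pt]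
        simp
      rw [h2] at h1
      have h3 := abs_le.1 (h1.trans hu1)
      rw [abs_le]
      constructor <;> linarith [h3.1, h3.2]
    have h1 := hvk u huz hure
    have h2 : vklam |u.im| ≤ 2 * V := by
      rw [hV]
      exact (vklam_mono (abs_nonneg _) huim).trans (vklam_succ (by linarith))
    have h3 : c1 ≤ (1 - u.re) * (2 * V) := by
      refine h1.trans ?_
      apply mul_le_mul_of_nonneg_left h2
      linarith
    have h4 : c1 / (2 * V) ≤ 1 - u.re := by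
      rw [div_le_iff₀ (by positivity)]
      exact h3
    have h5 : c1 / (4 * V) ≤ σ - u.re := by
      have e1 : c / V ≤ c1 / 4 / V := by gcongr
      have e2 : c1 / (2 * V) = c1 / (4 * V) + c1 / 4 / V := by
        field_simp
        ring
      linarith
    have h6 : 0 < c1 / (4 * V) := by positivity
    have hzu : (z - u).re = σ - u.re := by rw [Complex.sub_re, hzre]
    have hz1u : (pt (1 / V) t - u).re = 1 + 1 / V - u.re := by rw [Complex.sub_re, hre1]
    have hn1 : c1 / (4 * V) ≤ ‖z - u‖ := by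
      refine h5.trans ?_
      rw [← hzu]
      exact Complex.re_le_norm _
    have hn0 : 0 < ‖z - u‖ := h6.trans_le hn1
    have hn2 : 2 / V ≤ 8 / c1 * ‖z - u‖ := by
      calc 2 / V = 8 / c1 * (c1 / (4 * V)) := by
            field_simp
            norm_num
        _ ≤ 8 / c1 * ‖z - u‖ := by gcongr
    have hn3 : ‖pt (1 / V) t - u‖ ≤ Q * ‖z - u‖ := by
      have e1 : pt (1 / V) t - z = ((1 + 1 / V - σ : ℝ) : ℂ) := by
        rw [hz, pt]
        push_cast
        ring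
      have e2 : ‖pt (1 / V) t - z‖ ≤ 2 / V := by
        rw [e1, Complex.norm_real, Real.norm_of_nonneg (by linarith)]
        have e3 : 2 / V = 1 / V + 1 / V := by ring
        linarith
      calc ‖pt (1 / V) t - u‖ = ‖(pt (1 / V) t - z) + (z - u)‖ := by congr 1; ring
        _ ≤ ‖pt (1 / V) t - z‖ + ‖z - u‖ := norm_add_le _ _
        _ ≤ 8 / c1 * ‖z - u‖ + ‖z - u‖ := by linarith
        _ = Q * ‖z - u‖ := by rw [hQ]; ring
    have hn4 : 0 < ‖pt (1 / V) t - u‖ := by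
      rw [norm_pos_iff]
      intro h
      rw [h, Complex.zero_re] at hz1u
      linarith
    have hmainu : (1 / (z - u)).re ≤ Q ^ 2 * (1 / (pt (1 / V) t - u)).re := by
      rw [re_inv, re_inv, hzu, hz1u, ← mul_div_assoc, div_le_div_iff₀ (by positivity)
        (by positivity)]
      have e1 : ‖pt (1 / V) t - u‖ ^ 2 ≤ (Q * ‖z - u‖) ^ 2 := by gcongr
      calc (σ - u.re) * ‖pt (1 / V) t - u‖ ^ 2
          ≤ (1 + 1 / V - u.re) * (Q * ‖z - u‖) ^ 2 := by
            apply mul_le_mul _ e1 (by positivity) (by linarith)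
            linarith
        _ = Q ^ 2 * (1 + 1 / V - u.re) * ‖z - u‖ ^ 2 := by ring
    calc (zord u : ℝ) * (1 / (z - u)).re
        ≤ (zord u : ℝ) * (Q ^ 2 * (1 / (pt (1 / V) t - u)).re) := by gcongr
      _ = _ := by ring
  have hfz := hS6 _ hz22 hz0
  rw [hfz, Complex.add_re, hresum]
  have hHz := (Complex.re_le_norm _).trans (hHB _ hz21)
  have hs := (Finset.sum_le_sum hterm).trans_eq (Finset.mul_sum _ _ _).symm
  have hs2 : Q ^ 2 * ∑ u ∈ S, (zord u : ℝ) * (1 / (pt (1 / V) t - u)).re ≤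
      Q ^ 2 * (K * V + 1 + B * V) := by gcongr
  have hs3 : Q ^ 2 * (K * V + 1 + B * V) ≤ Q ^ 2 * ((K + 1 + B) * V) := by
    gcongr
    nlinarith
  linarith

end Pool.Agent.H48.RZ
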