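import Mathlib
import Pool.Agent.H48.RZ.ShA

/-!
# ShB: from `1 + 1/V` to `1 - c/V`

`g(x) = log normSq (zetaPole (x + it))` on `[σ, 1 + 1/V]`: derivative `2 Re zetaPole'/zetaPole (x + it) ≤ 2 C V`; mean value
inequality.  Then `zetaPole z = (z - 1) ζ(z)`.
-/

set_option autoImplicit false

open Complex

namespace Pool.Agent.H48.RZ

open Pool.Agent.H6 Pool.Agent.H76.CR Pool.Agent.H52.ZR

/-- the logarithm of the squared norm along a horizontal line -/
private lemma logn {f : ℂ → ℂ} (hf : Differentiable ℂ f) {t x : ℝ} (h : f (x + t * I) ≠ 0) :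
    HasDerivAt (fun x : ℝ => Real.log (Complex.normSq (f (x + t * I))))
      (2 * (deriv f (x + t * I) / f (x + t * I)).re) x := by
  have hl : HasDerivAt (fun y : ℝ => (y : ℂ) + t * I) 1 x := by
    have := (Complex.ofRealCLM.hasDerivAt (x := x)).add_const ((t : ℂ) * I)
    simpa using this
  have h1 : HasDerivAt (fun y : ℝ => f (y + t * I)) (deriv f (x + t * I)) x := by
    have h2 := (hf.differentiableAt (x := (x : ℂ) + t * I)).hasDerivAt.comp_of_eq x hl rfl
    rw [mul_one] at h2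
    exact h2
  have hre : HasDerivAt (fun y : ℝ => (f (y + t * I)).re) (deriv f (x + t * I)).re x :=
    Complex.reCLM.hasFDerivAt.comp_hasDerivAt x h1
  have him : HasDerivAt (fun y : ℝ => (f (y + t * I)).im) (deriv f (x + t * I)).im x :=
    Complex.imCLM.hasFDerivAt.comp_hasDerivAt x h1
  have hn : HasDerivAt (fun y : ℝ => Complex.normSq (f (y + t * I)))
      (2 * ((deriv f (x + t * I)).re * (f (x + t * I)).re +
        (deriv f (x + t * I)).im * (f (x + t * I)).im)) x := by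
    have h2 := (hre.mul hre).add (him.mul him)
    have e : (fun y : ℝ => Complex.normSq (f (y + t * I))) = fun y : ℝ =>
        (f (y + t * I)).re * (f (y + t * I)).re + (f (y + t * I)).im * (f (y + t * I)).im := by
      funext y
      rw [Complex.normSq_apply]
    rw [e]
    refine h2.congr_deriv ?_
    ring
  have h0 : Complex.normSq (f (x + t * I)) ≠ 0 := by
    rwa [Ne, Complex.normSq_eq_zero]
  refine (hn.log h0).congr_deriv ?_
  rw [Complex.div_re]
  ring

theorem shB : ∃ c C t0 : ℝ, 0 < c ∧ 1 ≤ C ∧ 3 ≤ t0 ∧ ∀ t σ : ℝ, t0 ≤ t → 1 - c / vklam t ≤ σ →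
    σ ≤ 1 + 1 / vklam t →
    ‖riemannZeta (1 + 1 / vklam t + t * I)‖ ≤ C * ‖riemannZeta (σ + t * I)‖ := by
  obtain ⟨c1, C1, t0, hc1, hC1, ht0, h⟩ := shA
  obtain ⟨c, hc⟩ : ∃ c : ℝ, c = min c1 1 := ⟨_, rfl⟩
  have hc0 : 0 < c := by rw [hc]; exact lt_min hc1 one_pos
  have hcc : c ≤ c1 := hc ▸ min_le_left _ _
  have hc1' : c ≤ 1 := hc ▸ min_le_right _ _
  refine ⟨c, 2 * Real.exp (2 * C1), t0, hc0, ?_, ht0, ?_⟩
  · have : 1 ≤ Real.exp (2 * C1) := Real.one_le_exp (by linarith)
    linarith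
  intro t σ ht hσ1 hσ2
  have ht3 : 3 ≤ t := ht0.trans ht
  have hV1 : 1 ≤ vklam t := vklam_ge (by linarith)
  have hV0 : 0 < vklam t := by linarith
  set V : ℝ := vklam t with hV
  have hcV : c / V ≤ c1 / V := div_le_div_of_nonneg_right hcc hV0.le
  have hcV1 : c / V ≤ 1 := by rw [div_le_one hV0]; linarith
  have hV1' : 1 / V ≤ 1 := by rw [div_le_one hV0]; exact hV1
  have hVp : 0 < 1 / V := by positivity
  have hcVp : 0 < c / V := by positivity
  have hdiff : Differentiable ℂ zetaPole := zetaPole_differentiable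
  have hIn : ∀ x ∈ Set.Icc σ (1 + 1 / V), zetaPole (x + t * I) ≠ 0 ∧
      (deriv zetaPole (x + t * I) / zetaPole (x + t * I)).re ≤ C1 * V := by
    intro x hx
    exact h t x ht (by linarith [hx.1]) hx.2
  have hder : ∀ x ∈ Set.Icc σ (1 + 1 / V),
      HasDerivAt (fun x : ℝ => Real.log (Complex.normSq (zetaPole (x + t * I))))
      (2 * (deriv zetaPole (x + t * I) / zetaPole (x + t * I)).re) x :=
    fun x hx => logn hdiff (hIn x hx).1
  have hmv := Convex.image_sub_le_mul_sub_of_deriv_le (convex_Icc σ (1 + 1 / V))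
    (f := fun x : ℝ => Real.log (Complex.normSq (zetaPole (x + t * I)))) (C := 2 * (C1 * V))
    (fun x hx => (hder x hx).continuousAt.continuousWithinAt)
    (fun x hx => (hder x (interior_subset hx)).differentiableAt.differentiableWithinAt)
    (fun x hx => by
      rw [(hder x (interior_subset hx)).deriv]
      linarith [(hIn x (interior_subset hx)).2])
    σ (Set.left_mem_Icc.2 hσ2) (1 + 1 / V) (Set.right_mem_Icc.2 hσ2) hσ2
  have hlen : 2 * (C1 * V) * (1 + 1 / V - σ) ≤ 4 * C1 := by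
    have h1 : V * (1 + 1 / V - σ) ≤ 2 := by
      have h2 : 1 + 1 / V - σ ≤ 2 / V := by
        have : c / V ≤ 1 / V := div_le_div_of_nonneg_right hc1' hV0.le
        have e : 2 / V = 1 / V + 1 / V := by ring
        rw [e]
        linarith
      calc V * (1 + 1 / V - σ) ≤ V * (2 / V) := mul_le_mul_of_nonneg_left h2 hV0.le
        _ = 2 := by field_simp
    have h3 : 0 ≤ 2 * C1 := by linarith
    calc 2 * (C1 * V) * (1 + 1 / V - σ) = 2 * C1 * (V * (1 + 1 / V - σ)) := by ring
      _ ≤ 2 * C1 * 2 := mul_le_mul_of_nonneg_left h1 h3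
      _ = 4 * C1 := by ring
  set zb : ℂ := ((1 + 1 / V : ℝ) : ℂ) + t * I with hzb
  set zs : ℂ := (σ : ℂ) + t * I with hzs
  have hPs : 0 < ‖zetaPole zs‖ := norm_pos_iff.2 (hIn σ (Set.left_mem_Icc.2 hσ2)).1
  have hPb : 0 < ‖zetaPole zb‖ := norm_pos_iff.2 (hIn (1 + 1 / V) (Set.right_mem_Icc.2 hσ2)).1
  have hlog : Real.log ‖zetaPole zb‖ ≤ Real.log ‖zetaPole zs‖ + 2 * C1 := by
    have e1 : Real.log (Complex.normSq (zetaPole zb)) = 2 * Real.log ‖zetaPole zb‖ := by
      rw [Complex.normSq_eq_norm_sq, Real.log_pow]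
      norm_num
    have e2 : Real.log (Complex.normSq (zetaPole zs)) = 2 * Real.log ‖zetaPole zs‖ := by
      rw [Complex.normSq_eq_norm_sq, Real.log_pow]
      norm_num
    rw [e1, e2] at hmv
    linarith
  have hP : ‖zetaPole zb‖ ≤ Real.exp (2 * C1) * ‖zetaPole zs‖ := by
    have e := Real.exp_le_exp.2 hlog
    rw [Real.exp_add, Real.exp_log hPb, Real.exp_log hPs] at e
    linarith
  -- back to zeta
  have hbim : (zb - 1).im = t := by simp [hzb]
  have hbt : t ≤ ‖zb - 1‖ := by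
    have := Complex.abs_im_le_norm (zb - 1)
    rw [hbim, abs_of_pos (by linarith)] at this
    exact this
  have hst : ‖zs - 1‖ ≤ 1 + t := by
    have e : zs - 1 = ((σ - 1 : ℝ) : ℂ) + t * I := by rw [hzs]; push_cast; ring
    rw [e]
    refine (norm_add_le _ _).trans ?_
    rw [Complex.norm_real, norm_mul, Complex.norm_I, mul_one, Complex.norm_real, Real.norm_eq_abs,
      Real.norm_of_nonneg (by linarith : 0 ≤ t)]
    have : |σ - 1| ≤ 1 := by
      rw [abs_le]
      constructor <;> linarith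
    linarith
  have hb1 : zb ≠ 1 := by
    intro hcon
    rw [hcon, sub_self, norm_zero] at hbt
    linarith
  have hs1 : zs ≠ 1 := by
    intro hcon
    have : (zs - 1).im = t := by simp [hzs]
    rw [hcon, sub_self, Complex.zero_im] at this
    linarith
  rw [zetaPole_of_ne hb1, zetaPole_of_ne hs1, norm_mul, norm_mul] at hP
  have e3 : (1 + 1 / (V : ℂ) + t * I : ℂ) = zb := by rw [hzb]; push_cast; ring
  rw [e3]
  have hz0 : 0 ≤ ‖riemannZeta zs‖ := norm_nonneg _
  have hzb0 : 0 ≤ ‖riemannZeta zb‖ := norm_nonneg _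
  have h5 : t * ‖riemannZeta zb‖ ≤ t * (2 * Real.exp (2 * C1) * ‖riemannZeta zs‖) := by
    calc t * ‖riemannZeta zb‖ ≤ ‖zb - 1‖ * ‖riemannZeta zb‖ := mul_le_mul_of_nonneg_right hbt hzb0
      _ ≤ Real.exp (2 * C1) * (‖zs - 1‖ * ‖riemannZeta zs‖) := hP
      _ ≤ Real.exp (2 * C1) * ((2 * t) * ‖riemannZeta zs‖) := by
          have : ‖zs - 1‖ ≤ 2 * t := by linarith
          gcongr
      _ = t * (2 * Real.exp (2 * C1) * ‖riemannZeta zs‖) := by ring
  exact le_of_mul_le_mul_left h5 (by linarith)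

end Pool.Agent.H48.RZ
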