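import Mathlib
import Pool.Agent.H48.RZ.MnB
import Pool.Agent.H48.RZ.ShB
import Pool.Agent.H48.RZ.Scale

/-!
# FinB: zeta at the line `Re s = 1` against its value at `1 + 1/Y`
-/

set_option autoImplicit false

open Complex

namespace Pool.Agent.H48.RZ

open Pool.Agent.H52.ZR

/-- comparison of the scales for `loglog t ≥ 1` -/
theorem scales {t : ℝ} (ht : 3 ≤ t) (hl : 1 ≤ Real.log (Real.log t)) :
    Real.log t ^ (2 / 3 : ℝ) ≤ vklam t ∧ vklam t ≤ 4 * VK t := by
  obtain ⟨h1, -⟩ := loglog3 ht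
  have hl0 : 0 < Real.log t := by linarith
  have h3 : Real.log t ≤ Real.log (t + 3) := Real.log_le_log (by linarith) (by linarith)
  have h4 : Real.log (t + 3) ≤ 2 * Real.log t := by
    have := Real.log_le_log (by linarith : 0 < t + 3) (by nlinarith : t + 3 ≤ t ^ 2)
    rw [Real.log_pow] at this
    push_cast at this
    exact this
  have h5 : Real.log (Real.log t) ≤ Real.log (Real.log (t + 3)) := Real.log_le_log hl0 h3
  have h6 : Real.log (Real.log (t + 3)) ≤ Real.log 2 + Real.log (Real.log t) := by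
    rw [← Real.log_mul (by norm_num) hl0.ne']
    exact Real.log_le_log (by linarith) h4
  have hl2 : Real.log 2 ≤ 1 := by linarith [Real.log_two_lt_d9]
  unfold vklam VK
  constructor
  · have e1 : Real.log t ^ (2 / 3 : ℝ) ≤ Real.log (t + 3) ^ (2 / 3 : ℝ) :=
      Real.rpow_le_rpow hl0.le h3 (by norm_num)
    have e2 : 1 ≤ (1 + Real.log (Real.log (t + 3))) ^ (1 / 3 : ℝ) :=
      Real.one_le_rpow (by linarith) (by norm_num)
    have e3 : 0 ≤ Real.log (t + 3) ^ (2 / 3 : ℝ) := Real.rpow_nonneg (by linarith) _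
    calc Real.log t ^ (2 / 3 : ℝ) ≤ Real.log (t + 3) ^ (2 / 3 : ℝ) * 1 := by linarith
      _ ≤ _ := mul_le_mul_of_nonneg_left e2 e3
  · have e1 : Real.log (t + 3) ^ (2 / 3 : ℝ) ≤ 2 ^ (2 / 3 : ℝ) * Real.log t ^ (2 / 3 : ℝ) := by
      rw [← Real.mul_rpow (by norm_num) hl0.le]
      exact Real.rpow_le_rpow (by linarith) h4 (by norm_num)
    have e2 : (1 + Real.log (Real.log (t + 3))) ^ (1 / 3 : ℝ) ≤
        4 ^ (1 / 3 : ℝ) * Real.log (Real.log t) ^ (1 / 3 : ℝ) := by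
      rw [← Real.mul_rpow (by norm_num) (by linarith)]
      exact Real.rpow_le_rpow (by linarith) (by linarith) (by norm_num)
    have e3 : (2 : ℝ) ^ (2 / 3 : ℝ) * 4 ^ (1 / 3 : ℝ) ≤ 4 := by
      have e4 : (4 : ℝ) ^ (1 / 3 : ℝ) = 2 ^ (2 / 3 : ℝ) := by
        rw [show (4 : ℝ) = 2 ^ (2 : ℝ) by norm_num, ← Real.rpow_mul (by norm_num)]
        norm_num
      rw [e4, ← Real.rpow_add (by norm_num)]
      calc (2 : ℝ) ^ (2 / 3 + 2 / 3 : ℝ) ≤ 2 ^ (2 : ℝ) :=
            Real.rpow_le_rpow_of_exponent_le (by norm_num) (by norm_num)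
        _ = 4 := by norm_num
    have p1 : 0 ≤ Real.log t ^ (2 / 3 : ℝ) := by positivity
    have p2 : 0 ≤ Real.log (Real.log t) ^ (1 / 3 : ℝ) := Real.rpow_nonneg (by linarith) _
    have p3 : 0 ≤ (1 + Real.log (Real.log (t + 3))) ^ (1 / 3 : ℝ) :=
      Real.rpow_nonneg (by linarith) _
    calc Real.log (t + 3) ^ (2 / 3 : ℝ) * (1 + Real.log (Real.log (t + 3))) ^ (1 / 3 : ℝ)
        ≤ (2 ^ (2 / 3 : ℝ) * Real.log t ^ (2 / 3 : ℝ)) *
          (4 ^ (1 / 3 : ℝ) * Real.log (Real.log t) ^ (1 / 3 : ℝ)) :=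
          mul_le_mul e1 e2 p3 (by positivity)
      _ = (2 ^ (2 / 3 : ℝ) * 4 ^ (1 / 3 : ℝ)) *
          (Real.log t ^ (2 / 3 : ℝ) * Real.log (Real.log t) ^ (1 / 3 : ℝ)) := by ring
      _ ≤ 4 * (Real.log t ^ (2 / 3 : ℝ) * Real.log (Real.log t) ^ (1 / 3 : ℝ)) :=
          mul_le_mul_of_nonneg_right e3 (by positivity)

/-- a height from which on `loglog t` is large -/
theorem big_height (N : ℝ) : ∃ t0 : ℝ, 3 ≤ t0 ∧ ∀ t : ℝ, t0 ≤ t → 1 ≤ Real.log (Real.log t) ∧
    N ≤ Real.log (Real.log t) := by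
  refine ⟨max 3 (Real.exp (Real.exp (max 1 N))), le_max_left _ _, fun t ht => ?_⟩
  have h1 : Real.exp (Real.exp (max 1 N)) ≤ t := (le_max_right _ _).trans ht
  have h2 : Real.exp (max 1 N) ≤ Real.log t := by
    rw [Real.le_log_iff_exp_le (lt_of_lt_of_le (Real.exp_pos _) h1)]
    exact h1
  have h3 : max 1 N ≤ Real.log (Real.log t) := by
    rw [Real.le_log_iff_exp_le (lt_of_lt_of_le (Real.exp_pos _) h2)]
    exact h2
  exact ⟨(le_max_left _ _).trans h3, (le_max_right _ _).trans h3⟩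

theorem finB : ∃ c : ℝ, 0 < c ∧ ∀ ε : ℝ, 0 < ε → ∃ t0 : ℝ, ∀ t Y σ : ℝ, t0 ≤ t →
    Y = Real.log t ^ (2 / 3 : ℝ) → 1 - c / VK t ≤ σ → σ ≤ 1 + 1 / Y →
    ‖riemannZeta (1 + 1 / Y + t * I)‖ ≤ Real.log (Real.log t) ^ (2 / (3 * Real.pi) + ε) *
      (2 + Y * ‖riemannZeta (1 + 1 / Y + t * I)‖) ^ ε * ‖riemannZeta (σ + t * I)‖ := by
  obtain ⟨c1, C1, t1, hc1, hC1, ht1, hsh⟩ := shB
  refine ⟨c1 / 4, by positivity, fun ε hε => ?_⟩
  obtain ⟨C2, t2, hC2, ht2, hmn⟩ := mnB hε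
  have hpi := Real.pi_pos
  have hpe : 0 < 2 / Real.pi + ε := by positivity
  obtain ⟨K, hK⟩ : ∃ K : ℝ, K = C1 * Real.exp (C2 + (2 / Real.pi + ε) * Real.log 4) := ⟨_, rfl⟩
  have hK0 : 0 < K := by rw [hK]; positivity
  obtain ⟨t3, ht3, hbig⟩ := big_height (K ^ (1 / (2 / 3 * ε)))
  refine ⟨max (max t1 t2) t3, ?_⟩
  intro t Y σ ht hY hσ1 hσ2
  have htt1 : t1 ≤ t := ((le_max_left _ _).trans (le_max_left _ _)).trans ht
  have htt2 : t2 ≤ t := ((le_max_right _ _).trans (le_max_left _ _)).trans ht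
  have htt3 : t3 ≤ t := (le_max_right _ _).trans ht
  have ht3' : 3 ≤ t := ht3.trans htt3
  obtain ⟨hll1, hllN⟩ := hbig t htt3
  obtain ⟨hs1, hs2⟩ := scales ht3' hll1
  rw [← hY] at hs1
  obtain ⟨hl1, -⟩ := loglog3 ht3'
  have hl0 : 0 < Real.log t := by linarith
  have hll0 : 0 < Real.log (Real.log t) := by linarith
  have hY1 : 1 ≤ Y := by
    rw [hY]
    exact Real.one_le_rpow hl1 (by norm_num)
  have hY0 : 0 < Y := by linarith
  have hV1 : 1 ≤ vklam t := vklam_ge (by linarith)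
  have hV0 : 0 < vklam t := by linarith
  have hVK0 := VK_pos ht3'
  set Z : ℝ := ‖riemannZeta (1 + 1 / Y + t * I)‖ with hZ
  set m : ℝ := Real.log (Real.log t) with hm
  have hZ0 : 0 < Z := by
    rw [hZ, norm_pos_iff]
    apply riemannZeta_ne_zero_of_one_lt_re
    have e : (1 + 1 / Y + t * I : ℂ) = ((1 + 1 / Y : ℝ) : ℂ) + t * I := by push_cast; ring
    rw [e]
    have : 0 < 1 / Y := by positivity
    simp
    positivity
  -- the ratio of the scales
  have hratio : vklam t / Y ≤ 4 * m ^ (1 / 3 : ℝ) := by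
    rw [div_le_iff₀ hY0]
    refine hs2.trans (le_of_eq ?_)
    unfold VK
    rw [hY, hm]
    ring
  have hKm : K ≤ m ^ (2 / 3 * ε) := by
    have h1 := Real.rpow_le_rpow (by positivity) hllN (by positivity : 0 ≤ 2 / 3 * ε)
    rw [← Real.rpow_mul hK0.le, one_div_mul_cancel (by positivity), Real.rpow_one] at h1
    exact h1
  -- from `X` in `[Y, V]`
  have key : ∀ X : ℝ, Y ≤ X → X ≤ vklam t →
      ‖riemannZeta (1 + 1 / X + t * I)‖ ≤ C1 * ‖riemannZeta (σ + t * I)‖ →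
      Z ≤ m ^ (2 / (3 * Real.pi) + ε) * (2 + Y * Z) ^ ε * ‖riemannZeta (σ + t * I)‖ := by
    intro X hX1 hX2 hX3
    have hX0 : 0 < X := by linarith
    have h1 := hmn t X Y htt2 hY hX1
    rw [← hZ] at h1
    have hne : 0 < ‖riemannZeta (1 + 1 / X + t * I)‖ := by
      rw [norm_pos_iff]
      apply riemannZeta_ne_zero_of_one_lt_re
      have e : (1 + 1 / X + t * I : ℂ) = ((1 + 1 / X : ℝ) : ℂ) + t * I := by push_cast; ring
      rw [e]
      have : 0 < 1 / X := by positivity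
      simp
      positivity
    have h2 : Real.log (X / Y) ≤ Real.log 4 + 1 / 3 * Real.log m := by
      have e1 : X / Y ≤ 4 * m ^ (1 / 3 : ℝ) := (div_le_div_of_nonneg_right hX2 hY0.le).trans hratio
      have e2 := Real.log_le_log (by positivity) e1
      rwa [Real.log_mul (by norm_num) (by positivity), Real.log_rpow hll0] at e2
    have h3 : max 0 (Real.log (Y * Z)) ≤ Real.log (2 + Y * Z) := by
      have p : 0 < Y * Z := by positivity
      refine max_le (Real.log_nonneg (by linarith)) (Real.log_le_log p (by linarith))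
    have h4 : (2 / Real.pi + ε) * Real.log (X / Y) ≤
        (2 / Real.pi + ε) * Real.log 4 + (2 / Real.pi + ε) * (1 / 3) * Real.log m := by
      calc (2 / Real.pi + ε) * Real.log (X / Y) ≤ (2 / Real.pi + ε) * (Real.log 4 + 1 / 3 * Real.log m) :=
            mul_le_mul_of_nonneg_left h2 hpe.le
        _ = _ := by ring
    have h5 : ε * max 0 (Real.log (Y * Z)) ≤ ε * Real.log (2 + Y * Z) :=
      mul_le_mul_of_nonneg_left h3 hε.le
    have h6 : Real.log Z ≤ Real.log ‖riemannZeta (1 + 1 / X + t * I)‖ +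
        (C2 + (2 / Real.pi + ε) * Real.log 4) + (2 / Real.pi + ε) * (1 / 3) * Real.log m +
          ε * Real.log (2 + Y * Z) := by linarith
    have hp : 0 < 2 + Y * Z := by positivity
    have h7 : Z ≤ ‖riemannZeta (1 + 1 / X + t * I)‖ * Real.exp (C2 + (2 / Real.pi + ε) * Real.log 4) *
        m ^ ((2 / Real.pi + ε) * (1 / 3)) * (2 + Y * Z) ^ ε := by
      have e := Real.exp_le_exp.2 h6
      rw [Real.exp_add, Real.exp_add, Real.exp_add, Real.exp_log hZ0, Real.exp_log hne] at e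
      rw [Real.rpow_def_of_pos hll0, Real.rpow_def_of_pos hp]
      rw [mul_comm (Real.log m), mul_comm (Real.log (2 + Y * Z))]
      exact e
    have hW0 : 0 ≤ ‖riemannZeta (σ + t * I)‖ := norm_nonneg _
    have hm1 : 0 < m ^ ((2 / Real.pi + ε) * (1 / 3)) := Real.rpow_pos_of_pos hll0 _
    have hm2 : 0 < (2 + Y * Z) ^ ε := Real.rpow_pos_of_pos hp _
    calc Z ≤ ‖riemannZeta (1 + 1 / X + t * I)‖ * Real.exp (C2 + (2 / Real.pi + ε) * Real.log 4) *
        m ^ ((2 / Real.pi + ε) * (1 / 3)) * (2 + Y * Z) ^ ε := h7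
      _ ≤ (C1 * ‖riemannZeta (σ + t * I)‖) * Real.exp (C2 + (2 / Real.pi + ε) * Real.log 4) *
        m ^ ((2 / Real.pi + ε) * (1 / 3)) * (2 + Y * Z) ^ ε := by gcongr
      _ = K * m ^ ((2 / Real.pi + ε) * (1 / 3)) * (2 + Y * Z) ^ ε * ‖riemannZeta (σ + t * I)‖ := by
        rw [hK]
        ring
      _ ≤ m ^ (2 / 3 * ε) * m ^ ((2 / Real.pi + ε) * (1 / 3)) * (2 + Y * Z) ^ ε *
          ‖riemannZeta (σ + t * I)‖ := by gcongr
      _ = m ^ (2 / (3 * Real.pi) + ε) * (2 + Y * Z) ^ ε * ‖riemannZeta (σ + t * I)‖ := by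
        rw [← Real.rpow_add hll0]
        congr 3
        field_simp
        ring
  rcases le_or_gt σ (1 + 1 / vklam t) with hσV | hσV
  · apply key (vklam t) hs1 le_rfl
    apply hsh t σ htt1 _ hσV
    have e : c1 / 4 / VK t ≤ c1 / vklam t := by
      rw [div_div, div_le_div_iff₀ (by positivity) hV0]
      nlinarith
    linarith
  · have hσ0 : 0 < σ - 1 := by
      have : 0 < 1 / vklam t := by positivity
      linarith
    have e1 : (1 + 1 / ((1 / (σ - 1) : ℝ) : ℂ) + t * I : ℂ) = σ + t * I := by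
      push_cast
      rw [one_div_one_div]
      ring
    apply key (1 / (σ - 1))
    · rw [le_div_iff₀ hσ0]
      have : Y * (σ - 1) ≤ Y * (1 / Y) := mul_le_mul_of_nonneg_left (by linarith) hY0.le
      rwa [mul_one_div_cancel hY0.ne'] at this
    · rw [div_le_iff₀ hσ0]
      have : vklam t * (1 / vklam t) ≤ vklam t * (σ - 1) :=
        mul_le_mul_of_nonneg_left (by linarith) hV0.le
      rwa [mul_one_div_cancel hV0.ne'] at this
    · rw [e1]
      have := norm_nonneg (riemannZeta (σ + t * I))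
      nlinarith

end Pool.Agent.H48.RZ
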