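import Mathlib

/-!
# Inv: the trivial lower bound

PROOF.  `‖ζ(s)⁻¹‖ ≤ ∑ n^(-σ) = ζ(σ) ≤ σ/(σ - 1) = 1 + 1/(σ - 1)`.  (`norm_inv_riemannZeta_le` in `H6/Win`, see the private
lemmas `tsum_le`, `low` in `H48/LD/Cnt.lean` for `a = σ - 1 ≤ 1` with constant `18`; for `σ ≥ 2`: `‖ζ(s)⁻¹‖ ≤ ζ(2) ≤ 18`.)
About 50 lines.
-/

set_option autoImplicit false

open Complex

namespace Pool.Agent.H48.RZ

private lemma sum_range_le {x : ℝ} (hx : 1 < x) (N : ℕ) :
    ∑ i ∈ Finset.range (N + 2), 1 / (i : ℝ) ^ x ≤ 1 + 1 / (x - 1) := by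
  have hanti : AntitoneOn (fun y : ℝ => y ^ (-x)) (Set.Icc 1 (1 + (N : ℝ))) := by
    intro a ha b hb hab
    exact Real.rpow_le_rpow_of_nonpos (by linarith [ha.1]) hab (by linarith)
  have h1 := hanti.sum_le_integral
  have h0 : (0 : ℝ) ∉ Set.uIcc (1 : ℝ) (1 + N) := by
    rw [Set.uIcc_of_le (by linarith [Nat.cast_nonneg (α := ℝ) N])]
    intro h
    linarith [h.1]
  rw [integral_rpow (Or.inr ⟨by linarith, h0⟩), Real.one_rpow] at h1
  have h2 : ((1 + (N : ℝ)) ^ (-x + 1) - 1) / (-x + 1) ≤ 1 / (x - 1) := by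
    have h3 : ((1 + (N : ℝ)) ^ (-x + 1) - 1) / (-x + 1) = (1 - (1 + (N : ℝ)) ^ (-x + 1)) / (x - 1) := by
      rw [← neg_div_neg_eq]
      congr 1 <;> ring
    rw [h3]
    have h4 : 0 ≤ (1 + (N : ℝ)) ^ (-x + 1) := Real.rpow_nonneg (by positivity) _
    exact div_le_div_of_nonneg_right (by linarith) (by linarith)
  rw [Finset.sum_range_succ', Finset.sum_range_succ']
  have h5 : ∑ k ∈ Finset.range N, 1 / (((k + 1 + 1 : ℕ) : ℝ)) ^ x =
      ∑ i ∈ Finset.range N, (1 + ((i + 1 : ℕ) : ℝ)) ^ (-x) := by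
    refine Finset.sum_congr rfl fun i _ => ?_
    rw [Real.rpow_neg (by positivity), one_div]
    congr 2
    push_cast
    ring
  rw [h5]
  have h6 : (1 : ℝ) / ((0 + 1 : ℕ) : ℝ) ^ x = 1 := by simp
  have h7 : (1 : ℝ) / ((0 : ℕ) : ℝ) ^ x = 0 := by
    rw [Nat.cast_zero, Real.zero_rpow (by linarith), div_zero]
  rw [h6, h7]
  linarith

private lemma tsum_le' {x : ℝ} (hx : 1 < x) :
    ∑' n : ℕ, 1 / (n : ℝ) ^ x ≤ 1 + 1 / (x - 1) := by
  refine Real.tsum_le_of_sum_range_le (fun n => by positivity) fun n => ?_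
  refine le_trans ?_ (sum_range_le hx n)
  exact Finset.sum_le_sum_of_subset_of_nonneg (Finset.range_mono (by omega)) fun i _ _ => by positivity

private lemma inv_le' {s : ℂ} (hs1 : 1 < s.re) :
    ‖(riemannZeta s)⁻¹‖ ≤ ∑' n : ℕ, 1 / (n : ℝ) ^ s.re := by
  have h1 := LSeries_one_mul_Lseries_moebius hs1
  rw [LSeries_one_eq_riemannZeta hs1] at h1
  have h2 : (riemannZeta s)⁻¹ = LSeries (fun n ↦ (ArithmeticFunction.moebius n : ℂ)) s :=
    inv_eq_of_mul_eq_one_right h1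
  rw [h2, LSeries]
  have hsum : Summable fun n : ℕ ↦ 1 / (n : ℝ) ^ s.re := Real.summable_one_div_nat_rpow.mpr hs1
  refine tsum_of_norm_bounded hsum.hasSum fun n ↦ ?_
  rcases eq_or_ne n 0 with rfl | hn
  · simp [(by linarith : s.re ≠ 0)]
  · have hn1 : (1 : ℝ) ≤ n := by exact_mod_cast Nat.one_le_iff_ne_zero.mpr hn
    rw [LSeries.term_of_ne_zero hn, norm_div, norm_natCast_cpow_of_pos (Nat.pos_of_ne_zero hn)]
    have h3 : ‖((ArithmeticFunction.moebius n : ℤ) : ℂ)‖ ≤ 1 := by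
      rw [norm_intCast]
      exact_mod_cast ArithmeticFunction.abs_moebius_le_one
    gcongr

theorem inv_low {s : ℂ} (hs : 1 < s.re) : 1 ≤ 18 * (1 + 1 / (s.re - 1)) * ‖riemannZeta s‖ := by
  have hζ : riemannZeta s ≠ 0 := riemannZeta_ne_zero_of_one_le_re hs.le
  have hpos : 0 < ‖riemannZeta s‖ := norm_pos_iff.2 hζ
  have h3 := (inv_le' hs).trans (tsum_le' hs)
  rw [norm_inv, inv_le_iff_one_le_mul₀ hpos] at h3
  refine h3.trans (mul_le_mul_of_nonneg_right ?_ hpos.le)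
  have h4 : 0 ≤ 1 / (s.re - 1) := div_nonneg zero_le_one (by linarith)
  linarith

end Pool.Agent.H48.RZ
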