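import Mathlib
import Pool.Agent.H48.RZ.FinB
import Pool.Agent.H48.RZ.Inv

/-!
# Fin: the reciprocal of zeta

From `finB` and the trivial bound `inv_low`.
-/

set_option autoImplicit false

open Complex

namespace Pool.Agent.H48.RZ

theorem resultRZ : ∃ c : ℝ, 0 < c ∧ ∀ ε : ℝ, 0 < ε → ∃ t0 : ℝ, ∀ t σ : ℝ, t0 ≤ t → 1 - c / VK t ≤ σ →
    1 ≤ Real.log t ^ (2 / 3 : ℝ) * Real.log (Real.log t) ^ (2 / (3 * Real.pi) + ε) *
      ‖riemannZeta (σ + t * I)‖ := by
  obtain ⟨c, hc, h⟩ := finB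
  refine ⟨c, hc, fun ε hε => ?_⟩
  obtain ⟨δ, hδ⟩ : ∃ δ : ℝ, δ = min (ε / 2) 1 := ⟨_, rfl⟩
  have hδ0 : 0 < δ := by rw [hδ]; exact lt_min (by positivity) one_pos
  have hδ1 : δ ≤ 1 := hδ ▸ min_le_right _ _
  have hδε : δ ≤ ε / 2 := hδ ▸ min_le_left _ _
  obtain ⟨t1, h1⟩ := h δ hδ0
  have hpi := Real.pi_pos
  obtain ⟨t2, ht2, hbig⟩ := big_height ((73 : ℝ) ^ (1 / (ε / 2)))
  refine ⟨max t1 t2, fun t σ ht hσ => ?_⟩
  have htt1 : t1 ≤ t := (le_max_left _ _).trans ht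
  have htt2 : t2 ≤ t := (le_max_right _ _).trans ht
  have ht3 : 3 ≤ t := ht2.trans htt2
  obtain ⟨hll1, hllN⟩ := hbig t htt2
  obtain ⟨hl1, -⟩ := loglog3 ht3
  have hl0 : 0 < Real.log t := by linarith
  have hll0 : 0 < Real.log (Real.log t) := by linarith
  obtain ⟨Y, hY⟩ : ∃ Y : ℝ, Y = Real.log t ^ (2 / 3 : ℝ) := ⟨_, rfl⟩
  have hY1 : 1 ≤ Y := by
    rw [hY]
    exact Real.one_le_rpow hl1 (by norm_num)
  have hY0 : 0 < Y := by linarith
  rw [← hY]
  set m : ℝ := Real.log (Real.log t) with hm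
  have hKm : 73 ≤ m ^ (ε / 2) := by
    have h2 := Real.rpow_le_rpow (by positivity) hllN (by positivity : 0 ≤ ε / 2)
    rw [← Real.rpow_mul (by norm_num), one_div_mul_cancel (by positivity), Real.rpow_one] at h2
    exact h2
  have hW0 : 0 ≤ ‖riemannZeta (σ + t * I)‖ := norm_nonneg _
  have hre : ((σ : ℂ) + t * I).re = σ := by simp
  rcases le_or_gt σ (1 + 1 / Y) with hσY | hσY
  · have h3 := h1 t Y σ htt1 hY hσ hσY
    set Z : ℝ := ‖riemannZeta (1 + 1 / Y + t * I)‖ with hZ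
    have hre2 : (1 + 1 / Y + t * I : ℂ).re = 1 + 1 / Y := by
      have e : (1 + 1 / Y + t * I : ℂ) = ((1 + 1 / Y : ℝ) : ℂ) + t * I := by push_cast; ring
      rw [e]
      simp
    have hinv : 0 < 1 / Y := by positivity
    have h4 := inv_low (s := 1 + 1 / Y + t * I) (by rw [hre2]; linarith)
    rw [hre2, ← hZ, add_sub_cancel_left, one_div_one_div] at h4
    have hZ0 : 0 < Z := by
      by_contra hcon
      have : Z ≤ 0 := not_lt.1 hcon
      nlinarith
    have h5 : 1 ≤ 36 * (Y * Z) := by nlinarith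
    have hp : 0 < Y * Z := by positivity
    have h6 : (2 + Y * Z) ^ δ ≤ 73 * (Y * Z) := by
      calc (2 + Y * Z) ^ δ ≤ (2 + Y * Z) ^ (1 : ℝ) :=
            Real.rpow_le_rpow_of_exponent_le (by linarith) hδ1
        _ = 2 + Y * Z := Real.rpow_one _
        _ ≤ 73 * (Y * Z) := by linarith
    have hme : 0 < m ^ (2 / (3 * Real.pi) + δ) := Real.rpow_pos_of_pos hll0 _
    have h7 : Z ≤ m ^ (2 / (3 * Real.pi) + δ) * (73 * (Y * Z)) * ‖riemannZeta (σ + t * I)‖ := by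
      refine h3.trans ?_
      gcongr
    have h8 : 1 ≤ m ^ (2 / (3 * Real.pi) + δ) * (73 * Y) * ‖riemannZeta (σ + t * I)‖ := by
      have e : m ^ (2 / (3 * Real.pi) + δ) * (73 * (Y * Z)) * ‖riemannZeta (σ + t * I)‖ =
          (m ^ (2 / (3 * Real.pi) + δ) * (73 * Y) * ‖riemannZeta (σ + t * I)‖) * Z := by ring
      rw [e] at h7
      by_contra hcon
      push Not at hcon
      nlinarith
    have h9 : m ^ (2 / (3 * Real.pi) + δ) * 73 ≤ m ^ (2 / (3 * Real.pi) + ε) := by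
      calc m ^ (2 / (3 * Real.pi) + δ) * 73 ≤ m ^ (2 / (3 * Real.pi) + ε / 2) * m ^ (ε / 2) := by
            apply mul_le_mul _ hKm (by norm_num) (Real.rpow_nonneg hll0.le _)
            exact Real.rpow_le_rpow_of_exponent_le hll1 (by linarith)
        _ = m ^ (2 / (3 * Real.pi) + ε) := by
            rw [← Real.rpow_add hll0]
            congr 1
            ring
    calc 1 ≤ m ^ (2 / (3 * Real.pi) + δ) * (73 * Y) * ‖riemannZeta (σ + t * I)‖ := h8
      _ = Y * (m ^ (2 / (3 * Real.pi) + δ) * 73) * ‖riemannZeta (σ + t * I)‖ := by ring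
      _ ≤ Y * m ^ (2 / (3 * Real.pi) + ε) * ‖riemannZeta (σ + t * I)‖ := by gcongr
  · have hinv : 0 < 1 / Y := by positivity
    have hσ0 : 0 < σ - 1 := by linarith
    have h4 := inv_low (s := σ + t * I) (by rw [hre]; linarith)
    rw [hre] at h4
    have h5 : 1 / (σ - 1) ≤ Y := by
      rw [div_le_iff₀ hσ0]
      have : Y * (1 / Y) ≤ Y * (σ - 1) := mul_le_mul_of_nonneg_left (by linarith) hY0.le
      rwa [mul_one_div_cancel hY0.ne'] at this
    have h6 : 73 ≤ m ^ (2 / (3 * Real.pi) + ε) := by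
      refine hKm.trans ?_
      apply Real.rpow_le_rpow_of_exponent_le hll1
      have : 0 < 2 / (3 * Real.pi) := by positivity
      linarith
    calc 1 ≤ 18 * (1 + 1 / (σ - 1)) * ‖riemannZeta (σ + t * I)‖ := h4
      _ ≤ 18 * (1 + Y) * ‖riemannZeta (σ + t * I)‖ := by gcongr
      _ ≤ Y * 73 * ‖riemannZeta (σ + t * I)‖ := by
          apply mul_le_mul_of_nonneg_right _ hW0
          linarith
      _ ≤ Y * m ^ (2 / (3 * Real.pi) + ε) * ‖riemannZeta (σ + t * I)‖ := by gcongr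

end Pool.Agent.H48.RZ
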