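import Mathlib
import Pool.Agent.H76.GL.Defs
import Pool.Agent.H48.RZ.Mer
import Pool.Agent.H48.RZ.LZ
import Pool.Agent.H48.RZ.RBz

/-!
# GrM: relative growth of zeta in terms of `MD`

PROOF.  `Y0` large: `mer` (2) gives `1 + M ≤ 1 + 2 log Y + 2C`, so `a = (1 + M)^(2/3)/(4Y) ≤ 1/16` for `Y ≥ Y0`.  Let
`z` be in `closedBall (pt a u) (3a)`: `Re z ≥ 1 - 2a ≥ 1/2`, `|Im z - u| ≤ 3a ≤ 1`, `2 ≤ |Im z| ≤ |u| + 1 ≤ |u|²`,
`log |Im z| ≤ 4L`.  `rs`: `‖ζ(z)‖ ≤ C exp (B (2a)^(3/2) 4 L) (4L)^(2/3)`; `(2a)^(3/2) = (1 + M) (2Y)^(-3/2)` and `L = Y^(3/2)`, so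
this is `≤ C exp (C (1 + M)) Y`.  `‖z - 1‖ ≤ 2 ‖pt a u - 1‖`.  Lower bound at `pt a u = 1 + 1/X + iu`, `X = 1/a ≥ 1`,
`X ≤ 4Y`: `lz`: `log ‖ζ(pt a u)‖ ≥ PS u 0 X - C`, and `|PS u 0 X - PS u 0 Y| ≤ |log (X/Y)| + C + ...`: if `X ≤ Y`:
`PS u 0 X = PS u 0 Y - PS u X Y`, `|PS u X Y| ≤ PS 0 X Y ≤ log (Y/X) + C = (2/3) log (1 + M) - log 4 + C` (`mer` (1)); if
`Y ≤ X ≤ 4Y`: `|PS u Y X| ≤ log 4 + C`.  `PS u 0 Y = PS 0 0 Y - MD u Y ≥ log Y - C - 4M`.  So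
`Y/‖ζ(pt a u)‖ ≤ exp (C (1 + M))`.  With `zetaPole z = (z - 1) ζ(z)` (`zetaPole_of_ne`): `Gr`.  About 150 lines.
-/

set_option autoImplicit false

open Complex

namespace Pool.Agent.H48.RZ

open Pool.Agent.H76.GL

open Pool.Agent.H6 Pool.Agent.H76.CR

/-- the lower bound at `1 + 1/X + iu` -/
private lemma GrM_low {Cm Cl : ℝ}
    (m1 : ∀ a b : ℝ, 1 ≤ a → a ≤ b → |PS 0 a b - Real.log (b / a)| ≤ Cm)
    (m2 : ∀ Y : ℝ, 1 ≤ Y → |PS 0 0 Y - Real.log Y| ≤ Cm)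
    (l1 : ∀ X u : ℝ, 1 ≤ X → |Real.log ‖riemannZeta (1 + 1 / X + u * I)‖ - PS u 0 X| ≤ Cl)
    {Y X u M : ℝ} (hY : 1 ≤ Y) (hX : 1 ≤ X) (hXY : X ≤ 4 * Y) (hM : 0 ≤ M) (hYX : Y ≤ (1 + M) * X)
    (hMD : MD u Y ≤ 4 * M) :
    Y ≤ Real.exp (Cl + 2 * Cm + 2 + 5 * M) * ‖riemannZeta (1 + 1 / X + u * I)‖ := by
  have hY0 : 0 < Y := by linarith
  have hX0 : 0 < X := by linarith
  have h1 : PS u 0 Y - (M + 2 + Cm) ≤ PS u 0 X := by
    rcases le_total X Y with h | h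
    · have h2 := PS_add u (a := 0) (b := X) (c := Y) hX0.le h
      have h3 := abs_PS_le u X Y
      have h4 := m1 X Y hX h
      rw [abs_le] at h3 h4
      have h5 : Real.log (Y / X) ≤ M := by
        have h6 : Y / X ≤ 1 + M := by rwa [div_le_iff₀ hX0]
        have h7 : Real.log (Y / X) ≤ Y / X - 1 := Real.log_le_sub_one_of_pos (by positivity)
        linarith
      linarith [h3.2, h4.2]
    · have h2 := PS_add u (a := 0) (b := Y) (c := X) hY0.le h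
      have h3 := abs_PS_le u Y X
      have h4 := m1 Y X hY h
      rw [abs_le] at h3 h4
      have h5 : Real.log (X / Y) ≤ 2 := by
        have h6 : X / Y ≤ 4 := by rwa [div_le_iff₀ hY0]
        have h7 : Real.log (X / Y) ≤ Real.log 4 := Real.log_le_log (by positivity) h6
        have h8 : Real.log 4 ≤ 2 := by
          have h9 : Real.log 4 = 2 * Real.log 2 := by
            rw [show (4 : ℝ) = 2 ^ 2 by norm_num, Real.log_pow]; norm_num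
          have := Real.log_two_lt_d9
          linarith
        linarith
      linarith [h3.1, h4.2]
  have h2 := m2 Y hY
  have h3 := l1 X u hX
  rw [abs_le] at h2 h3
  have h4 : Real.log Y ≤ (Cl + 2 * Cm + 2 + 5 * M) + Real.log ‖riemannZeta (1 + 1 / X + u * I)‖ := by
    unfold MD at hMD
    linarith [h2.1, h3.1]
  have hre : (1 + 1 / X + u * I : ℂ).re = 1 + 1 / X := by
    have e : (1 + 1 / X + u * I : ℂ) = ((1 + 1 / X : ℝ) : ℂ) + u * I := by push_cast; ring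
    rw [e]
    simp
  have hpos : 0 < ‖riemannZeta (1 + 1 / X + u * I)‖ := by
    rw [norm_pos_iff]
    refine riemannZeta_ne_zero_of_one_le_re ?_
    rw [hre]
    have : 0 < 1 / X := by positivity
    linarith
  calc Y = Real.exp (Real.log Y) := (Real.exp_log hY0).symm
    _ ≤ Real.exp ((Cl + 2 * Cm + 2 + 5 * M) + Real.log ‖riemannZeta (1 + 1 / X + u * I)‖) :=
        Real.exp_le_exp.2 h4
    _ = _ := by rw [Real.exp_add, Real.exp_log hpos]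

/-- the upper bound in the disc -/
private lemma GrM_up {B Cr : ℝ} (hB : 1 ≤ B) (hCr : 1 ≤ Cr)
    (r1 : ∀ s : ℂ, 1 / 2 ≤ s.re → 2 ≤ |s.im| →
      ‖riemannZeta s‖ ≤ Cr * |s.im| ^ (B * max (1 - s.re) 0 ^ (3 / 2 : ℝ)) *
        Real.log |s.im| ^ (2 / 3 : ℝ))
    {L Y a M u : ℝ} (hL : 1 ≤ L) (hYL : Y = L ^ (2 / 3 : ℝ)) (hM : 0 ≤ M)
    (ha : a = (1 + M) ^ (2 / 3 : ℝ) / (4 * Y)) (ha0 : 0 < a) (ha4 : a ≤ 1 / 4)
    (hu : 3 ≤ |u|) (hlu : Real.log |u| ≤ 2 * L) {z : ℂ} (hre : 1 - 2 * a ≤ z.re)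
    (him : |z.im - u| ≤ 1) :
    2 ≤ |z.im| ∧ ‖riemannZeta z‖ ≤ Cr * Real.exp (4 * B * (1 + M)) * (4 * Y) := by
  have hL0 : 0 < L := by linarith
  have him1 : |u| - 1 ≤ |z.im| := by
    have := abs_sub_abs_le_abs_sub u z.im
    rw [abs_sub_comm] at this
    linarith
  have him2 : |z.im| ≤ |u| + 1 := by
    have := abs_sub_abs_le_abs_sub z.im u
    linarith
  have h2 : 2 ≤ |z.im| := by linarith
  refine ⟨h2, (r1 z (by linarith) h2).trans ?_⟩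
  have him0 : 0 < |z.im| := by linarith
  have hlog0 : 0 ≤ Real.log |z.im| := Real.log_nonneg (by linarith)
  have hlog : Real.log |z.im| ≤ 4 * L := by
    have h3 : |z.im| ≤ |u| ^ 2 := by nlinarith
    have h4 : Real.log |z.im| ≤ Real.log (|u| ^ 2) := Real.log_le_log him0 h3
    rw [Real.log_pow] at h4
    push_cast at h4
    linarith
  have hY0 : 0 < Y := by rw [hYL]; positivity
  have h5 : L * (2 * a) ^ (3 / 2 : ℝ) ≤ 1 + M := by
    have e1 : 2 * a = (1 + M) ^ (2 / 3 : ℝ) * (2 * Y)⁻¹ := by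
      rw [ha]; field_simp; norm_num
    have e2 : ((1 + M) ^ (2 / 3 : ℝ)) ^ (3 / 2 : ℝ) = 1 + M := by
      rw [← Real.rpow_mul (by linarith)]; norm_num
    have e3 : Y ^ (3 / 2 : ℝ) = L := by
      rw [hYL, ← Real.rpow_mul hL0.le]; norm_num
    have e4 : (2 * a) ^ (3 / 2 : ℝ) = (1 + M) * ((2 * Y) ^ (3 / 2 : ℝ))⁻¹ := by
      rw [e1, Real.mul_rpow (by positivity) (by positivity), e2, Real.inv_rpow (by positivity)]
    have e5 : L ≤ (2 * Y) ^ (3 / 2 : ℝ) := by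
      calc L = Y ^ (3 / 2 : ℝ) := e3.symm
        _ ≤ (2 * Y) ^ (3 / 2 : ℝ) := Real.rpow_le_rpow hY0.le (by linarith) (by norm_num)
    rw [e4]
    have e6 : L * ((2 * Y) ^ (3 / 2 : ℝ))⁻¹ ≤ 1 := by
      rw [← div_eq_mul_inv, div_le_one (by positivity)]
      exact e5
    calc L * ((1 + M) * ((2 * Y) ^ (3 / 2 : ℝ))⁻¹) = (1 + M) * (L * ((2 * Y) ^ (3 / 2 : ℝ))⁻¹) := by ring
      _ ≤ (1 + M) * 1 := mul_le_mul_of_nonneg_left e6 (by linarith)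
      _ = 1 + M := by ring
  have h6 : |z.im| ^ (B * max (1 - z.re) 0 ^ (3 / 2 : ℝ)) ≤ Real.exp (4 * B * (1 + M)) := by
    rw [Real.rpow_def_of_pos him0, Real.exp_le_exp]
    have h7 : max (1 - z.re) 0 ≤ 2 * a := max_le (by linarith) (by linarith)
    have h8 : max (1 - z.re) 0 ^ (3 / 2 : ℝ) ≤ (2 * a) ^ (3 / 2 : ℝ) :=
      Real.rpow_le_rpow (le_max_right _ _) h7 (by norm_num)
    have h9 : 0 ≤ max (1 - z.re) 0 ^ (3 / 2 : ℝ) := Real.rpow_nonneg (le_max_right _ _) _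
    calc Real.log |z.im| * (B * max (1 - z.re) 0 ^ (3 / 2 : ℝ))
        ≤ (4 * L) * (B * (2 * a) ^ (3 / 2 : ℝ)) := by gcongr
      _ = 4 * B * (L * (2 * a) ^ (3 / 2 : ℝ)) := by ring
      _ ≤ 4 * B * (1 + M) := by gcongr
  have h10 : Real.log |z.im| ^ (2 / 3 : ℝ) ≤ 4 * Y := by
    calc Real.log |z.im| ^ (2 / 3 : ℝ) ≤ (4 * L) ^ (2 / 3 : ℝ) :=
          Real.rpow_le_rpow hlog0 hlog (by norm_num)
      _ = 4 ^ (2 / 3 : ℝ) * L ^ (2 / 3 : ℝ) := Real.mul_rpow (by norm_num) hL0.le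
      _ ≤ 4 * Y := by
          have : (4 : ℝ) ^ (2 / 3 : ℝ) ≤ 4 ^ (1 : ℝ) :=
            Real.rpow_le_rpow_of_exponent_le (by norm_num) (by norm_num)
          rw [Real.rpow_one] at this
          rw [← hYL]
          gcongr
  gcongr

theorem grM : ∃ C Y0 : ℝ, 1 ≤ C ∧ 1 ≤ Y0 ∧ ∀ L Y u M : ℝ, Y0 ≤ Y → Y = L ^ (2 / 3 : ℝ) → 3 ≤ |u| →
    Real.log |u| ≤ 2 * L → 1 ≤ L → 0 ≤ M → M ≤ 2 * PS 0 0 Y → MD u Y ≤ 4 * M →
    (1 + M) ^ (2 / 3 : ℝ) / (4 * Y) ≤ 1 ∧ Gr ((1 + M) ^ (2 / 3 : ℝ) / (4 * Y)) u (C * (1 + M)) := by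
  obtain ⟨Cm, hCm, m1, m2, -⟩ := mer
  obtain ⟨Cl, hCl, l1⟩ := lz
  obtain ⟨B, Cr, hB, hCr, r1⟩ := rs
  refine ⟨16 * Cr + 4 * B + Cl + 2 * Cm + 7, 6 + 4 * Cm, by linarith, by linarith, ?_⟩
  intro L Y u M hY0 hYL hu hlu hL hM hMP hMD
  have hY1 : 1 ≤ Y := by linarith
  have hYp : 0 < Y := by linarith
  have hL0 : 0 < L := by linarith
  have hM1 : 1 ≤ 1 + M := by linarith
  have hpow1 : 1 ≤ (1 + M) ^ (2 / 3 : ℝ) := Real.one_le_rpow hM1 (by norm_num)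
  have hpow2 : (1 + M) ^ (2 / 3 : ℝ) ≤ 1 + M := by
    calc (1 + M) ^ (2 / 3 : ℝ) ≤ (1 + M) ^ (1 : ℝ) :=
          Real.rpow_le_rpow_of_exponent_le hM1 (by norm_num)
      _ = 1 + M := Real.rpow_one _
  have hMY : 1 + M ≤ Y := by
    have h1 := m2 Y hY1
    rw [abs_le] at h1
    have h2 : Real.log Y ≤ Y / 4 + 1 := by
      have h3 : Real.log (Y / 4) ≤ Y / 4 - 1 := Real.log_le_sub_one_of_pos (by positivity)
      rw [Real.log_div hYp.ne' (by norm_num)] at h3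
      have h4 : Real.log 4 ≤ 2 := by
        have h9 : Real.log 4 = 2 * Real.log 2 := by
          rw [show (4 : ℝ) = 2 ^ 2 by norm_num, Real.log_pow]; norm_num
        have := Real.log_two_lt_d9
        linarith
      linarith
    linarith [h1.2]
  set a : ℝ := (1 + M) ^ (2 / 3 : ℝ) / (4 * Y) with ha
  have ha0 : 0 < a := by positivity
  have ha4 : a ≤ 1 / 4 := by
    rw [ha, div_le_iff₀ (by positivity)]
    linarith
  refine ⟨by linarith, by nlinarith, fun z hz => ?_⟩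
  rw [Metric.mem_closedBall, dist_eq_norm] at hz
  have hcre : (pt a u).re = 1 + a := by rw [pt]; simp
  have hcim : (pt a u).im = u := by rw [pt]; simp
  have hre : 1 - 2 * a ≤ z.re := by
    have h1 := (Complex.abs_re_le_norm (z - pt a u)).trans hz
    rw [Complex.sub_re, hcre, abs_le] at h1
    linarith [h1.1]
  have him : |z.im - u| ≤ 1 := by
    have h1 := (Complex.abs_im_le_norm (z - pt a u)).trans hz
    rw [Complex.sub_im, hcim] at h1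
    linarith
  obtain ⟨hz2, hup⟩ := GrM_up hB hCr r1 hL hYL hM ha ha0 ha4 hu hlu hre him
  have hX1 : 1 ≤ 1 / a := by rw [le_div_iff₀ ha0]; linarith
  have hXY : 1 / a ≤ 4 * Y := by
    rw [div_le_iff₀ ha0, ha]
    have : 4 * Y * ((1 + M) ^ (2 / 3 : ℝ) / (4 * Y)) = (1 + M) ^ (2 / 3 : ℝ) := by field_simp
    rw [this]
    exact hpow1
  have hYX : Y ≤ (1 + M) * (1 / a) := by
    rw [mul_one_div, le_div_iff₀ ha0, ha]
    have : Y * ((1 + M) ^ (2 / 3 : ℝ) / (4 * Y)) = (1 + M) ^ (2 / 3 : ℝ) / 4 := by field_simp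
    rw [this]
    linarith
  have hlow := GrM_low m1 m2 l1 hY1 hX1 hXY hM hYX hMD
  have hpt : (1 + 1 / ((1 / a : ℝ) : ℂ) + u * I : ℂ) = pt a u := by
    rw [pt]
    push_cast
    rw [one_div_one_div]
  rw [hpt] at hlow
  have hcne : pt a u ≠ 1 := by
    intro h; rw [h] at hcre; simp at hcre; linarith
  have hzne : z ≠ 1 := by
    intro h; rw [h] at hz2; simp at hz2; linarith
  rw [zetaPole_of_ne hzne, zetaPole_of_ne hcne, norm_mul, norm_mul]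
  have h5 : a ≤ ‖pt a u - 1‖ := by
    have := Complex.abs_re_le_norm (pt a u - 1)
    rw [Complex.sub_re, hcre, Complex.one_re, add_sub_cancel_left, abs_of_pos ha0] at this
    exact this
  have h6 : ‖z - 1‖ ≤ 4 * ‖pt a u - 1‖ := by
    have : ‖z - 1‖ ≤ ‖z - pt a u‖ + ‖pt a u - 1‖ := by
      have := norm_add_le (z - pt a u) (pt a u - 1)
      rwa [sub_add_sub_cancel] at this
    linarith
  have h7 : 16 * Cr ≤ Real.exp (16 * Cr * (1 + M)) := by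
    have h8 : 16 * Cr * (1 + M) + 1 ≤ Real.exp (16 * Cr * (1 + M)) := Real.add_one_le_exp _
    have h9 : 16 * Cr ≤ 16 * Cr * (1 + M) := by nlinarith
    linarith
  calc ‖z - 1‖ * ‖riemannZeta z‖
      ≤ (4 * ‖pt a u - 1‖) * (Cr * Real.exp (4 * B * (1 + M)) * (4 * Y)) := by gcongr
    _ ≤ (4 * ‖pt a u - 1‖) * (Cr * Real.exp (4 * B * (1 + M)) *
          (4 * (Real.exp (Cl + 2 * Cm + 2 + 5 * M) * ‖riemannZeta (pt a u)‖))) := by gcongr
    _ = (16 * Cr) * Real.exp (4 * B * (1 + M)) * Real.exp (Cl + 2 * Cm + 2 + 5 * M) *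
          (‖pt a u - 1‖ * ‖riemannZeta (pt a u)‖) := by ring
    _ ≤ Real.exp (16 * Cr * (1 + M)) * Real.exp (4 * B * (1 + M)) *
          Real.exp ((Cl + 2 * Cm + 7) * (1 + M)) * (‖pt a u - 1‖ * ‖riemannZeta (pt a u)‖) := by
        have h10 : Cl + 2 * Cm + 2 + 5 * M ≤ (Cl + 2 * Cm + 7) * (1 + M) := by nlinarith
        have h11 : Real.exp (Cl + 2 * Cm + 2 + 5 * M) ≤ Real.exp ((Cl + 2 * Cm + 7) * (1 + M)) :=
          Real.exp_le_exp.2 h10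
        gcongr
    _ = Real.exp ((16 * Cr + 4 * B + Cl + 2 * Cm + 7) * (1 + M)) *
          (‖pt a u - 1‖ * ‖riemannZeta (pt a u)‖) := by
        rw [← Real.exp_add, ← Real.exp_add]
        congr 2
        ring

end Pool.Agent.H48.RZ
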