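import Mathlib
import Pool.Agent.H48.RZ.GB

/-!
# NSl: zeta between `1 + 1/Y` and `1`

PROOF.  First `1 < σ ≤ 1 + 1/Y`, `X = 1/(σ - 1) ≥ Y`.  `lz` for `X` and `Y`: `log ‖ζ(σ + iu)‖ - log ‖ζ(1 + 1/Y + iu)‖ =
PS u 0 X - PS u 0 Y + O(1) = PS u Y X + O(1)`.  `gb` with `L' = 2 log |u| + 3` (`≥ 3`), `Y' = L'^(2/3)`, `Y ≤ Y' ≤ 5 Y`: for
`X ≥ Y'`: `PS u Y X = PS u Y Y' + PS u Y' X`, `|PS u Y Y'| ≤ log 5 + C` (`mer` (1), `abs_PS_le`), `MD u Y' ≤ MD u Y + 2 (log 5 + C)`;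
for `Y ≤ X ≤ Y'`: trivial.  `MD u Y = PS 0 0 Y - PS u 0 Y ≤ log Y - log ‖ζ(1 + 1/Y + iu)‖ + C ≤ max 0 (log (Y/‖ζ‖)) + C`
(`mer` (2), `lz`).  `σ = 1`: `σ' → 1+`, continuity of `ζ` at `1 + iu ≠ 1`, `ζ(1 + iu) ≠ 0`, closedness of the inequality.
-/

set_option autoImplicit false

open Complex

namespace Pool.Agent.H48.RZ

/-- the case `1 < σ` -/
theorem nsl_aux {ε : ℝ} (hε : 0 < ε) : ∃ C : ℝ, 1 ≤ C ∧ ∀ u Y σ : ℝ, 3 ≤ |u| → Y = Real.log |u| ^ (2 / 3 : ℝ) →
    1 < σ → σ ≤ 1 + 1 / Y →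
    |Real.log ‖riemannZeta (σ + u * I)‖ - Real.log ‖riemannZeta (1 + 1 / Y + u * I)‖| ≤
      ε * max 0 (Real.log (Y / ‖riemannZeta (1 + 1 / Y + u * I)‖)) + C := by
  obtain ⟨C1, hC1, hlz⟩ := lz
  obtain ⟨C2, hC2, hmer1, hmer2, -⟩ := mer
  obtain ⟨C3, hC3, hgb⟩ := gb hε
  refine ⟨2 * C1 + ε * (C1 + 3 * C2 + 4) + C3 + 2 + C2, by nlinarith, ?_⟩
  intro u Y σ hu hY hσ1 hσ2
  set L : ℝ := Real.log |u| with hL
  have hL1 : 1 ≤ L := by
    have h1 : Real.log 3 ≤ L := Real.log_le_log (by norm_num) hu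
    have h2 : 1 ≤ Real.log 3 := by
      rw [Real.le_log_iff_exp_le (by norm_num)]
      exact Real.exp_one_lt_three.le
    linarith
  have hY1 : 1 ≤ Y := by
    rw [hY]
    exact Real.one_le_rpow hL1 (by norm_num)
  have hY0 : 0 < Y := by linarith
  have hs0 : 0 < σ - 1 := by linarith
  set X : ℝ := 1 / (σ - 1) with hX
  have hYX : Y ≤ X := by
    rw [hX, le_div_iff₀ hs0]
    have h1 : σ - 1 ≤ 1 / Y := by linarith
    calc Y * (σ - 1) ≤ Y * (1 / Y) := mul_le_mul_of_nonneg_left h1 hY0.le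
      _ = 1 := by field_simp
  have hX1 : 1 ≤ X := hY1.trans hYX
  have hσX : (σ : ℂ) + u * I = 1 + 1 / (X : ℂ) + u * I := by
    have h1 : (σ : ℝ) = 1 + 1 / X := by
      rw [hX, one_div_one_div]
      ring
    have h2 : (σ : ℂ) = ((1 + 1 / X : ℝ) : ℂ) := by rw [← h1]
    rw [h2]
    push_cast
    ring
  rw [hσX]
  have hzX := hlz X u hX1
  have hzY := hlz Y u hY1
  have hadd := PS_add u (by linarith : (0 : ℝ) ≤ Y) hYX
  -- the bound of `MD`
  have hre : 1 < (1 + 1 / Y + u * I : ℂ).re := by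
    have e : (1 + 1 / Y + u * I : ℂ) = ((1 + 1 / Y : ℝ) : ℂ) + u * I := by push_cast; ring
    rw [e]
    have h1 : 0 < 1 / Y := by positivity
    simp only [add_re, ofReal_re, mul_re, I_re, mul_zero, ofReal_im, I_im, mul_one, sub_self, add_zero]
    linarith
  have hne : riemannZeta (1 + 1 / Y + u * I) ≠ 0 := riemannZeta_ne_zero_of_one_le_re hre.le
  have hnp : 0 < ‖riemannZeta (1 + 1 / Y + u * I)‖ := norm_pos_iff.2 hne
  have hlog : Real.log (Y / ‖riemannZeta (1 + 1 / Y + u * I)‖) =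
      Real.log Y - Real.log ‖riemannZeta (1 + 1 / Y + u * I)‖ := Real.log_div hY0.ne' hnp.ne'
  set Z : ℝ := Real.log ‖riemannZeta (1 + 1 / Y + u * I)‖ with hZ
  set m : ℝ := max 0 (Real.log (Y / ‖riemannZeta (1 + 1 / Y + u * I)‖)) with hm
  have hm1 : Real.log Y - Z ≤ m := by
    rw [hm, hlog]
    exact le_max_right _ _
  have hMD : MD u Y ≤ m + C1 + C2 := by
    unfold MD
    have h1 := abs_le.1 (hmer2 Y hY1)
    have h2 := abs_le.1 hzY
    linarith
  have hm0 : 0 ≤ m := by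
    rw [hm]
    exact le_max_left _ _
  -- the main bound
  have hPS : |PS u Y X| ≤ 2 + C2 + ε * (m + C1 + 3 * C2 + 4) + C3 := by
    set L' : ℝ := 2 * L + 3 with hL'
    set Y' : ℝ := L' ^ (2 / 3 : ℝ) with hY'
    have hYY' : Y ≤ Y' := by
      rw [hY, hY']
      exact Real.rpow_le_rpow (by linarith) (by linarith) (by norm_num)
    have hY5 : Y' ≤ 5 * Y := by
      have h1 : Y' ≤ (5 * L) ^ (2 / 3 : ℝ) := by
        rw [hY']
        exact Real.rpow_le_rpow (by linarith) (by linarith) (by norm_num)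
      rw [Real.mul_rpow (by norm_num) (by linarith), ← hY] at h1
      have h2 : (5 : ℝ) ^ (2 / 3 : ℝ) ≤ 5 ^ (1 : ℝ) :=
        Real.rpow_le_rpow_of_exponent_le (by norm_num) (by norm_num)
      rw [Real.rpow_one] at h2
      exact h1.trans (mul_le_mul_of_nonneg_right h2 hY0.le)
    have hlog5 : Real.log 5 ≤ 2 := by
      rw [Real.log_le_iff_le_exp (by norm_num)]
      have h1 : (2.7 : ℝ) < Real.exp 1 := by
        have := Real.exp_one_gt_d9
        linarith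
      have h2 : Real.exp 2 = Real.exp 1 * Real.exp 1 := by
        rw [← Real.exp_add]
        norm_num
      rw [h2]
      nlinarith
    have hnear : ∀ b : ℝ, Y ≤ b → b ≤ 5 * Y → PS 0 Y b ≤ 2 + C2 := by
      intro b h1 h2
      have h3 := abs_le.1 (hmer1 Y b hY1 h1)
      have h4 : Real.log (b / Y) ≤ Real.log 5 := by
        refine Real.log_le_log (div_pos (hY0.trans_le h1) hY0) ?_
        rw [div_le_iff₀ hY0]
        exact h2
      linarith
    have hmC : 0 ≤ ε * (m + C1 + 3 * C2 + 4) := mul_nonneg hε.le (by linarith)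
    rcases le_total Y' X with hc | hc
    · have h1 := PS_add u hYY' hc
      have h2 := hnear Y' hYY' hY5
      have h3 := abs_PS_le u Y Y'
      have h4 := hgb L' Y' u X (by linarith) hY' hu (by linarith) hc
      have h5 : MD u Y' ≤ m + C1 + 3 * C2 + 4 := by
        have h6 := PS_add 0 (by linarith : (0 : ℝ) ≤ Y) hYY'
        have h7 := PS_add u (by linarith : (0 : ℝ) ≤ Y) hYY'
        have h8 := abs_le.1 h3
        unfold MD at hMD ⊢
        linarith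
      have h6 : |PS u Y X| ≤ |PS u Y Y'| + |PS u Y' X| := by
        rw [← h1]
        exact abs_add_le _ _
      have h7 : ε * MD u Y' ≤ ε * (m + C1 + 3 * C2 + 4) := mul_le_mul_of_nonneg_left h5 hε.le
      linarith
    · have h2 := hnear X hYX (hc.trans hY5)
      have h3 := abs_PS_le u Y X
      linarith
  have hdiff : Real.log ‖riemannZeta (1 + 1 / (X : ℂ) + u * I)‖ - Z =
      (Real.log ‖riemannZeta (1 + 1 / (X : ℂ) + u * I)‖ - PS u 0 X) - (Z - PS u 0 Y) + PS u Y X := by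
    rw [← hadd]
    ring
  rw [hdiff]
  have h1 := abs_le.1 hzX
  have h2 := abs_le.1 hzY
  have h3 := abs_le.1 hPS
  have h4 : ε * (m + C1 + 3 * C2 + 4) = ε * m + ε * (C1 + 3 * C2 + 4) := by ring
  rw [abs_le]
  constructor <;> linarith

theorem nsl {ε : ℝ} (hε : 0 < ε) : ∃ C : ℝ, 1 ≤ C ∧ ∀ u Y σ : ℝ, 3 ≤ |u| → Y = Real.log |u| ^ (2 / 3 : ℝ) →
    1 ≤ σ → σ ≤ 1 + 1 / Y →
    |Real.log ‖riemannZeta (σ + u * I)‖ - Real.log ‖riemannZeta (1 + 1 / Y + u * I)‖| ≤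
      ε * max 0 (Real.log (Y / ‖riemannZeta (1 + 1 / Y + u * I)‖)) + C := by
  obtain ⟨C, hC, h⟩ := nsl_aux hε
  refine ⟨C, hC, fun u Y σ hu hY hσ1 hσ2 => ?_⟩
  rcases hσ1.lt_or_eq with hlt | heq
  · exact h u Y σ hu hY hlt hσ2
  subst heq
  have hL1 : 1 ≤ Real.log |u| := by
    have h1 : Real.log 3 ≤ Real.log |u| := Real.log_le_log (by norm_num) hu
    have h2 : 1 ≤ Real.log 3 := by
      rw [Real.le_log_iff_exp_le (by norm_num)]
      exact Real.exp_one_lt_three.le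
    linarith
  have hY1 : 1 ≤ Y := by
    rw [hY]
    exact Real.one_le_rpow hL1 (by norm_num)
  have hY0 : 0 < 1 / Y := by positivity
  have hu0 : u ≠ 0 := by
    intro h0
    rw [h0, abs_zero] at hu
    norm_num at hu
  have hs1 : (((1 : ℝ) : ℂ) + u * I) ≠ 1 := by
    intro h0
    have h1 := congrArg Complex.im h0
    simp at h1
    exact hu0 h1
  have hcont : ContinuousAt (fun σ : ℝ => riemannZeta ((σ : ℂ) + u * I)) 1 := by
    have h1 : ContinuousAt riemannZeta (((1 : ℝ) : ℂ) + u * I) :=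
      (differentiableAt_riemannZeta hs1).continuousAt
    have h2 : ContinuousAt (fun σ : ℝ => (σ : ℂ) + u * I) 1 :=
      (Complex.continuous_ofReal.add continuous_const).continuousAt
    exact ContinuousAt.comp (g := riemannZeta) (f := fun σ : ℝ => (σ : ℂ) + u * I) h1 h2
  have hne : riemannZeta (((1 : ℝ) : ℂ) + u * I) ≠ 0 := by
    refine riemannZeta_ne_zero_of_one_le_re ?_
    simp
  have hT : Filter.Tendsto (fun σ : ℝ => |Real.log ‖riemannZeta ((σ : ℂ) + u * I)‖ -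
      Real.log ‖riemannZeta (1 + 1 / Y + u * I)‖|) (nhdsWithin 1 (Set.Ioi 1))
      (nhds |Real.log ‖riemannZeta (((1 : ℝ) : ℂ) + u * I)‖ -
      Real.log ‖riemannZeta (1 + 1 / Y + u * I)‖|) := by
    have h1 : ContinuousAt (fun σ : ℝ => |Real.log ‖riemannZeta ((σ : ℂ) + u * I)‖ -
        Real.log ‖riemannZeta (1 + 1 / Y + u * I)‖|) 1 :=
      ((hcont.norm.log (norm_ne_zero_iff.2 hne)).sub continuousAt_const).abs
    exact h1.tendsto.mono_left nhdsWithin_le_nhds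
  refine le_of_tendsto hT ?_
  have h2 : Set.Ioc (1 : ℝ) (1 + 1 / Y) ∈ nhdsWithin 1 (Set.Ioi 1) :=
    Ioc_mem_nhdsGT (by linarith)
  filter_upwards [h2] with σ hσ
  exact h u Y σ hu hY hσ.1 hσ.2

end Pool.Agent.H48.RZ
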