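import Mathlib
import Pool.Agent.H76.GL.Defs
import Pool.Agent.H52.RK.HlocG
import Pool.Agent.H6.Win.ZetaLoc

/-!
# ZL: Landau's argument with relative growth

PROOF.  Copy `vk`/its lemmas from `H52/ZR/VKF.lean` (`lam`, `term_re`, `lam_comb`, `logDeriv_zetaPole`, `lam_real`).  `exists_HG` with
`η = 1`, radius `(3/2) a`, growth `Λ` (`(1 + 1) (3/2) a = 3a`): in the closed disc of radius `(3/2) a` around `pt a t`, `t = ρ.im` or
`2 ρ.im`: `zetaPole'/zetaPole z = ∑_{u ∈ S} zord u/(z - u) + H z`, `‖H‖ ≤ C Λ/a`; real parts `Re 1/(z - u) ≥ 0` for `Re z ≥ 1`.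
`η = 1 - Re ρ > 0`; we may assume `η ≤ a/4` (otherwise `η Λ ≥ a/4`), then `ρ` is in the disc.  For `0 < x ≤ a`,
`z = 1 + x + i ρ.im`: `-Re lam' ...`: with `lam (z) = -ζ'/ζ (z) = 1/(z - 1) - zetaPole'/zetaPole (z)` and `‖1/(z - 1)‖ ≤ 1`
(`|ρ.im| ≥ 1`): `Re lam (1 + x + i ρ.im) ≤ 1 - 1/(x + η) + C Λ/a`, `Re lam (1 + x + 2 i ρ.im) ≤ 1 + C Λ/a`,
`lam (1 + x) ≤ 1/x + C`.  `lam_comb`: `0 ≤ 3/x - 4/(x + η) + C' Λ/a` (`1 ≤ Λ/a`, as `a ≤ 1 ≤ Λ`).  With `x = κ a/Λ`, `κ` small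
(`κ C' ≤ 1/4`, `κ ≤ 1`): `4/(x + η) ≤ 3/x + 1/(4x) = (13/4)/x`, so `x + η ≥ (16/13) x`, `η ≥ (3/13) κ a/Λ`.  About 180 lines.
-/

set_option autoImplicit false

open Complex Metric Set Filter Topology

namespace Pool.Agent.H48.RZ

open Pool.Agent.H6 Pool.Agent.H6.Win Pool.Agent.H76.CR Pool.Agent.H52.RK Pool.Agent.H76.GL

section VonMangoldt

open scoped ArithmeticFunction.vonMangoldt

/-- the Dirichlet series of the von Mangoldt function -/
private noncomputable def lam (s : ℂ) : ℂ := LSeries (fun n => ((Λ n : ℝ) : ℂ)) s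

private lemma term_re (σ t : ℝ) (n : ℕ) (hn : n ≠ 0) :
    LSeries.term (fun n => ((Λ n : ℝ) : ℂ)) ((σ : ℂ) + t * I) n =
      ((Λ n * (n : ℝ) ^ (-σ) : ℝ) : ℂ) * ((n : ℂ) ^ (-(t * I))) := by
  have hn0 : (n : ℂ) ≠ 0 := by exact_mod_cast hn
  rw [LSeries.term_of_ne_zero hn, div_eq_mul_inv, ← Complex.cpow_neg, neg_add,
    Complex.cpow_add _ _ hn0]
  push_cast
  rw [Complex.ofReal_cpow (by positivity)]
  push_cast
  ring

private lemma lam_comb {σ : ℝ} (hσ : 1 < σ) (t : ℝ) :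
    0 ≤ 3 * (lam (σ : ℂ)).re + 4 * (lam ((σ : ℂ) + t * I)).re +
      (lam ((σ : ℂ) + (2 * t : ℝ) * I)).re := by
  have hs : ∀ u : ℝ, LSeriesSummable (fun n => ((Λ n : ℝ) : ℂ)) ((σ : ℂ) + u * I) := by
    intro u
    apply ArithmeticFunction.LSeriesSummable_vonMangoldt
    simpa using hσ
  have e0 : (σ : ℂ) = (σ : ℂ) + (0 : ℝ) * I := by simp
  have hre : ∀ u : ℝ, (lam ((σ : ℂ) + u * I)).re =
      ∑' n, (LSeries.term (fun n => ((Λ n : ℝ) : ℂ)) ((σ : ℂ) + u * I) n).re := by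
    intro u
    unfold lam LSeries
    exact Complex.re_tsum (hs u)
  have hsr : ∀ u : ℝ, Summable fun n =>
      (LSeries.term (fun n => ((Λ n : ℝ) : ℂ)) ((σ : ℂ) + u * I) n).re := by
    intro u
    exact (Complex.hasSum_re (hs u).hasSum).summable
  have hre0 : (lam (σ : ℂ)).re =
      ∑' n, (LSeries.term (fun n => ((Λ n : ℝ) : ℂ)) ((σ : ℂ) + (0 : ℝ) * I) n).re := by
    rw [← hre 0, ← e0]
  rw [hre0, add_assoc, hre t, hre (2 * t), ← tsum_mul_left, ← tsum_mul_left,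
    ← (((hsr t).mul_left 4).tsum_add (hsr (2 * t))),
    ← (((hsr 0).mul_left 3).tsum_add (((hsr t).mul_left 4).add (hsr (2 * t))))]
  apply tsum_nonneg
  intro n
  rcases eq_or_ne n 0 with rfl | hn
  · simp
  rw [term_re _ _ _ hn, term_re _ _ _ hn, term_re _ _ _ hn]
  have hn0 : (n : ℂ) ≠ 0 := by exact_mod_cast hn
  have h0 : (n : ℂ) ^ (-(((0 : ℝ) : ℂ) * I)) = 1 := by simp
  have h2 : (n : ℂ) ^ (-(((2 * t : ℝ) : ℂ) * I)) = ((n : ℂ) ^ (-((t : ℂ) * I))) ^ 2 := by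
    rw [← Complex.cpow_nat_mul]
    congr 1
    push_cast
    ring
  have h1 : ‖(n : ℂ) ^ (-((t : ℂ) * I))‖ = 1 := by
    have := Complex.norm_natCast_cpow_of_pos (Nat.pos_of_ne_zero hn) (-((t : ℂ) * I))
    rw [this]
    simp
  rw [h0, h2, Complex.re_ofReal_mul, Complex.re_ofReal_mul, Complex.re_ofReal_mul]
  set z : ℂ := (n : ℂ) ^ (-((t : ℂ) * I))
  have h3 : z.re ^ 2 + z.im ^ 2 = 1 := by
    have := Complex.sq_norm z
    rw [h1, Complex.normSq_apply] at this
    nlinarith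
  have h4 : (z ^ 2).re = z.re ^ 2 - z.im ^ 2 := by
    rw [pow_two, Complex.mul_re]
    ring
  have h5 : 0 ≤ Λ n * (n : ℝ) ^ (-σ) :=
    mul_nonneg ArithmeticFunction.vonMangoldt_nonneg (by positivity)
  rw [h4, Complex.one_re]
  have h6 : 3 * (Λ n * (n : ℝ) ^ (-σ) * 1) + (4 * (Λ n * (n : ℝ) ^ (-σ) * z.re) +
      Λ n * (n : ℝ) ^ (-σ) * (z.re ^ 2 - z.im ^ 2)) =
      Λ n * (n : ℝ) ^ (-σ) * (2 * (1 + z.re) ^ 2) := by
    have : z.im ^ 2 = 1 - z.re ^ 2 := by linarith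
    rw [this]
    ring
  rw [h6]
  positivity

private lemma logDeriv_zetaPole {s : ℂ} (hs : 1 < s.re) :
    deriv zetaPole s / zetaPole s = 1 / (s - 1) - lam s := by
  have hs1 : s ≠ 1 := by intro h; rw [h, one_re] at hs; exact lt_irrefl _ hs
  have h2 : zetaPole =ᶠ[𝓝 s] fun s ↦ (s - 1) * riemannZeta s := by
    filter_upwards [isOpen_ne.mem_nhds hs1] with z hz
    exact zetaPole_of_ne hz
  rw [h2.deriv_eq, zetaPole_of_ne hs1]
  have h3 : HasDerivAt (fun s ↦ (s - 1) * riemannZeta s)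
      (1 * riemannZeta s + (s - 1) * deriv riemannZeta s) s :=
    ((hasDerivAt_id s).sub_const 1).mul (differentiableAt_riemannZeta hs1).hasDerivAt
  rw [h3.deriv]
  have h4 : lam s = - deriv riemannZeta s / riemannZeta s :=
    ArithmeticFunction.LSeries_vonMangoldt_eq_deriv_riemannZeta_div hs
  rw [h4]
  have h5 := riemannZeta_ne_zero_of_one_lt_re hs
  have h6 : s - 1 ≠ 0 := sub_ne_zero.mpr hs1
  field_simp
  ring

/-- `-ζ'/ζ(σ) ≤ 1/(σ-1) + C` -/
private lemma lam_real : ∃ C : ℝ, 0 < C ∧ ∀ σ : ℝ, 1 < σ → σ ≤ 2 →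
    (lam (σ : ℂ)).re ≤ 1 / (σ - 1) + C := by
  have hc : ContinuousOn (fun x : ℝ => deriv zetaPole (x : ℂ) / zetaPole (x : ℂ)) (Icc 1 2) := by
    apply ContinuousOn.div
    · have : Continuous (deriv zetaPole) := by
        have h := zetaPole_differentiable.contDiff (n := 1)
        exact h.continuous_deriv le_rfl
      exact (this.comp continuous_ofReal).continuousOn
    · exact (zetaPole_differentiable.continuous.comp continuous_ofReal).continuousOn
    · intro x hx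
      exact zetaPole_ne_zero_of_one_le (by simpa using hx.1)
  obtain ⟨B, hB⟩ := isCompact_Icc.exists_bound_of_continuousOn hc
  refine ⟨max B 1, by positivity, fun σ h1 h2 => ?_⟩
  have h3 := hB σ ⟨h1.le, h2⟩
  have h4 := logDeriv_zetaPole (s := (σ : ℂ)) (by simpa using h1)
  have h5 : lam (σ : ℂ) = 1 / ((σ : ℂ) - 1) - deriv zetaPole σ / zetaPole σ := by
    rw [h4]; ring
  rw [h5, Complex.sub_re]
  have h6 : (1 / ((σ : ℂ) - 1)).re = 1 / (σ - 1) := by
    have : (1 / ((σ : ℂ) - 1)) = ((1 / (σ - 1) : ℝ) : ℂ) := by push_cast; ring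
    rw [this, Complex.ofReal_re]
  rw [h6]
  have h7 := (Complex.abs_re_le_norm (deriv zetaPole (σ : ℂ) / zetaPole σ)).trans h3
  rw [abs_le] at h7
  have := le_max_left B 1
  linarith [h7.1]

/-- real part of `1/(z-u)` for `z` to the right of `u` -/
private lemma re_inv_nonneg {z u : ℂ} (h : u.re ≤ z.re) (k : ℕ) :
    0 ≤ ((k : ℂ) / (z - u)).re := by
  have : ((k : ℂ) / (z - u)).re = k * (z.re - u.re) / Complex.normSq (z - u) := by
    rw [Complex.div_re]
    simp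
  rw [this]
  have h1 := Complex.normSq_nonneg (z - u)
  have h2 : 0 ≤ z.re - u.re := by linarith
  positivity


end VonMangoldt

/-- Landau's lemma at the height of a zero and elsewhere -/
private lemma landau : ∃ C : ℝ, 0 < C ∧ ∀ a t L x : ℝ, 0 < a → 1 ≤ |t| → Gr a t L → 0 < x → x ≤ a →
    (lam (pt x t)).re ≤ 1 + C * L / a ∧
    ∀ ρ : ℂ, zetaPole ρ = 0 → ρ.im = t → 1 - ρ.re ≤ a / 4 →
      (lam (pt x t)).re ≤ 1 + C * L / a - 1 / (x + (1 - ρ.re)) := by
  obtain ⟨C, hC, h⟩ := exists_HG (η := 1) one_pos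
  refine ⟨C, hC, fun a t L x ha ht hg hx hxa => ?_⟩
  have hr : 0 < 3 / 2 * a := by positivity
  have hG : 0 < L := by linarith [hg.1]
  obtain ⟨S, H, hS1, hS2, hS3, hS4, hS5, hS6⟩ := h a (3 / 2 * a) t L ha hr hG (by
    intro z hz
    refine hg.2 z ?_
    have e : (1 + 1) * (3 / 2 * a) = 3 * a := by ring
    rw [e] at hz
    exact hz)
  have hre : (pt x t).re = 1 + x := by simp [pt]
  have him : (pt x t).im = t := by simp [pt]
  have hre' : (pt a t).re = 1 + a := by simp [pt]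
  have him' : (pt a t).im = t := by simp [pt]
  have h1 : 1 < (pt x t).re := by rw [hre]; linarith
  have hne : zetaPole (pt x t) ≠ 0 := zetaPole_ne_zero_of_one_le h1.le
  have hdist : dist (pt x t) (pt a t) ≤ a - x := by
    have e1 : pt x t - pt a t = ((x - a : ℝ) : ℂ) := by
      apply Complex.ext
      · rw [Complex.sub_re, hre, hre', Complex.ofReal_re]
        ring
      · rw [Complex.sub_im, him, him', Complex.ofReal_im, sub_self]
    rw [dist_eq_norm, e1, Complex.norm_real, Real.norm_eq_abs, abs_sub_comm, abs_of_nonneg (by linarith)]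
  have h2 := hS6 (pt x t) (by rw [mem_ball]; linarith) hne
  rw [logDeriv_zetaPole h1] at h2
  have h3 : lam (pt x t) = 1 / (pt x t - 1) - H (pt x t) - ∑ u ∈ S, (zord u : ℂ) / (pt x t - u) := by
    linear_combination -h2
  have h4 : (1 / (pt x t - 1)).re ≤ 1 := by
    have h6 : ‖1 / (pt x t - 1)‖ ≤ 1 := by
      rw [norm_div, norm_one]
      have h7 := Complex.abs_im_le_norm (pt x t - 1)
      rw [Complex.sub_im, him, Complex.one_im, sub_zero] at h7
      rw [div_le_one (by linarith)]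
      linarith
    exact (Complex.re_le_norm _).trans h6
  have h5 : -(H (pt x t)).re ≤ C * L / a := by
    have h6 := (Complex.abs_re_le_norm _).trans (hS5 (pt x t) (by rw [mem_closedBall]; linarith))
    have h7 : C * L / (3 / 2 * a) ≤ C * L / a := by
      apply div_le_div_of_nonneg_left (by positivity) ha (by linarith)
    linarith [(abs_le.1 h6).1]
  have h6 : ∀ v ∈ S, 0 ≤ ((zord v : ℂ) / (pt x t - v)).re := by
    intro v hv
    apply re_inv_nonneg
    by_contra h7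
    rw [hre, not_le] at h7
    exact zetaPole_ne_zero_of_one_le (s := v) (by linarith) ((hS1 v).1 hv).2
  have h7 : (lam (pt x t)).re = (1 / (pt x t - 1)).re - (H (pt x t)).re -
      ∑ u ∈ S, ((zord u : ℂ) / (pt x t - u)).re := by
    rw [h3, Complex.sub_re, Complex.sub_re, Complex.re_sum]
  refine ⟨?_, fun ρ hρ hρt hρr => ?_⟩
  · have := Finset.sum_nonneg h6
    linarith
  · have h8 : ρ.re < 1 := by
      by_contra h9
      exact zetaPole_ne_zero_of_one_le (not_lt.1 h9) hρ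
    have e1 : pt x t - ρ = ((x + (1 - ρ.re) : ℝ) : ℂ) := by
      apply Complex.ext
      · rw [Complex.sub_re, hre, Complex.ofReal_re]
        ring
      · rw [Complex.sub_im, him, Complex.ofReal_im, hρt, sub_self]
    have e1' : pt a t - ρ = ((a + (1 - ρ.re) : ℝ) : ℂ) := by
      apply Complex.ext
      · rw [Complex.sub_re, hre', Complex.ofReal_re]
        ring
      · rw [Complex.sub_im, him', Complex.ofReal_im, hρt, sub_self]
    have hmem : ρ ∈ S := by
      rw [hS1]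
      refine ⟨?_, hρ⟩
      rw [mem_closedBall, dist_comm, dist_eq_norm, e1', Complex.norm_real, Real.norm_eq_abs,
        abs_of_pos (by linarith)]
      linarith
    have h9 := Finset.single_le_sum (f := fun v => ((zord v : ℂ) / (pt x t - v)).re) h6 hmem
    have h10 : 1 / (x + (1 - ρ.re)) ≤ ((zord ρ : ℂ) / (pt x t - ρ)).re := by
      rw [e1]
      have e2 : ((zord ρ : ℂ) / ((x + (1 - ρ.re) : ℝ) : ℂ)) =
          (((zord ρ : ℝ) / (x + (1 - ρ.re)) : ℝ) : ℂ) := by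
        push_cast
        rfl
      rw [e2, Complex.ofReal_re]
      have h11 : (1 : ℝ) ≤ zord ρ := by exact_mod_cast zord_pos hρ
      have h12 : 0 < x + (1 - ρ.re) := by linarith
      gcongr
    have h11 : ((zord ρ : ℂ) / (pt x t - ρ)).re ≤ ∑ u ∈ S, ((zord u : ℂ) / (pt x t - u)).re := h9
    linarith

/-- the end of the argument -/
private lemma vk_end {a δ x : ℝ} (ha : 0 < a) (hδ : 0 < δ) (hx : x ≤ 1 / 2)
    (h : 4 * (1 / (a + δ)) ≤ (3 + x) / a) : a / 7 ≤ δ := by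
  have h1 : 4 * a ≤ (3 + x) * (a + δ) := by
    rw [mul_one_div, div_le_div_iff₀ (by linarith) ha] at h
    exact h
  have h2 : (3 + x) * (a + δ) ≤ 7 / 2 * (a + δ) :=
    mul_le_mul_of_nonneg_right (by linarith) (by linarith)
  linarith

theorem zl : ∃ c : ℝ, 0 < c ∧ ∀ (a Λ : ℝ) (ρ : ℂ), 0 < a → a ≤ 1 → riemannZeta ρ = 0 → 1 ≤ |ρ.im| →
    Gr a ρ.im Λ → Gr a (2 * ρ.im) Λ → c * a ≤ (1 - ρ.re) * Λ := by
  obtain ⟨C, hC, hlan⟩ := landau
  obtain ⟨C0, hC0, hreal⟩ := lam_real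
  obtain ⟨D, hD⟩ : ∃ D : ℝ, D = 3 * C0 + 5 + 5 * C := ⟨_, rfl⟩
  have hD5 : 5 ≤ D := by rw [hD]; linarith
  refine ⟨1 / (14 * D), by positivity, fun a L ρ ha ha1 hz ht hg1 hg2 => ?_⟩
  have hL : 1 ≤ L := hg1.1
  have hs1 : ρ.re < 1 := by
    by_contra h
    exact riemannZeta_ne_zero_of_one_le_re (not_lt.1 h) hz
  have hδ : 0 < 1 - ρ.re := by linarith
  rcases le_or_gt (1 - ρ.re) (a / 4) with hcase | hcase
  · have hsne : ρ ≠ 1 := by
      intro h; rw [h, one_re] at hs1; exact lt_irrefl _ hs1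
    have hzp : zetaPole ρ = 0 := by rw [zetaPole_of_ne hsne, hz, mul_zero]
    obtain ⟨x, hx⟩ : ∃ x : ℝ, x = a / (2 * D * L) := ⟨_, rfl⟩
    have hx0 : 0 < x := by rw [hx]; positivity
    have hxa : x ≤ a := by
      rw [hx]
      refine div_le_self ha.le ?_
      nlinarith
    have h2t : |2 * ρ.im| = 2 * |ρ.im| := by rw [abs_mul, abs_two]
    have h1 := (hlan a ρ.im L x ha ht hg1 hx0 hxa).2 ρ hzp rfl hcase
    have h2 := (hlan a (2 * ρ.im) L x ha (by rw [h2t]; linarith) hg2 hx0 hxa).1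
    have h3 := hreal (1 + x) (by linarith) (by linarith)
    have h4 := lam_comb (σ := 1 + x) (by linarith) ρ.im
    have h5 : (1 + x : ℝ) - 1 = x := by ring
    rw [h5] at h3
    have e0 : ((1 + x : ℝ) : ℂ) + (ρ.im : ℂ) * I = pt x ρ.im := by simp [pt]
    have e1 : ((1 + x : ℝ) : ℂ) + ((2 * ρ.im : ℝ) : ℂ) * I = pt x (2 * ρ.im) := by simp [pt]
    rw [e0, e1] at h4
    have hLa : 1 ≤ L / a := by
      rw [le_div_iff₀ ha]
      linarith
    have h6 : 4 * (1 / (x + (1 - ρ.re))) ≤ (3 + 1 / 2) / x := by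
      have e4 : (3 + 1 / 2) / x = 3 * (1 / x) + D * (L / a) := by
        rw [hx]
        field_simp
      have e5 : D * (L / a) = (3 * C0 + 5) * (L / a) + 5 * (C * L / a) := by
        rw [hD]
        ring
      have e6 : (3 * C0 + 5) * 1 ≤ (3 * C0 + 5) * (L / a) := by gcongr
      rw [e4, e5]
      linarith
    have h7 := vk_end hx0 hδ le_rfl h6
    have e7 : 1 / (14 * D) * a = x / 7 * L := by
      rw [hx]
      field_simp
      norm_num
    rw [e7]
    exact mul_le_mul_of_nonneg_right h7 (by linarith)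
  · have h1 : 1 / (14 * D) ≤ 1 / 4 := by
      apply one_div_le_one_div_of_le (by norm_num) (by linarith)
    calc 1 / (14 * D) * a ≤ 1 / 4 * a := by gcongr
      _ = a / 4 * 1 := by ring
      _ ≤ (1 - ρ.re) * L := by
        apply mul_le_mul hcase.le hL (by norm_num) hδ.le

end Pool.Agent.H48.RZ
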