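import Mathlib
import Pool.Agent.H48.RZ.ZL
import Pool.Agent.H48.RZ.GrM
import Pool.Agent.H48.RZ.Trg
import Pool.Agent.H52.ZR.Low

/-!
# ZF: zero-free region in terms of the size of zeta

PROOF.  `g = |ρ.im|`, `L = log g ≥ 1`, `Y = L^(2/3)`, `M = MD ρ.im Y ≤ 2 PS 0 0 Y` (`abs_PS_le`).  `lz` (`X = Y`), `mer` (2):
`log ‖ζ(1 + 1/Y + iρ.im)‖ = PS ρ.im 0 Y + O(1) = log Y - M + O(1)`, so `M ≤ max 0 (log (Y/‖ζ‖)) + C`.  If `Y ≥ Y0`: `grM` for
`u = ρ.im` and `u = 2 ρ.im` (`MD_two`; `log |2 ρ.im| ≤ 2L`): `Gr a _ (C (1 + M))`, `a = (1 + M)^(2/3)/(4Y) ≤ 1`; `zl`: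
`c (1 + M)^(2/3)/(4Y) ≤ (1 - Re ρ) C (1 + M)`, so `c' ≤ (1 - Re ρ) Y (1 + M)^(1/3)`.  If `Y < Y0`: `g` is bounded, `vk_all`
(`H52/ZR/Low.lean`), `vklam` monotone, `Y ≥ 1` (`g ≥ 3`).  Finally `1 + M ≤ C (1 + max 0 (log (Y/‖ζ‖)))`.  About 100 lines.
-/

set_option autoImplicit false

open Complex

namespace Pool.Agent.H48.RZ

open Pool.Agent.H76.GL in
theorem zf : ∃ c : ℝ, 0 < c ∧ ∀ (ρ : ℂ) (Y : ℝ), riemannZeta ρ = 0 → 0 < ρ.re → 3 ≤ |ρ.im| →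
    Y = Real.log |ρ.im| ^ (2 / 3 : ℝ) →
    c ≤ (1 - ρ.re) * (Y * (1 + max 0 (Real.log (Y / ‖riemannZeta (1 + 1 / Y + ρ.im * I)‖))) ^ (1 / 3 : ℝ)) := by
  obtain ⟨C1, hC1, hlz⟩ := lz
  obtain ⟨C2, hC2, -, hmer, -⟩ := mer
  obtain ⟨C4, Y0, hC4, hY0, hgr⟩ := grM
  obtain ⟨c5, hc5, hzl⟩ := zl
  obtain ⟨c6, hc6, hvk⟩ := Pool.Agent.H52.ZR.vk_all
  have hG0 : (0 : ℝ) ≤ Real.exp (Y0 ^ (3 / 2 : ℝ)) := (Real.exp_pos _).le
  have hvG := Pool.Agent.H52.ZR.vklam_ge hG0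
  refine ⟨min (c5 / (4 * C4 * (1 + (C1 + C2))))
    (c6 / Pool.Agent.H52.ZR.vklam (Real.exp (Y0 ^ (3 / 2 : ℝ)))), lt_min (by positivity)
    (div_pos hc6 (by linarith)), ?_⟩
  intro ρ Y hρ hre him hY
  have hg : 0 < |ρ.im| := by linarith
  have hL : 1 ≤ Real.log |ρ.im| := by
    rw [Real.le_log_iff_exp_le hg]
    have := Real.exp_one_lt_d9
    linarith
  have hY1 : 1 ≤ Y := by
    rw [hY]
    exact Real.one_le_rpow hL (by norm_num)
  have hY0' : 0 < Y := by linarith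
  have hr : 0 ≤ 1 - ρ.re := by
    by_contra hcon
    exact riemannZeta_ne_zero_of_one_le_re (by linarith : 1 ≤ ρ.re) hρ
  set E : ℝ := max 0 (Real.log (Y / ‖riemannZeta (1 + 1 / Y + ρ.im * I)‖)) with hE
  have hE0 : 0 ≤ E := le_max_left _ _
  have hE1 : 1 ≤ (1 + E) ^ (1 / 3 : ℝ) := Real.one_le_rpow (by linarith) (by norm_num)
  rcases lt_or_ge Y Y0 with h | h
  · refine (min_le_right _ _).trans ?_
    have hLb : Real.log |ρ.im| ≤ Y0 ^ (3 / 2 : ℝ) := by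
      have h1 : Real.log |ρ.im| = Y ^ (3 / 2 : ℝ) := by
        rw [hY, ← Real.rpow_mul (by linarith)]
        norm_num
      rw [h1]
      exact Real.rpow_le_rpow hY0'.le h.le (by norm_num)
    have hgG : |ρ.im| ≤ Real.exp (Y0 ^ (3 / 2 : ℝ)) := (Real.log_le_iff_le_exp hg).1 hLb
    have h1 := hvk ρ hρ hre
    have h2 := Pool.Agent.H52.ZR.vklam_mono (abs_nonneg ρ.im) hgG
    have h3 : c6 ≤ (1 - ρ.re) * Pool.Agent.H52.ZR.vklam (Real.exp (Y0 ^ (3 / 2 : ℝ))) :=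
      h1.trans (mul_le_mul_of_nonneg_left h2 hr)
    have h4 : c6 / Pool.Agent.H52.ZR.vklam (Real.exp (Y0 ^ (3 / 2 : ℝ))) ≤ 1 - ρ.re := by
      rw [div_le_iff₀ (by linarith)]
      exact h3
    have h5 : 1 ≤ Y * (1 + E) ^ (1 / 3 : ℝ) := by nlinarith
    nlinarith
  · refine (min_le_left _ _).trans ?_
    set M : ℝ := MD ρ.im Y with hM
    have hM0 : 0 ≤ M := MD_nonneg _ _
    have hM2 : M ≤ 2 * PS 0 0 Y := by
      have h1 := (abs_le.1 (abs_PS_le ρ.im 0 Y)).1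
      rw [hM]
      unfold MD
      linarith
    have hME : M ≤ E + (C1 + C2) := by
      have h1 := (abs_le.1 (hlz Y ρ.im hY1)).2
      have h2 := (abs_le.1 (hmer Y hY1)).2
      have h3 : PS ρ.im 0 Y = PS 0 0 Y - M := by
        rw [hM]
        unfold MD
        ring
      have hz : riemannZeta (1 + 1 / Y + ρ.im * I) ≠ 0 := by
        apply riemannZeta_ne_zero_of_one_le_re
        have e : (1 + 1 / Y + ρ.im * I : ℂ) = ((1 + 1 / Y : ℝ) : ℂ) + ρ.im * I := by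
          push_cast
          ring
        rw [e]
        have : 0 < 1 / Y := by positivity
        simp
        positivity
      have h4 : Real.log (Y / ‖riemannZeta (1 + 1 / Y + ρ.im * I)‖) ≤ E := le_max_right _ _
      rw [Real.log_div (by positivity) (norm_ne_zero_iff.2 hz)] at h4
      linarith
    have h1M : 1 + M ≤ (1 + (C1 + C2)) * (1 + E) := by nlinarith
    obtain ⟨ha1, hG1⟩ := hgr (Real.log |ρ.im|) Y ρ.im M h hY him (by linarith) hL hM0 hM2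
      (by linarith)
    obtain ⟨-, hG2⟩ := hgr (Real.log |ρ.im|) Y (2 * ρ.im) M h hY
      (by
        rw [abs_mul, abs_two]
        linarith)
      (by
        rw [abs_mul, abs_two, Real.log_mul (by norm_num) hg.ne']
        linarith [Real.log_two_lt_d9])
      hL hM0 hM2 (MD_two ρ.im Y)
    have hP : 0 < (1 + M) ^ (2 / 3 : ℝ) := Real.rpow_pos_of_pos (by linarith) _
    have hQ : 0 < (1 + M) ^ (1 / 3 : ℝ) := Real.rpow_pos_of_pos (by linarith) _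
    have hPQ : (1 + M) ^ (2 / 3 : ℝ) * (1 + M) ^ (1 / 3 : ℝ) = 1 + M := by
      rw [← Real.rpow_add (by linarith)]
      norm_num
    have h5 := hzl ((1 + M) ^ (2 / 3 : ℝ) / (4 * Y)) (C4 * (1 + M)) ρ (by positivity) ha1 hρ
      (by linarith) hG1 hG2
    set P : ℝ := (1 + M) ^ (2 / 3 : ℝ) with hPd
    set Q : ℝ := (1 + M) ^ (1 / 3 : ℝ) with hQd
    have h6 : c5 * P ≤ (1 - ρ.re) * (C4 * (P * Q)) * (4 * Y) := by
      rw [hPQ]
      have h7 : c5 * (P / (4 * Y)) * (4 * Y) ≤ (1 - ρ.re) * (C4 * (1 + M)) * (4 * Y) :=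
        mul_le_mul_of_nonneg_right h5 (by positivity)
      have h8 : c5 * (P / (4 * Y)) * (4 * Y) = c5 * P := by
        field_simp
      rwa [h8] at h7
    have h7 : c5 ≤ (1 - ρ.re) * (C4 * Q) * (4 * Y) := by
      refine le_of_mul_le_mul_right ?_ hP
      calc c5 * P ≤ _ := h6
        _ = (1 - ρ.re) * (C4 * Q) * (4 * Y) * P := by ring
    have hC3 : 1 ≤ 1 + (C1 + C2) := by linarith
    have h8 : Q ≤ (1 + (C1 + C2)) * (1 + E) ^ (1 / 3 : ℝ) := by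
      calc Q ≤ ((1 + (C1 + C2)) * (1 + E)) ^ (1 / 3 : ℝ) :=
            Real.rpow_le_rpow (by linarith) h1M (by norm_num)
        _ = (1 + (C1 + C2)) ^ (1 / 3 : ℝ) * (1 + E) ^ (1 / 3 : ℝ) :=
            Real.mul_rpow (by linarith) (by linarith)
        _ ≤ (1 + (C1 + C2)) * (1 + E) ^ (1 / 3 : ℝ) := by
            refine mul_le_mul_of_nonneg_right ?_ (by linarith)
            calc (1 + (C1 + C2)) ^ (1 / 3 : ℝ) ≤ (1 + (C1 + C2)) ^ (1 : ℝ) :=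
                  Real.rpow_le_rpow_of_exponent_le hC3 (by norm_num)
              _ = _ := Real.rpow_one _
    rw [div_le_iff₀ (by positivity)]
    calc c5 ≤ (1 - ρ.re) * (C4 * Q) * (4 * Y) := h7
      _ ≤ (1 - ρ.re) * (C4 * ((1 + (C1 + C2)) * (1 + E) ^ (1 / 3 : ℝ))) * (4 * Y) := by
          have : 0 ≤ C4 := by linarith
          gcongr
      _ = _ := by ring

end Pool.Agent.H48.RZ
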