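import Mathlib
import Pool.Agent.H48.RZ.ZF
import Pool.Agent.H48.RZ.NSl

/-!
# Mlt: even multiples of a height at which zeta is near its minimal order
-/

set_option autoImplicit false

open Complex

namespace Pool.Agent.H48.RZ

/-- `MD` at neighbouring heights -/
theorem MD_near : ∃ C : ℝ, 0 < C ∧ ∀ Y u v : ℝ, 1 ≤ Y → |u - v| ≤ 1 / Y → MD u Y ≤ MD v Y + C := by
  obtain ⟨C, hC, -, -, h3⟩ := mer
  refine ⟨C, hC, fun Y u v hY huv => ?_⟩
  have hY0 : 0 < Y := by linarith
  have key : PS v 0 Y - PS u 0 Y ≤ C := by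
    unfold PS
    rw [← Finset.sum_sub_distrib]
    calc ∑ p ∈ Pr 0 Y, (Real.cos (v * Real.log p) / p - Real.cos (u * Real.log p) / p)
        ≤ ∑ p ∈ Pr 0 Y, 1 / Y * (Real.log p / p) := by
          refine Finset.sum_le_sum fun p hp => ?_
          obtain ⟨hp1, -, -⟩ := mem_Pr.1 hp
          have hp2 : (2 : ℝ) ≤ p := by exact_mod_cast hp1.two_le
          have hlp : 0 ≤ Real.log p := Real.log_nonneg (by linarith)
          have hp0 : (0 : ℝ) < p := by linarith
          rw [← sub_div, ← mul_div_assoc]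
          refine div_le_div_of_nonneg_right ?_ hp0.le
          have h4 : |Real.cos (v * Real.log p) - Real.cos (u * Real.log p)| ≤
              |v * Real.log p - u * Real.log p| := Real.abs_cos_sub_cos_le _ _
          have h5 : |v * Real.log p - u * Real.log p| = |u - v| * Real.log p := by
            rw [← sub_mul, abs_mul, abs_of_nonneg hlp, abs_sub_comm]
          calc Real.cos (v * Real.log p) - Real.cos (u * Real.log p) ≤
                |Real.cos (v * Real.log p) - Real.cos (u * Real.log p)| := le_abs_self _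
            _ ≤ |u - v| * Real.log p := by rw [← h5]; exact h4
            _ ≤ 1 / Y * Real.log p := mul_le_mul_of_nonneg_right huv hlp
      _ = 1 / Y * ∑ p ∈ Pr 0 Y, Real.log p / p := by rw [Finset.mul_sum]
      _ ≤ 1 / Y * (C * Y) := mul_le_mul_of_nonneg_left (h3 Y hY) (by positivity)
      _ = C := by field_simp
  unfold MD
  linarith

theorem mlt (K : ℝ) (k : ℕ) (hk : 1 ≤ k) : ∃ c : ℝ, 0 < c ∧ ∀ t Y γ : ℝ, 3 ≤ |t| →
    Y = Real.log |t| ^ (2 / 3 : ℝ) → Y * ‖riemannZeta (1 + 1 / Y + t * I)‖ ≤ K →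
    |γ - 2 * k * t| ≤ 1 / Y →
    c * Y ≤ ‖riemannZeta (1 + γ * I)‖ ∧
      ∀ β : ℝ, 0 < β → riemannZeta (β + γ * I) = 0 → c ≤ (1 - β) * Y := by
  obtain ⟨C1, hC1, h1⟩ := MD_near
  obtain ⟨C2, hC2, h2⟩ := lz
  obtain ⟨C3, hC3, h3, h4, -⟩ := mer
  obtain ⟨c4, hc4, h5⟩ := zf
  obtain ⟨C5, hC5, h6⟩ := nsl one_pos
  have hk1 : (1 : ℝ) ≤ k := by exact_mod_cast hk
  -- the scale at the height `γ` is at most `b Y`
  obtain ⟨b, hb⟩ : ∃ b : ℝ, b = (2 + Real.log (2 * k)) := ⟨_, rfl⟩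
  have hlk : 0 ≤ Real.log (2 * k) := Real.log_nonneg (by linarith)
  have hb2 : 2 ≤ b := by rw [hb]; linarith
  obtain ⟨K1, hK1⟩ : ∃ K1 : ℝ, K1 = Real.log (max K 1) + C2 + C3 := ⟨_, rfl⟩
  have hK10 : 0 ≤ K1 := by
    have : 0 ≤ Real.log (max K 1) := Real.log_nonneg (le_max_right _ _)
    rw [hK1]
    linarith
  obtain ⟨D, hD⟩ : ∃ D : ℝ, D = 4 * (k : ℝ) ^ 2 * K1 + C1 + 2 * (Real.log b + C3) + C3 + C2 := ⟨_, rfl⟩
  have hlb : 0 ≤ Real.log b := Real.log_nonneg (by linarith)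
  have hD0 : 0 ≤ D := by rw [hD]; positivity
  obtain ⟨c, hc⟩ : ∃ c : ℝ, c = min (Real.exp (-(D + (D + C5)))) (c4 / (b * (1 + D) ^ (1 / 3 : ℝ))) := ⟨_, rfl⟩
  have hc0 : 0 < c := by
    rw [hc]
    refine lt_min (Real.exp_pos _) ?_
    positivity
  refine ⟨c, hc0, ?_⟩
  intro t Y γ ht hY hZ hγ
  have ht0 : 0 < |t| := by linarith
  have hlt : 1 ≤ Real.log |t| := by
    rw [Real.le_log_iff_exp_le ht0]
    have := Real.exp_one_lt_d9
    linarith
  have hY1 : 1 ≤ Y := by
    rw [hY]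
    exact Real.one_le_rpow hlt (by norm_num)
  have hY0 : 0 < Y := by linarith
  have hYi : 1 / Y ≤ 1 := by rw [div_le_one hY0]; exact hY1
  have hYi0 : 0 < 1 / Y := by positivity
  -- the size of `γ`
  have habs : |2 * (k : ℝ) * t| = 2 * k * |t| := by
    rw [abs_mul, abs_of_nonneg (by positivity : (0 : ℝ) ≤ 2 * k)]
  have hg1 : |t| ≤ |γ| := by
    have e1 : |2 * (k : ℝ) * t| ≤ |γ - 2 * k * t| + |γ| := by
      have := abs_sub_abs_le_abs_sub (2 * (k : ℝ) * t) γ
      rw [abs_sub_comm] at this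
      linarith
    rw [habs] at e1
    nlinarith
  have hg2 : |γ| ≤ 2 * k * |t| * |t| := by
    have e1 : |γ| ≤ |γ - 2 * k * t| + |2 * (k : ℝ) * t| := by
      have := abs_add_le (γ - 2 * k * t) (2 * k * t)
      rwa [sub_add_cancel] at this
    rw [habs] at e1
    nlinarith
  have hg3 : 3 ≤ |γ| := ht.trans hg1
  obtain ⟨W, hW⟩ : ∃ W : ℝ, W = Real.log |γ| ^ (2 / 3 : ℝ) := ⟨_, rfl⟩
  have hlg : Real.log |t| ≤ Real.log |γ| := Real.log_le_log ht0 hg1
  have hlg2 : Real.log |γ| ≤ b * Real.log |t| := by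
    have e1 := Real.log_le_log (by linarith) hg2
    rw [Real.log_mul (by positivity) ht0.ne', Real.log_mul (by positivity) ht0.ne'] at e1
    rw [hb]
    nlinarith
  have hYW : Y ≤ W := by
    rw [hY, hW]
    exact Real.rpow_le_rpow (by linarith) hlg (by norm_num)
  have hWY : W ≤ b * Y := by
    rw [hY, hW]
    calc Real.log |γ| ^ (2 / 3 : ℝ) ≤ (b * Real.log |t|) ^ (2 / 3 : ℝ) :=
          Real.rpow_le_rpow (by linarith) hlg2 (by norm_num)
      _ = b ^ (2 / 3 : ℝ) * Real.log |t| ^ (2 / 3 : ℝ) := Real.mul_rpow (by linarith) (by linarith)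
      _ ≤ b * Real.log |t| ^ (2 / 3 : ℝ) := by
          apply mul_le_mul_of_nonneg_right _ (Real.rpow_nonneg (by linarith) _)
          calc b ^ (2 / 3 : ℝ) ≤ b ^ (1 : ℝ) :=
                Real.rpow_le_rpow_of_exponent_le (by linarith) (by norm_num)
            _ = b := Real.rpow_one b
  have hW1 : 1 ≤ W := hY1.trans hYW
  have hW0 : 0 < W := by linarith
  -- nonvanishing
  have hne : ∀ X u : ℝ, 1 ≤ X → 0 < ‖riemannZeta (1 + 1 / X + u * I)‖ := by
    intro X u hX
    rw [norm_pos_iff]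
    apply riemannZeta_ne_zero_of_one_lt_re
    have e : (1 + 1 / X + u * I : ℂ) = ((1 + 1 / X : ℝ) : ℂ) + u * I := by push_cast; ring
    have hX0 : 0 < X := by linarith
    have : 0 < 1 / X := by positivity
    rw [e]
    simp
    positivity
  -- `DD t Y` is bounded
  have hDD : DD t Y ≤ K1 := by
    have m2 := (abs_le.1 (h4 Y hY1)).2
    have m3 := (abs_le.1 (h2 Y t hY1)).1
    have m4 : Real.log (Y * ‖riemannZeta (1 + 1 / Y + t * I)‖) ≤ Real.log (max K 1) :=
      Real.log_le_log (mul_pos hY0 (hne Y t hY1)) (hZ.trans (le_max_left _ _))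
    rw [Real.log_mul hY0.ne' (hne Y t hY1).ne'] at m4
    rw [hK1]
    unfold DD
    linarith
  have hMD1 : MD (2 * k * t) Y ≤ 4 * (k : ℝ) ^ 2 * K1 :=
    (MD_DD t Y k).trans (mul_le_mul_of_nonneg_left hDD (by positivity))
  have hMD2 := h1 Y γ (2 * k * t) hY1 hγ
  -- from `Y` to `W`
  have hMD3 : MD γ W ≤ MD γ Y + 2 * (Real.log b + C3) := by
    have e0 := (abs_le.1 (h3 Y W hY1 hYW)).2
    have e1 : Real.log (W / Y) ≤ Real.log b :=
      Real.log_le_log (by positivity) (by rw [div_le_iff₀ hY0]; exact hWY)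
    have e2 := PS_add 0 hY0.le hYW
    have e3 := PS_add γ hY0.le hYW
    have e4 := (abs_le.1 (abs_PS_le γ Y W)).1
    unfold MD
    linarith
  -- the value at `1 + 1/W + iγ`
  have hz : Real.log W - D ≤ Real.log ‖riemannZeta (1 + 1 / W + γ * I)‖ := by
    have e1 := (abs_le.1 (h2 W γ hW1)).1
    have e2 := (abs_le.1 (h4 W hW1)).1
    have e3 : PS γ 0 W = PS 0 0 W - MD γ W := by unfold MD; ring
    rw [hD]
    linarith
  have hmax : max 0 (Real.log (W / ‖riemannZeta (1 + 1 / W + γ * I)‖)) ≤ D := by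
    refine max_le hD0 ?_
    rw [Real.log_div hW0.ne' (hne W γ hW1).ne']
    linarith
  constructor
  · have e1 := h6 γ W 1 hg3 hW le_rfl (by
      have : 0 < 1 / W := by positivity
      linarith)
    have e2 := (abs_le.1 e1).1
    have e3 : (((1 : ℝ) : ℂ) + γ * I) = 1 + γ * I := by push_cast; ring
    rw [e3] at e2
    have hne1 : 0 < ‖riemannZeta (1 + γ * I)‖ := by
      rw [norm_pos_iff]
      apply riemannZeta_ne_zero_of_one_le_re
      simp
    have e4 : Real.log Y + -(D + (D + C5)) ≤ Real.log ‖riemannZeta (1 + γ * I)‖ := by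
      have e5 : Real.log Y ≤ Real.log W := Real.log_le_log hY0 hYW
      linarith
    have e6 := Real.exp_le_exp.2 e4
    rw [Real.exp_add, Real.exp_log hY0, Real.exp_log hne1] at e6
    calc c * Y ≤ Real.exp (-(D + (D + C5))) * Y := by
          apply mul_le_mul_of_nonneg_right _ hY0.le
          rw [hc]
          exact min_le_left _ _
      _ = Y * Real.exp (-(D + (D + C5))) := mul_comm _ _
      _ ≤ _ := e6
  · intro β hβ hzero
    have him : ((β : ℂ) + γ * I).im = γ := by simp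
    have hre : ((β : ℂ) + γ * I).re = β := by simp
    have e1 := h5 (β + γ * I) W hzero (by rw [hre]; exact hβ) (by rw [him]; exact hg3) (by rw [him]; exact hW)
    rw [him, hre] at e1
    have hβ1 : β < 1 := by
      by_contra hcon
      exact riemannZeta_ne_zero_of_one_le_re (by rw [hre]; linarith) hzero
    have e2 : (1 + max 0 (Real.log (W / ‖riemannZeta (1 + 1 / W + γ * I)‖))) ^ (1 / 3 : ℝ) ≤
        (1 + D) ^ (1 / 3 : ℝ) := by
      apply Real.rpow_le_rpow _ (by linarith) (by norm_num)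
      have := le_max_left (0 : ℝ) (Real.log (W / ‖riemannZeta (1 + 1 / W + γ * I)‖))
      linarith
    have e3 : c4 ≤ (1 - β) * ((b * Y) * (1 + D) ^ (1 / 3 : ℝ)) := by
      refine e1.trans ?_
      have : 0 ≤ 1 - β := by linarith
      gcongr
    have hq : 0 < b * (1 + D) ^ (1 / 3 : ℝ) := by positivity
    calc c ≤ c4 / (b * (1 + D) ^ (1 / 3 : ℝ)) := by rw [hc]; exact min_le_right _ _
      _ ≤ (1 - β) * Y := by
          rw [div_le_iff₀ hq]
          calc c4 ≤ (1 - β) * ((b * Y) * (1 + D) ^ (1 / 3 : ℝ)) := e3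
            _ = (1 - β) * Y * (b * (1 + D) ^ (1 / 3 : ℝ)) := by ring

end Pool.Agent.H48.RZ
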