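import Mathlib
import Pool.Agent.H48.RZ.GB
import Pool.Agent.H48.RZ.Apx

/-!
# Mn: the lower bound for zeta to the right of `1 + 1/V`

PROOF.  `L = 2 log t`, `Y = L^(2/3)`.  `apx` with `ε/2`... (or `ε`): `K`, `a`.  For `p` in `Pr Y X` and `θ = t log p`:
`-cos θ ≤ |cos θ| ≤ 2/π + ε + ∑_k a_k cos (2kθ)`; divided by `p` and summed:
`-PS t Y X ≤ (2/π + ε) PS 0 Y X + ∑_{k=1}^K a_k PS (2kt) Y X`.  `mer` (1): `PS 0 Y X ≤ log (X/Y) + C`.  `gb` with
`ε' = 1/(1 + ∑_k 4k² |a_k|)` at `u = 2kt` (`3 ≤ 2kt`, `log (2kt) + 1 ≤ 2 log t` for `t ≥ t0 = 2eK + 3`...):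
`|a_k PS (2kt) Y X| ≤ |a_k| (ε' MD (2kt) Y + C') ≤ |a_k| (ε' 4k² DD t Y + C')` (`MD_DD`), sum `≤ DD t Y + C''`
(`DD_nonneg`).  So `-PS t 0 X = -PS t 0 Y - PS t Y X = PS 0 0 Y - DD t Y - PS t Y X ≤ PS 0 0 Y + (2/π + ε) log (X/Y) + C`,
`mer` (2), `lz`.  About 120 lines.
-/

set_option autoImplicit false

open Complex

namespace Pool.Agent.H48.RZ

/-- the primes in `(e^Y, e^X]`: `-PS t` in terms of `PS 0` and of `PS (2kt)` -/
private theorem Mn_cos {ε : ℝ} {K : ℕ} {a : ℕ → ℝ} (h : ∀ θ : ℝ,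
    |Real.cos θ| ≤ 2 / Real.pi + ε + ∑ k ∈ Finset.Icc 1 K, a k * Real.cos (2 * k * θ)) (t Y X : ℝ) :
    -PS t Y X ≤ (2 / Real.pi + ε) * PS 0 Y X + ∑ k ∈ Finset.Icc 1 K, a k * PS (2 * k * t) Y X := by
  have e : (2 / Real.pi + ε) * PS 0 Y X + ∑ k ∈ Finset.Icc 1 K, a k * PS (2 * k * t) Y X =
      ∑ p ∈ Pr Y X, (2 / Real.pi + ε + ∑ k ∈ Finset.Icc 1 K, a k * Real.cos (2 * k * (t * Real.log p))) / p := by
    rw [PS_zero, Finset.mul_sum]
    unfold PS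
    simp_rw [Finset.mul_sum]
    rw [Finset.sum_comm, ← Finset.sum_add_distrib]
    refine Finset.sum_congr rfl fun p _ => ?_
    rw [add_div, Finset.sum_div]
    congr 1
    · ring
    · refine Finset.sum_congr rfl fun k _ => ?_
      rw [← mul_assoc (2 * (k : ℝ)) t, mul_div_assoc]
  rw [e]
  unfold PS
  rw [← Finset.sum_neg_distrib]
  refine Finset.sum_le_sum fun p _ => ?_
  rw [← neg_div]
  refine div_le_div_of_nonneg_right ?_ (Nat.cast_nonneg p)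
  exact (neg_le_abs _).trans (h (t * Real.log p))

theorem mn {ε : ℝ} (hε : 0 < ε) : ∃ C t0 : ℝ, 1 ≤ C ∧ 5 ≤ t0 ∧ ∀ t X Y : ℝ, t0 ≤ t →
    Y = (2 * Real.log t) ^ (2 / 3 : ℝ) → Y ≤ X →
    -Real.log ‖riemannZeta (1 + 1 / X + t * I)‖ ≤ Real.log Y + (2 / Real.pi + ε) * Real.log (X / Y) + C := by
  obtain ⟨K, a, ha⟩ := apx hε
  obtain ⟨S, hS⟩ : ∃ S : ℝ, S = ∑ k ∈ Finset.Icc 1 K, 4 * (k : ℝ) ^ 2 * |a k| := ⟨_, rfl⟩
  have hS0 : 0 ≤ S := by
    rw [hS]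
    exact Finset.sum_nonneg fun k _ => by positivity
  obtain ⟨δ, hδ⟩ : ∃ δ : ℝ, δ = 1 / (1 + S) := ⟨_, rfl⟩
  have hδ0 : 0 < δ := by
    rw [hδ]
    positivity
  have hδS : δ * S ≤ 1 := by
    rw [hδ, div_mul_eq_mul_div, one_mul, div_le_one (by linarith)]
    linarith
  obtain ⟨C1, hC1, h1⟩ := lz
  obtain ⟨C2, hC2, h2⟩ := gb hδ0
  obtain ⟨C3, hC3, h3, h4, -⟩ := mer
  obtain ⟨T, hT⟩ : ∃ T : ℝ, T = ∑ k ∈ Finset.Icc 1 K, |a k| := ⟨_, rfl⟩
  have hT0 : 0 ≤ T := by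
    rw [hT]
    exact Finset.sum_nonneg fun k _ => abs_nonneg _
  have hpe : 0 < 2 / Real.pi + ε := by
    have := Real.pi_pos
    positivity
  refine ⟨1 + C1 + C3 + (2 / Real.pi + ε) * C3 + T * C2, 5 + 6 * K, ?_, ?_, ?_⟩
  · have e1 : 0 ≤ (2 / Real.pi + ε) * C3 := by positivity
    have e2 : 0 ≤ T * C2 := mul_nonneg hT0 (by linarith)
    linarith
  · have : (0 : ℝ) ≤ K := Nat.cast_nonneg K
    linarith
  intro t X Y ht hY hYX
  have hK0 : (0 : ℝ) ≤ K := Nat.cast_nonneg K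
  have ht5 : 5 ≤ t := by linarith
  have ht0 : 0 < t := by linarith
  have hlt : 3 / 2 ≤ Real.log t := by
    rw [Real.le_log_iff_exp_le ht0]
    have e1 : Real.exp (3 / 2) ≤ 5 := by
      have e2 : Real.exp (3 / 2) ^ 2 = Real.exp 1 ^ 3 := by
        rw [← Real.exp_nat_mul, ← Real.exp_nat_mul]
        norm_num
      have e3 : Real.exp 1 ^ 3 ≤ 2.7182818286 ^ 3 :=
        pow_le_pow_left₀ (Real.exp_pos 1).le Real.exp_one_lt_d9.le 3
      have e4 : Real.exp (3 / 2) ^ 2 ≤ 5 ^ 2 := by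
        rw [e2]
        refine e3.trans ?_
        norm_num
      exact le_of_sq_le_sq e4 (by norm_num)
    exact e1.trans ht5
  have hL3 : 3 ≤ 2 * Real.log t := by linarith
  have hY1 : 1 ≤ Y := by
    rw [hY]
    exact Real.one_le_rpow (by linarith) (by norm_num)
  have hY0 : 0 < Y := by linarith
  have hX1 : 1 ≤ X := hY1.trans hYX
  have hD : 0 ≤ DD t Y := DD_nonneg t Y
  -- the sum over `k`
  have hk : ∑ k ∈ Finset.Icc 1 K, a k * PS (2 * k * t) Y X ≤ DD t Y + T * C2 := by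
    have hb : ∀ k ∈ Finset.Icc 1 K, a k * PS (2 * k * t) Y X ≤
        δ * DD t Y * (4 * (k : ℝ) ^ 2 * |a k|) + |a k| * C2 := by
      intro k hk
      rw [Finset.mem_Icc] at hk
      have hk1 : (1 : ℝ) ≤ k := by exact_mod_cast hk.1
      have hkK : (k : ℝ) ≤ K := by exact_mod_cast hk.2
      have hpos : 0 < 2 * (k : ℝ) * t := by positivity
      have g1 : 3 ≤ |2 * (k : ℝ) * t| := by
        rw [abs_of_pos hpos]
        nlinarith
      have g2 : Real.log |2 * (k : ℝ) * t| + 1 ≤ 2 * Real.log t := by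
        rw [abs_of_pos hpos, Real.log_mul (by positivity) (by positivity)]
        have e1 : Real.log (2 * k) + 1 ≤ Real.log t := by
          have e2 : Real.log (2 * k) + 1 = Real.log (2 * k * Real.exp 1) := by
            rw [Real.log_mul (by positivity) (Real.exp_pos 1).ne', Real.log_exp]
          rw [e2]
          refine Real.log_le_log (by positivity) ?_
          have e3 := Real.exp_one_lt_d9
          nlinarith
        linarith
      have g3 := h2 (2 * Real.log t) Y (2 * k * t) X hL3 hY g1 g2 hYX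
      have g4 := MD_DD t Y k
      have g5 : |PS (2 * k * t) Y X| ≤ δ * (4 * (k : ℝ) ^ 2 * DD t Y) + C2 :=
        g3.trans (by linarith [mul_le_mul_of_nonneg_left g4 hδ0.le])
      calc a k * PS (2 * k * t) Y X ≤ |a k * PS (2 * k * t) Y X| := le_abs_self _
        _ = |a k| * |PS (2 * k * t) Y X| := abs_mul _ _
        _ ≤ |a k| * (δ * (4 * (k : ℝ) ^ 2 * DD t Y) + C2) := mul_le_mul_of_nonneg_left g5 (abs_nonneg _)
        _ = δ * DD t Y * (4 * (k : ℝ) ^ 2 * |a k|) + |a k| * C2 := by ring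
    refine (Finset.sum_le_sum hb).trans ?_
    rw [Finset.sum_add_distrib, ← Finset.mul_sum, ← Finset.sum_mul, ← hS, ← hT]
    nlinarith
  have hc := Mn_cos ha t Y X
  have m1 := (abs_le.1 (h3 Y X hY1 hYX)).2
  have m2 := (abs_le.1 (h4 Y hY1)).2
  have m3 := (abs_le.1 (h1 X t hX1)).1
  have m4 := PS_add t hY0.le hYX
  have m5 : DD t Y = PS 0 0 Y + PS t 0 Y := rfl
  have m6 : (2 / Real.pi + ε) * PS 0 Y X ≤ (2 / Real.pi + ε) * (Real.log (X / Y) + C3) :=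
    mul_le_mul_of_nonneg_left (by linarith) hpe.le
  have m7 : (2 / Real.pi + ε) * (Real.log (X / Y) + C3) =
      (2 / Real.pi + ε) * Real.log (X / Y) + (2 / Real.pi + ε) * C3 := by ring
  linarith

end Pool.Agent.H48.RZ
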