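import Mathlib

/-!
# RBa: sum over the dyadic blocks

PROOF.  Let `v_i = v0 + h i ≥ 0`.  `D v - c v³ ≤ K D^(3/2) + K - v` with `K = K(c)`: `(D + 1) v - c v³ ≤ K' (D + 1)^(3/2)`
(if `c v² ≥ D + 1` it is `≤ 0`, otherwise `v ≤ √((D + 1)/c)` and it is `≤ (D + 1) v`), `(D + 1)^(3/2) ≤ 2√2 (D^(3/2) + 1)`
(`D + 1 ≤ 2 max D 1`).  `∑_i exp (-v0 - h i) ≤ 1/(1 - e^(-h)) ≤ 1 + 1/h` (`1 - e^(-h) ≥ h/(1 + h)`).  About 80 lines.
-/

set_option autoImplicit false

open Complex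

namespace Pool.Agent.H48.RZ

private theorem RBa_rpow {D : ℝ} (hD : 0 ≤ D) : D ^ (3 / 2 : ℝ) = (Real.sqrt D) ^ 3 := by
  rw [Real.sqrt_eq_rpow, ← Real.rpow_natCast, ← Real.rpow_mul hD]
  norm_num

private theorem RBa_key {c D v : ℝ} (hc : 0 < c) (hD : 0 ≤ D) (hv : 0 ≤ v) :
    D * v - c * v ^ 3 ≤ 2 / Real.sqrt c * D ^ (3 / 2 : ℝ) + 2 / Real.sqrt c - v := by
  rw [RBa_rpow hD]
  set a := Real.sqrt D with ha
  have ha0 : 0 ≤ a := Real.sqrt_nonneg D
  have haD : a ^ 2 = D := Real.sq_sqrt hD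
  set s := Real.sqrt c with hs
  have hs0 : 0 < s := Real.sqrt_pos.mpr hc
  have hsc : s ^ 2 = c := Real.sq_sqrt hc.le
  have hK : 0 ≤ 2 / s * a ^ 3 + 2 / s := by positivity
  by_cases h : D + 1 ≤ c * v ^ 2
  · have : v * (D + 1 - c * v ^ 2) ≤ 0 := mul_nonpos_of_nonneg_of_nonpos hv (by linarith)
    nlinarith
  · push Not at h
    have h1 : s * v ≤ a + 1 := by
      have h2 : (s * v) ^ 2 ≤ (a + 1) ^ 2 := by
        rw [mul_pow, hsc]
        nlinarith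
      exact le_of_sq_le_sq h2 (by linarith)
    have h3 : v ≤ (a + 1) / s := by
      rw [le_div_iff₀ hs0]
      linarith [mul_comm s v]
    have h4 : (D + 1) * v ≤ (a ^ 2 + 1) * ((a + 1) / s) := by
      rw [← haD]
      exact mul_le_mul_of_nonneg_left h3 (by positivity)
    have h5 : (a ^ 2 + 1) * ((a + 1) / s) ≤ 2 / s * a ^ 3 + 2 / s := by
      have h6 : (a ^ 2 + 1) * ((a + 1) / s) = ((a ^ 2 + 1) * (a + 1)) / s := by ring
      have h7 : 2 / s * a ^ 3 + 2 / s = (2 * (a ^ 3 + 1)) / s := by ring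
      rw [h6, h7]
      refine div_le_div_of_nonneg_right ?_ hs0.le
      nlinarith [mul_nonneg (sq_nonneg (a - 1)) (by linarith : (0 : ℝ) ≤ a + 1)]
    have h8 : 0 ≤ c * v ^ 3 := by positivity
    nlinarith

private theorem RBa_geom {h : ℝ} (hh : 0 < h) (n : ℕ) :
    ∑ i ∈ Finset.range n, Real.exp (-(h * i)) ≤ 1 + 1 / h := by
  have hr0 : 0 ≤ Real.exp (-h) := (Real.exp_pos _).le
  have hr1 : Real.exp (-h) < 1 := Real.exp_lt_one_iff.mpr (by linarith)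
  have h1 : ∀ i ∈ Finset.range n, Real.exp (-(h * i)) = Real.exp (-h) ^ i := by
    intro i _
    rw [← Real.exp_nat_mul]
    congr 1
    ring
  rw [Finset.sum_congr rfl h1]
  have h2 : ∑ i ∈ Finset.range n, Real.exp (-h) ^ i ≤ (1 - Real.exp (-h))⁻¹ := by
    have h3 := (summable_geometric_of_lt_one hr0 hr1).sum_le_tsum (Finset.range n)
      (fun i _ => pow_nonneg hr0 i)
    rwa [tsum_geometric_of_lt_one hr0 hr1] at h3
  refine h2.trans ?_
  have h4 : Real.exp (-h) ≤ 1 / (1 + h) := by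
    rw [Real.exp_neg, ← one_div]
    exact one_div_le_one_div_of_le (by linarith) (by linarith [Real.add_one_le_exp h])
  have h5 : h / (1 + h) ≤ 1 - Real.exp (-h) := by
    have h6 : h / (1 + h) = 1 - 1 / (1 + h) := by
      field_simp
      ring
    linarith
  have h7 : (1 - Real.exp (-h))⁻¹ ≤ (h / (1 + h))⁻¹ := by
    apply inv_anti₀ (by positivity) h5
  refine h7.trans (le_of_eq ?_)
  field_simp
  ring

theorem rba {c : ℝ} (hc : 0 < c) : ∃ B C : ℝ, 1 ≤ B ∧ 1 ≤ C ∧ ∀ (D h v0 : ℝ) (n : ℕ), 0 ≤ D → 0 < h → 0 ≤ v0 →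
    ∑ i ∈ Finset.range n, Real.exp (D * (v0 + h * i) - c * (v0 + h * i) ^ 3) ≤
      C * Real.exp (B * D ^ (3 / 2 : ℝ)) * (1 + 1 / h) := by
  have hs0 : 0 < Real.sqrt c := Real.sqrt_pos.mpr hc
  refine ⟨2 / Real.sqrt c + 1, Real.exp (2 / Real.sqrt c), ?_, ?_, ?_⟩
  · have : 0 ≤ 2 / Real.sqrt c := by positivity
    linarith
  · exact Real.one_le_exp (by positivity)
  intro D h v0 n hD hh hv0
  have hDp : 0 ≤ D ^ (3 / 2 : ℝ) := Real.rpow_nonneg hD _
  have hterm : ∀ i ∈ Finset.range n, Real.exp (D * (v0 + h * i) - c * (v0 + h * i) ^ 3) ≤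
      Real.exp (2 / Real.sqrt c) * Real.exp ((2 / Real.sqrt c + 1) * D ^ (3 / 2 : ℝ)) *
        Real.exp (-(h * i)) := by
    intro i _
    have hi : (0 : ℝ) ≤ h * i := by positivity
    have hk := RBa_key hc hD (by linarith : 0 ≤ v0 + h * i)
    rw [← Real.exp_add, ← Real.exp_add]
    apply Real.exp_le_exp.mpr
    nlinarith
  refine (Finset.sum_le_sum hterm).trans ?_
  rw [← Finset.mul_sum]
  exact mul_le_mul_of_nonneg_left (RBa_geom hh n) (by positivity)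

end Pool.Agent.H48.RZ
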